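import Pool.Agent.P.MP_b8021b_nt.Desc2

/-! Galois descent of rational equivalences. -/

open scoped WithZero IntermediateField Polynomial LinearAlgebra.Projectivization
open WithZero

set_option linter.unusedSectionVars false

namespace Pool.Agent.P.MP_b8021b_nt

noncomputable section

variable {k : IntermediateField ℚ Qb} {n : ℕ}

lemma map_ne_zero' (s : Qb ≃ₐ[k] Qb) {r : Fin (n + 1) → Qb} (hr : r ≠ 0) :
    (fun i => s (r i)) ≠ 0 := fun h => hr (funext fun i => by simpa using congrFun h i)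

/-- Galois action on projective space -/
def pact (s : Qb ≃ₐ[k] Qb) (x : ℙ Qb (Fin (n + 1) → Qb)) : ℙ Qb (Fin (n + 1) → Qb) :=
  Projectivization.mk Qb (fun i => s (x.rep i)) (map_ne_zero' s x.rep_nonzero)

lemma pact_mk (s : Qb ≃ₐ[k] Qb) {r : Fin (n + 1) → Qb} (hr : r ≠ 0) :
    pact s (Projectivization.mk Qb r hr) =
      Projectivization.mk Qb (fun i => s (r i)) (map_ne_zero' s hr) := by
  obtain ⟨a, ha⟩ := Projectivization.exists_smul_eq_mk_rep Qb r hr
  unfold pact
  rw [Projectivization.mk_eq_mk_iff']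
  refine ⟨s a, funext fun i => ?_⟩
  rw [← ha]
  simp [Units.smul_def]

lemma pact_pact (s : Qb ≃ₐ[k] Qb) (x : ℙ Qb (Fin (n + 1) → Qb)) :
    pact s (pact s.symm x) = x := by
  conv_lhs => rw [pact.eq_1 s.symm, pact_mk]
  simp

/-- Galois stable sets -/
def Stable (k : IntermediateField ℚ Qb) (X : Set (ℙ Qb (Fin (n + 1) → Qb))) : Prop :=
  ∀ s : Qb ≃ₐ[k] Qb, ∀ x ∈ X, pact s x ∈ X

/-- Galois action on a stable set -/
def xact {X : Set (ℙ Qb (Fin (n + 1) → Qb))} (hX : Stable k X) (s : Qb ≃ₐ[k] Qb) (x : X) : X :=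
  ⟨pact s x, hX s x x.2⟩

lemma mapDomain_xact {X : Set (ℙ Qb (Fin (n + 1) → Qb))} (hX : Stable k X) {D : X →₀ ℤ}
    (hD : GaloisInvariant k D) (s : Qb ≃ₐ[k] Qb) : Finsupp.mapDomain (xact hX s) D = D := by
  have hinj : Function.Injective (xact hX s) := by
    intro x y h
    have h1 : pact s x.1 = pact s y.1 := congrArg Subtype.val h
    have h2 := congrArg (pact s.symm) h1
    have h3 := pact_pact s.symm x.1
    have h4 := pact_pact s.symm y.1
    rw [AlgEquiv.symm_symm] at h3 h4
    exact Subtype.ext (by rw [← h3, h2, h4])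
  ext y
  have hy : y = xact hX s (xact hX s.symm y) := Subtype.ext (pact_pact s y.1).symm
  rw [hy, Finsupp.mapDomain_apply hinj]
  refine hD s _ _ ?_
  obtain ⟨a, ha⟩ := Projectivization.exists_smul_eq_mk_rep Qb _
    (map_ne_zero' s (xact hX s.symm y).1.rep_nonzero)
  exact ⟨a, fun i => (congrFun ha i).symm⟩

/-- cycles whose traces are rationally trivial over `k` -/
def trTrivial {X : Set (ℙ Qb (Fin (n + 1) → Qb))} (hX : Stable k X) : AddSubgroup (X →₀ ℤ) where
  carrier := {D | ∃ C : Finset Qb, ∀ (L : IntermediateField k Qb) [FiniteDimensional k L],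
    (∀ c ∈ C, c ∈ L) → ∀ s : (L →ₐ[k] Qb) → (Qb ≃ₐ[k] Qb), (∀ τ (c : L), s τ c = τ c) →
      ∑ τ, Finsupp.mapDomain (xact hX (s τ)) D ∈ ratTrivialOver k X}
  zero_mem' := ⟨∅, fun L _ _ s _ => by simp⟩
  add_mem' := by
    classical
    rintro a b ⟨C, hC⟩ ⟨D, hD⟩
    refine ⟨C ∪ D, fun L _ hL s hs => ?_⟩
    simp only [Finsupp.mapDomain_add, Finset.sum_add_distrib]
    exact add_mem (hC L (fun c hc => hL c (Finset.mem_union_left _ hc)) s hs)
      (hD L (fun c hc => hL c (Finset.mem_union_right _ hc)) s hs)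
  neg_mem' := by
    rintro a ⟨C, hC⟩
    refine ⟨C, fun L _ hL s hs => ?_⟩
    have e : ∀ τ, Finsupp.mapDomain (xact hX (s τ)) (-a) = -Finsupp.mapDomain (xact hX (s τ)) a :=
      fun τ => map_neg (Finsupp.mapDomain.addMonoidHom (xact hX (s τ))) a
    simp only [e, Finset.sum_neg_distrib]
    exact neg_mem (hC L hL s hs)

section points

variable {K' : Type} [Field K'] [Algebra Qb K'] {L : IntermediateField k Qb}
  {K : IntermediateField L K'}

lemma GeomPoint.mem (p : GeomPoint k K) (c : L) : algebraMap L K c ∈ p.v.valuationSubring := by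
  refine mem_of_isIntegralElem _ (algebraMap k K) (fun r => (p.const r).1) ?_
  have h1 : IsAlgebraic k (c : Qb) := Algebra.IsAlgebraic.isAlgebraic _
  have h2 : IsAlgebraic k c := (isAlgebraic_algebraMap_iff (algebraMap L Qb).injective).mp h1
  exact h2.isIntegral.algebraMap

/-- the embedding of the constants given by a point -/
def GeomPoint.τ (p : GeomPoint k K) : L →ₐ[k] Qb :=
  { p.ρ.comp ((algebraMap L K).codRestrict p.v.valuationSubring.toSubring p.mem) with
    commutes' := fun c => (p.const c).2 }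

lemma GeomPoint.τ_apply (p : GeomPoint k K) (c : L) : p.τ c = p.ρ ⟨_, p.mem c⟩ := rfl

lemma lt_one_le {a : ℤᵐ⁰} (h : a < 1) : a ≤ exp (-1) := by
  rcases eq_or_ne a 0 with rfl | h0
  · exact zero_le
  rw [← exp_log h0, ← exp_zero, exp_lt_exp] at h
  rw [← exp_log h0, exp_le_exp]; omega

/-- the point over `L` given by a point over `k` -/
def GeomPoint.toPt (p : GeomPoint k K) (s : Qb ≃ₐ[k] Qb) (hs : ∀ c : L, s c = p.τ c) : Pt L K where
  v := p.v
  ρ := (s.symm : Qb →+* Qb).comp p.ρ
  mem := p.mem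
  const := fun c => by
    change s.symm (p.τ c) = c
    rw [← hs, s.symm_apply_apply]
  ker := fun a => by rw [← p.ker]; simp
  π := (p.surj (exp (-1))).choose
  π0 := fun h => by
    have := (p.surj (exp (-1))).choose_spec
    rw [h, map_zero] at this
    exact exp_ne_zero this.symm
  π1 := by rw [(p.surj (exp (-1))).choose_spec, ← exp_zero, exp_lt_exp]; norm_num
  πmax := fun a ha => by rw [(p.surj (exp (-1))).choose_spec]; exact lt_one_le ha

lemma GeomPoint.ext' {p q : GeomPoint k K} (h : p.v = q.v)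
    (h' : ∀ (a : K) (h1 : a ∈ p.v.valuationSubring) (h2 : a ∈ q.v.valuationSubring),
      p.ρ ⟨a, h1⟩ = q.ρ ⟨a, h2⟩) : p = q := by
  obtain ⟨v, ρ, _, _, _⟩ := p
  obtain ⟨v', ρ', _, _, _⟩ := q
  dsimp only at h h'
  subst h
  have : ρ = ρ' := RingHom.ext fun a => h' a.1 a.2 a.2
  subst this
  rfl

/-- every place of `K'` and embedding of `L` come from a point of `K` -/
lemma exists_geomPoint (hK : IsCurveField K')
    (gen : ∀ x : K', x ∈ Submodule.span Qb (Set.range (algebraMap K K')))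
    {w : Valuation K' ℤᵐ⁰} (hw : IsPlace w) (s : Qb ≃ₐ[k] Qb) :
    ∃ p : GeomPoint k K, ∃ hs : ∀ c : L, s c = p.τ c, Over (p.toPt s hs) w := by
  have := hw.triv
  let v : Valuation K ℤᵐ⁰ := w.comap (algebraMap K K')
  choose r hr using fun a : v.valuationSubring => hK.exists_residue hw (algebraMap K K' a) a.2
  have hr' : ∀ a : v.valuationSubring, Tends w (algebraMap K K' a) (r a) := hr
  let ρ : v.valuationSubring →+* Qb :=
    { toFun := r
      map_one' := (hr' 1).eq_of_eq Tends.one (by simp)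
      map_mul' := fun a b => (hr' (a * b)).eq_of_eq ((hr' a).mul (hr' b)) (by simp)
      map_zero' := (hr' 0).eq_of_eq Tends.zero (by simp)
      map_add' := fun a b => (hr' (a + b)).eq_of_eq ((hr' a).add (hr' b)) (by simp) }
  have hmem : ∀ c : L, algebraMap L K c ∈ v.valuationSubring := fun c => hw.const_le_one (c : Qb)
  have hconst : ∀ c : L, ρ ⟨algebraMap L K c, hmem c⟩ = algebraMap L Qb c := fun c =>
    (hr' ⟨_, hmem c⟩).eq_of_eq (Tends.const (c : Qb)) rfl
  have hker : ∀ a : v.valuationSubring, ρ a = 0 ↔ v a < 1 := by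
    intro a
    constructor
    · intro h
      exact (Tends.zero_iff (v := w)).mp ((hr' a).of_eq_right h)
    · intro h
      exact (hr' a).unique ((Tends.zero_iff (v := w)).mpr h)
  -- a uniformiser
  have hnt : ∃ a : K, a ≠ 0 ∧ v a < 1 := by
    by_contra hcon
    push Not at hcon
    have hle : ∀ a : K, v a ≤ 1 := by
      intro a
      rcases eq_or_ne a 0 with rfl | h0
      · simp
      by_contra hlt
      push Not at hlt
      exact absurd ((Valuation.one_lt_val_iff v h0).mp hlt) (not_lt.mpr (hcon _ (inv_ne_zero h0)))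
    have hall : ∀ x : K', w x ≤ 1 := by
      intro x
      induction gen x using Submodule.span_induction with
      | mem x hx => obtain ⟨a, rfl⟩ := hx; exact hle a
      | zero => simp
      | add x y _ _ hx hy => exact w.map_add_le hx hy
      | smul c x _ hx =>
        rw [Algebra.smul_def, map_mul]; exact mul_le_one' (hw.const_le_one c) hx
    exact hw.ne_top (eq_top_iff.mpr fun x _ => hall x)
  have hex : ∃ m : ℕ, ∃ a : K, v a = exp (-((m : ℤ) + 1)) := by
    obtain ⟨a, h0, h1⟩ := hnt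
    have ha : v a ≠ 0 := by simpa using h0
    rw [← exp_log ha, ← exp_zero, exp_lt_exp] at h1
    refine ⟨(-log (v a) - 1).toNat, a, ?_⟩
    conv_lhs => rw [← exp_log ha]
    congr 1
    omega
  classical
  obtain ⟨π, hπ⟩ := Nat.find_spec hex
  let P : Pt L K :=
    { v := v, ρ := ρ, mem := hmem, const := hconst, ker := hker, π := π
      π0 := by
        rintro rfl
        rw [map_zero] at hπ
        exact exp_ne_zero hπ.symm
      π1 := by rw [hπ, ← exp_zero, exp_lt_exp]; omega
      πmax := fun a h1 => by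
        rcases eq_or_ne a 0 with rfl | h0
        · simp
        have ha : v a ≠ 0 := by simpa using h0
        rw [← exp_log ha, ← exp_zero, exp_lt_exp] at h1
        have := Nat.find_min' hex (m := (-log (v a) - 1).toNat) ⟨a, by
          conv_lhs => rw [← exp_log ha]
          congr 1
          omega⟩
        rw [hπ, ← exp_log ha, exp_le_exp]
        omega }
  have hP : Over P w := ⟨hw, hr'⟩
  have hπ1 : v π = exp (-1) := hP.π_eq gen
  have hsurj : Function.Surjective v := by
    intro y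
    rcases eq_or_ne y 0 with rfl | hy
    · exact ⟨0, map_zero v⟩
    · exact ⟨π ^ (-log y), by rw [map_zpow₀, hπ1, ← exp_zsmul]; simp [exp_log hy]⟩
  refine ⟨⟨v, (s : Qb →+* Qb).comp ρ, hsurj, fun c => ⟨hmem (algebraMap k L c), ?_⟩,
    fun a => by rw [← hker]; simp⟩, fun c => ?_, hw, fun a => ?_⟩
  · change s (ρ ⟨algebraMap L K (algebraMap k L c), hmem _⟩) = c
    rw [hconst]
    exact s.commutes c
  · change s c = s (ρ ⟨algebraMap L K c, hmem c⟩)
    rw [hconst]; rfl
  · change Tends w _ (s.symm (s (ρ a)))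
    rw [s.symm_apply_apply]
    exact hr' a

end points

theorem ratTrivial_le {X : Set (ℙ Qb (Fin (n + 1) → Qb))} (hX : Stable k X) :
    ratTrivial X ≤ trTrivial hX := by
  classical
  rw [ratTrivial, AddSubgroup.closure_le]
  rintro _ ⟨K', _, _, hK, η, φ, f, S, hφ, hf, hS, hS', rfl⟩
  obtain ⟨C, hC⟩ := exists_model (k := k) hK (insert f (Finset.univ.image η))
  refine ⟨C, fun L _ hL s hs => ?_⟩
  obtain ⟨K, hcf, gen, dis, hT⟩ := hC L hL
  have : CharZero L := charZero_of_injective_algebraMap (algebraMap ℚ L).injective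
  let fK : K := ⟨f, hT f (Finset.mem_insert_self _ _)⟩
  let ηK : Fin (n + 1) → K := fun i => ⟨η i, hT _ (by simp)⟩
  choose W hW using fun p : GeomPoint k K => (p.toPt (s p.τ) (hs p.τ)).exists_over hK dis
  have hval : ∀ (p : GeomPoint k K) (a : K), W p (algebraMap K K' a) = p.v a := fun p a =>
    (hW p).val_eq gen (p.surj (exp (-1))).choose_spec a
  let Ψ : GeomPoint k K → (L →ₐ[k] Qb) × Valuation K' ℤᵐ⁰ := fun p => (p.τ, W p)
  have hinj : Function.Injective Ψ := by
    intro p q h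
    have h1 : p.τ = q.τ := congrArg Prod.fst h
    have h2 : W p = W q := congrArg Prod.snd h
    refine GeomPoint.ext' (Valuation.ext fun a => by rw [← hval, ← hval, h2]) fun a ha ha' => ?_
    have := (hW p).1.triv
    have a1 : Tends (W p) (algebraMap K K' a) ((s p.τ).symm (p.ρ ⟨a, ha⟩)) := (hW p).2 ⟨a, ha⟩
    have a2 : Tends (W q) (algebraMap K K' a) ((s q.τ).symm (q.ρ ⟨a, ha'⟩)) := (hW q).2 ⟨a, ha'⟩
    rw [← h1, ← h2] at a2
    exact (s p.τ).symm.injective (a1.unique a2)
  have hsurj : ∀ τ w, IsPlace w → (τ, w) ∈ Set.range Ψ := by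
    intro τ w hw
    obtain ⟨p, h1, h2⟩ := exists_geomPoint hK gen hw (s τ)
    have e : τ = p.τ := AlgHom.ext fun c => by rw [← hs, h1]
    subst e
    exact ⟨p, Prod.ext rfl ((hW p).unique gen h2)⟩
  have hord : ∀ p : GeomPoint k K, ord p.v fK = ord (W p) f := fun p => by
    rw [ord, ord, ← hval]; rfl
  refine AddSubgroup.subset_closure ⟨K, inferInstance, inferInstance, hcf, ηK,
    fun p => xact hX (s p.τ) (φ (W p)), fK, (Finset.univ ×ˢ S).preimage Ψ hinj.injOn, ?_, ?_, ?_, ?_⟩
  · intro p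
    have hw := (hW p).1
    have := hw.triv
    obtain ⟨c, hc⟩ := hφ (W p) hw
    have hc' : ∀ i, Tends (W p) (c * η i) ((φ (W p)).1.rep i) := hc
    obtain ⟨i, -, hi⟩ := Finset.exists_max_image Finset.univ (fun i => p.v (ηK i))
      Finset.univ_nonempty
    obtain ⟨j, hj⟩ := Function.ne_iff.mp (φ (W p)).1.rep_nonzero
    have hj' : (φ (W p)).1.rep j ≠ 0 := hj
    have hi0 : ηK i ≠ 0 := by
      intro h
      have h1 : ηK j = 0 := by simpa [h] using hi j (Finset.mem_univ j)
      have h2 : η j = 0 := congrArg Subtype.val h1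
      exact hj' ((hc' j).eq_zero (by rw [h2, mul_zero]))
    have hle : ∀ j, (ηK i)⁻¹ * ηK j ∈ p.v.valuationSubring := by
      intro j
      rw [Valuation.mem_valuationSubring_iff, map_mul, map_inv₀,
        inv_mul_le_one₀ (zero_lt_iff.mpr (by simpa using hi0))]
      exact hi j (Finset.mem_univ j)
    let r : Fin (n + 1) → Qb := fun j => (s p.τ).symm (p.ρ ⟨_, hle j⟩)
    have hr : ∀ j, Tends (W p) ((η i)⁻¹ * η j) (r j) := fun j => (hW p).2 ⟨_, hle j⟩
    have hηi : η i ≠ 0 := fun h => hi0 (Subtype.ext h)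
    have hri : r i = 1 := (hr i).eq_of_eq Tends.one (inv_mul_cancel₀ hηi)
    have hr0 : r ≠ 0 := fun h => by
      have := congrFun h i
      rw [hri] at this
      exact one_ne_zero this
    have hx : (φ (W p)).1 = Projectivization.mk Qb r hr0 := by
      rw [← (φ (W p)).1.mk_rep, Projectivization.mk_eq_mk_iff']
      refine ⟨(φ (W p)).1.rep i, funext fun l => ?_⟩
      exact ((hc' i).mul (hr l)).eq_of_eq (hc' l) (by field_simp)
    have e : (fun j => p.ρ ⟨(ηK i)⁻¹ * ηK j, hle j⟩) = fun j => s p.τ (r j) :=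
      funext fun j => ((s p.τ).apply_symm_apply _).symm
    refine ⟨(ηK i)⁻¹, hle, e ▸ map_ne_zero' _ hr0, ?_⟩
    change pact (s p.τ) (φ (W p)).1 = _
    rw [hx, pact_mk]
    congr 1
    exact e.symm
  · exact fun h => hf (congrArg Subtype.val h)
  · intro p hp
    rw [hord]
    refine hS' _ (hW p).1 fun h => hp ?_
    exact Finset.mem_preimage.mpr (Finset.mem_product.mpr ⟨Finset.mem_univ _, h⟩)
  · have := Finset.sum_preimage Ψ (Finset.univ ×ˢ S) hinj.injOn
      (fun z => Finsupp.single (xact hX (s z.1) (φ z.2)) (ord z.2 f))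
      (fun z hz hn => absurd (hsurj z.1 z.2 (hS _ (Finset.mem_product.mp hz).2)) hn)
    simp only [hord]
    refine Eq.trans ?_ this.symm
    rw [Finset.sum_product]
    refine Finset.sum_congr rfl fun τ _ => ?_
    rw [Finsupp.mapDomain_finsetSum]
    exact Finset.sum_congr rfl fun w _ => Finsupp.mapDomain_single

theorem descent {X : Set (ℙ Qb (Fin (n + 1) → Qb))} (hX : Stable k X) {D : X →₀ ℤ}
    (hD : GaloisInvariant k D) {m : ℕ} (hm : 0 < m) (h : m • D ∈ ratTrivial X) :
    ∃ m : ℕ, 0 < m ∧ m • D ∈ ratTrivialOver k X := by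
  obtain ⟨C, hC⟩ := ratTrivial_le hX h
  let L : IntermediateField k Qb := IntermediateField.adjoin k (C : Set Qb)
  have : FiniteDimensional k L := IntermediateField.finiteDimensional_adjoin fun x _ =>
    (Algebra.IsAlgebraic.isAlgebraic x).isIntegral
  have hs : ∀ τ : L →ₐ[k] Qb, ∃ s : Qb ≃ₐ[k] Qb, ∀ c : L, s c = τ c := fun τ =>
    ⟨AlgEquiv.ofBijective (τ.liftNormal Qb) (AlgHom.normal_bijective k Qb Qb _),
      fun c => τ.liftNormal_commutes Qb c⟩
  choose s hs using hs
  have h1 := hC L (fun c hc => IntermediateField.subset_adjoin _ _ hc) s hs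
  have : Nonempty (L →ₐ[k] Qb) := ⟨L.val⟩
  refine ⟨Fintype.card (L →ₐ[k] Qb) * m, Nat.mul_pos Fintype.card_pos hm, ?_⟩
  simp only [Finsupp.mapDomain_smul, mapDomain_xact hX hD, Finset.sum_const,
    Finset.card_univ] at h1
  rw [mul_nsmul']
  exact h1

open MvPolynomial in
lemma map_eq_self (s : Qb ≃ₐ[k] Qb) {σ : Type} {q : MvPolynomial σ Qb}
    (hq : ∀ m, q.coeff m ∈ k) (p : σ → Qb) : eval (fun i => s (p i)) q = s (eval p q) := by
  have h1 : MvPolynomial.map (s : Qb →+* Qb) q = q := by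
    ext m
    rw [coeff_map]
    exact s.commutes ⟨_, hq m⟩
  conv_lhs => rw [← h1]
  rw [eval_map]
  exact (eval₂_comp_left (s : Qb →+* Qb) (RingHom.id Qb) p q).symm

lemma stable_imageOf {q q' : MvPolynomial (Fin 5) Qb} {N : Fin (n + 1) → MvPolynomial (Fin 5) Qb}
    (hq : ∀ m, q.coeff m ∈ k) (hq' : ∀ m, q'.coeff m ∈ k) (hN : ∀ i m, (N i).coeff m ∈ k) :
    Stable k (imageOf q q' N) := by
  rintro s _ ⟨p, h1, h2, h3, rfl⟩
  have e : (fun i => MvPolynomial.eval (fun j => s (p j)) (N i)) =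
      fun i => s (MvPolynomial.eval p (N i)) := funext fun i => map_eq_self s (hN i) p
  refine ⟨fun j => s (p j), by rw [map_eq_self s hq, h1, map_zero],
    by rw [map_eq_self s hq', h2, map_zero], e ▸ map_ne_zero' s h3, ?_⟩
  rw [pact_mk]
  congr 1
  exact e.symm

open MvPolynomial in
lemma Stable.closure {Z : Set (ℙ Qb (Fin (n + 1) → Qb))} (hZ : Stable k Z) :
    Stable k (zariskiClosure Z) := by
  intro s x hx P d hP hPZ
  have key : ∀ y : ℙ Qb (Fin (n + 1) → Qb), ∃ a : Qb, a ≠ 0 ∧ eval (pact s y).rep P =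
      a * s (eval y.rep (MvPolynomial.map (s.symm : Qb →+* Qb) P)) := by
    intro y
    obtain ⟨a, ha⟩ := Projectivization.exists_smul_eq_mk_rep Qb _ (map_ne_zero' s y.rep_nonzero)
    refine ⟨a ^ d, pow_ne_zero _ a.ne_zero, ?_⟩
    have e1 : (pact s y).rep = fun i => (a : Qb) * s (y.rep i) := ha.symm
    have e2 := aeval_smul_homog hP (a : Qb) (fun i => s (y.rep i))
    rw [aeval_eq_eval, aeval_eq_eval] at e2
    rw [e1, e2]
    congr 1
    rw [eval_map]
    have e3 := eval₂_comp_left (s : Qb →+* Qb) (s.symm : Qb →+* Qb) y.rep P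
    have e4 : (s : Qb →+* Qb).comp (s.symm : Qb →+* Qb) = RingHom.id Qb :=
      RingHom.ext fun c => s.apply_symm_apply c
    rw [e4] at e3
    exact e3.symm
  obtain ⟨a, -, ha⟩ := key x
  rw [ha, hx _ d (hP.map _) fun z hz => ?_, map_zero, mul_zero]
  obtain ⟨b, hb0, hb⟩ := key z
  rw [hPZ _ (hZ s z hz)] at hb
  simpa [hb0] using hb.symm

end

end Pool.Agent.P.MP_b8021b_nt
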