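import Pool.Agent.P.MP_b8021b_nt.Prime

/-! An explicit member of the family. -/

open scoped Polynomial

namespace Pool.Agent.P.MP_b8021b_nt

noncomputable section

open Polynomial

/-- The first quartic of the example. -/
def exF : EvenQuartic := ⟨![1 / 2, 1, 1 / 4, -3 / 4, -1 / 2], ![-2, -1 / 2, -1], 1⟩

/-- The second quartic of the example. -/
def exG : EvenQuartic := ⟨![1 / 4, 3 / 2, -5 / 4, -1 / 4, -1 / 4], ![-5 / 4, -1, 0], 3 / 4⟩

lemma eval_fib_I (f g : EvenQuartic) (r : Qb) : (fib f g (X : Qb[X])).I.eval r = (fib f g r).I := by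
  rw [← aeval_fib f g r]; simp [Quart.I, iI]

lemma eval_fib_J (f g : EvenQuartic) (r : Qb) : (fib f g (X : Qb[X])).J.eval r = (fib f g r).J := by
  rw [← aeval_fib f g r]; simp [Quart.J, iJ]

lemma ex_I : invI (pencilDisc exF exG) = (X - C (-1)) ^ 4
    * (X ^ 2 * (640 + 7200 * X + 7792 * X ^ 2 + 2064 * X ^ 3 + 256 * X ^ 4)) := by
  rw [invI_eq]
  refine Polynomial.funext fun r => ?_
  rw [eval_fib_I]
  simp [fib, sqQ, mx, Quart.I, iI, exF, exG]
  ring

lemma ex_J : invJ (pencilDisc exF exG) = (X - C (-1)) ^ 6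
    * (X ^ 3 * (26624 + 352512 * X + 514560 * X ^ 2 - 77616 * X ^ 3 - 311808 * X ^ 4
      - 57600 * X ^ 5 + 7360 * X ^ 6)) := by
  rw [invJ_eq]
  refine Polynomial.funext fun r => ?_
  rw [eval_fib_J]
  simp [fib, sqQ, mx, Quart.J, iJ, exF, exG]
  ring

lemma ex_disc : ¬ (C exF.c + C exG.c * X) ^ 3 ∣
    4 * invI (pencilDisc exF exG) ^ 3 - invJ (pencilDisc exF exG) ^ 2 := by
  have e : 4 * invI (pencilDisc exF exG) ^ 3 - invJ (pencilDisc exF exG) ^ 2
      = (C exF.c + C exG.c * X) ^ 2 * (X ^ 6 * (X + 1) ^ 12 * (339738624 + 16109273088 * X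
        + 260411424768 * X ^ 2 + 1606546980864 * X ^ 3 + 2793311170560 * X ^ 4
        + 2014239522816 * X ^ 5 + 656555507712 * X ^ 6 + 112519839744 * X ^ 7
        + 24829231104 * X ^ 8 + 4331667456 * X ^ 9 + 23003136 * X ^ 10)) := by
    rw [ex_I, ex_J]
    refine Polynomial.funext fun r => ?_
    simp [exF, exG]
    ring
  have h0 : (C exF.c + C exG.c * X : Qb[X]) ≠ 0 := fun h => by
    simpa [exF] using congrArg (eval 0) h
  rw [e, pow_succ, mul_dvd_mul_iff_left (pow_ne_zero 2 h0)]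
  rintro ⟨q, hq⟩
  have := congrArg (eval (-4 / 3)) hq
  norm_num [exF, exG] at this

lemma ex_prime : (Ideal.span {q₀ exF, q₂ exG}).IsPrime := by
  refine isPrime_of_irreducible _ _ (irreducible_Ry _ _ (r := -1) (r' := 1) ?_ ?_ ?_ one_ne_zero ?_)
  all_goals simp [Fq, exF, exG, derivative_pow]; norm_num

end

end Pool.Agent.P.MP_b8021b_nt
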