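import Pool.Agent.P.MP_b8021b_nt.Spec

/-! Curve selection. -/

namespace Pool.Agent.P.MP_b8021b_nt

noncomputable section

lemma exists_lift_ker {B R : Type} [CommRing B] [CommRing R] [Algebra B R] [Algebra.IsIntegral B R]
    (θ : B →+* Om) (P : Ideal R) [P.IsPrime] [P.LiesOver (RingHom.ker θ)] :
    ∃ ψ : R →+* Om, (∀ b, ψ (algebraMap B R b) = θ b) ∧ ∀ r, ψ r = 0 → r ∈ P := by
  have : (RingHom.ker θ).IsPrime := RingHom.ker_isPrime θ
  let : Algebra (B ⧸ RingHom.ker θ) Om := (RingHom.kerLift θ).toAlgebra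
  have : FaithfulSMul (B ⧸ RingHom.ker θ) Om :=
    (faithfulSMul_iff_algebraMap_injective _ _).mpr (RingHom.kerLift_injective θ)
  let ψ' : (R ⧸ P) →ₐ[B ⧸ RingHom.ker θ] Om := IsAlgClosed.lift
  have hker : RingHom.ker ψ' = ⊥ := by
    refine Ideal.eq_bot_of_comap_eq_bot (R := B ⧸ RingHom.ker θ) ?_
    rw [eq_bot_iff]
    intro b hb
    have : ψ' (algebraMap _ _ b) = 0 := hb
    rw [AlgHom.commutes] at this
    exact RingHom.kerLift_injective θ (this.trans (map_zero _).symm)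
  refine ⟨ψ'.toRingHom.comp (Ideal.Quotient.mk P), fun b => ?_, fun r hr => ?_⟩
  · exact ψ'.commutes (Ideal.Quotient.mk _ b)
  · have : Ideal.Quotient.mk P r ∈ RingHom.ker ψ' := hr
    rw [hker] at this
    exact Ideal.Quotient.eq_zero_iff_mem.mp this

theorem curve_selection {R : Type} [CommRing R] [IsDomain R] [Algebra Qb R] [Algebra.FiniteType Qb R]
    (ε : R →ₐ[Qb] Qb) {H : R} (hH : H ≠ 0) :
    ∃ (ψ : R →ₐ[Qb] Om) (sp : Sp), ψ H ≠ 0 ∧ ∀ r, Tends sp.v (ψ r) (ε r) := by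
  obtain ⟨s, g, hinj, hint⟩ := exists_integral_inj_algHom_of_fg Qb R
  let : Algebra (MvPolynomial (Fin s) Qb) R := g.toRingHom.toAlgebra
  have : Algebra.IsIntegral (MvPolynomial (Fin s) Qb) R := ⟨hint⟩
  have : FaithfulSMul (MvPolynomial (Fin s) Qb) R :=
    (faithfulSMul_iff_algebraMap_injective _ _).mpr hinj
  obtain ⟨b, hb, hdvd⟩ := (Algebra.IsIntegral.isIntegral (R := MvPolynomial (Fin s) Qb)
    H).isAlgebraic.exists_nonzero_dvd (mem_nonZeroDivisors_of_ne_zero hH)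
  obtain ⟨a', ha'⟩ : ∃ a', MvPolynomial.eval a' b ≠ 0 := by
    by_contra h
    push Not at h
    exact hb (MvPolynomial.funext fun v => by rw [h, map_zero])
  let a : Fin s → Qb := fun i => ε (g (MvPolynomial.X i))
  have hεg : ∀ p, ε (g p) = MvPolynomial.eval a p := fun p =>
    DFunLike.congr_fun (show ε.comp g = MvPolynomial.aeval a from by ext i; simp [a]) p
  let θ : MvPolynomial (Fin s) Qb →ₐ[Qb] Om := MvPolynomial.aeval fun i =>
    algebraMap Qb Om (a i) + lam * algebraMap Qb Om (a' i - a i)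
  have hθ : ∀ (sp : Sp) (c : Qb), Tends sp.v lam c → ∀ p, Tends sp.v (θ p)
      (MvPolynomial.eval (fun i => a i + c * (a' i - a i)) p) := fun sp c h p =>
    Tends.mv_aeval (fun i => (Tends.const _).add (h.mul (Tends.const _))) p
  have hθb : θ b ≠ 0 := by
    obtain ⟨sp, h⟩ := nonConst_lam.exists_sp 1
    exact (hθ sp 1 h b).ne_zero (by simpa using ha')
  obtain ⟨sp0, h0⟩ := nonConst_lam.exists_sp 0
  have : (RingHom.ker θ.toRingHom).IsPrime := RingHom.ker_isPrime _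
  have : (RingHom.ker ε).IsPrime := RingHom.ker_isPrime _
  have hle : RingHom.ker θ.toRingHom ≤ (RingHom.ker ε).under (MvPolynomial (Fin s) Qb) := by
    intro p hp
    have := (hθ sp0 0 h0 p).eq_zero hp
    change ε (g p) = 0
    rw [hεg]
    simpa using this
  obtain ⟨P, hPle, hP, hPo⟩ := Ideal.exists_ideal_le_liesOver_of_le (RingHom.ker ε) hle
  obtain ⟨ψ, hψ, hker⟩ := exists_lift_ker θ.toRingHom P
  have hc : ∀ c : Qb, ψ (algebraMap Qb R c) = algebraMap Qb Om c := by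
    intro c
    rw [← g.commutes, ← θ.commutes]
    exact hψ _
  have hψH : ψ H ≠ 0 := by
    intro h
    obtain ⟨t, ht⟩ := hdvd
    apply hθb
    have := hψ b
    rw [ht, map_mul, h, zero_mul] at this
    exact this.symm
  obtain ⟨O, hO1, hO2⟩ := Ideal.image_subset_nonunits_valuationSubring
    ((RingHom.ker ε).map ψ.rangeRestrict) (by
      rw [Ideal.ne_top_iff_one, Ideal.mem_map_iff_of_surjective _ ψ.rangeRestrict_surjective]
      rintro ⟨r, hr, hr1⟩
      have h1 : ψ r = 1 := congrArg Subtype.val hr1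
      have h2 : ε (r - 1) = 0 := hPle (hker (r - 1) (by rw [map_sub, h1, map_one, sub_self]))
      rw [map_sub, (RingHom.mem_ker).mp hr, map_one, zero_sub, neg_eq_zero] at h2
      exact one_ne_zero h2)
  have key : ∀ r, ψ r - algebraMap Qb Om (ε r) ∈ O.nonunits := by
    intro r
    refine hO2 ⟨ψ.rangeRestrict (r - algebraMap Qb R (ε r)), Ideal.mem_map_of_mem _ (by
      simp [RingHom.mem_ker]), ?_⟩
    rw [← hc, ← map_sub]; rfl
  by_cases htop : O = ⊤
  · refine ⟨⟨ψ, hc⟩, sp0, hψH, fun r => ?_⟩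
    have h1 := (O.mem_nonunits_iff_or.mp (key r)).resolve_right fun h =>
      h (htop ▸ ValuationSubring.mem_top _)
    exact (Tends.const (ε r)).of_eq_left (sub_eq_zero.mp h1).symm
  · exact ⟨⟨ψ, hc⟩, ⟨O, fun c => hO1 ⟨algebraMap Qb R c, hc c⟩, htop⟩, hψH, fun r =>
      O.mem_nonunits_iff.mp (key r)⟩

open MvPolynomial in
theorem curve_selection' {ι : Type} [Finite ι] (𝔮 : Ideal (MvPolynomial ι Qb)) [𝔮.IsPrime]
    (ε : ι → Qb) (hε : ∀ F ∈ 𝔮, aeval ε F = 0) {H : MvPolynomial ι Qb} (hH : H ∉ 𝔮) :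
    ∃ (P : ι → Om) (sp : Sp), (∀ F ∈ 𝔮, aeval P F = 0) ∧ aeval P H ≠ 0 ∧
      ∀ i, Tends sp.v (P i) (ε i) := by
  obtain ⟨ψ, sp, h1, h2⟩ := curve_selection (Ideal.Quotient.liftₐ 𝔮 (aeval ε) hε)
    (H := Ideal.Quotient.mk 𝔮 H) (mt Ideal.Quotient.eq_zero_iff_mem.mp hH)
  have e : ∀ F, aeval (fun i => ψ (Ideal.Quotient.mk 𝔮 (X i))) F = ψ (Ideal.Quotient.mk 𝔮 F) :=
    fun F => DFunLike.congr_fun (show aeval (fun i => ψ (Ideal.Quotient.mk 𝔮 (X i)))
      = ψ.comp (Ideal.Quotient.mkₐ Qb 𝔮) from by ext i; simp) F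
  refine ⟨fun i => ψ (Ideal.Quotient.mk 𝔮 (X i)), sp, fun F hF => ?_, by rwa [e], fun i => ?_⟩
  · rw [e, Ideal.Quotient.eq_zero_iff_mem.mpr hF, map_zero]
  · simpa using h2 (Ideal.Quotient.mk 𝔮 (X i))

open MvPolynomial in
lemma exists_homog {σ τ : Type} (e : σ → τ) (k : τ) (F : MvPolynomial σ Qb) :
    ∃ (D : ℕ) (P : MvPolynomial τ Qb), P.IsHomogeneous D ∧
      ∀ (R : Type) [Field R] [Algebra Qb R] (v : τ → R), v k ≠ 0 →
        aeval v P = v k ^ D * aeval (fun i => v (e i) / v k) F := by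
  induction F using MvPolynomial.induction_on with
  | C c => exact ⟨0, C c, isHomogeneous_C _ _, fun R _ _ v _ => by simp⟩
  | add p q hp hq =>
    obtain ⟨D, P, h1, h2⟩ := hp
    obtain ⟨E, Q, h3, h4⟩ := hq
    refine ⟨D + E, P * X k ^ E + X k ^ D * Q, (h1.mul (by
      simpa using (isHomogeneous_X Qb k).pow E)).add (IsHomogeneous.mul (by
      simpa using (isHomogeneous_X Qb k).pow D) h3), fun R _ _ v hv => ?_⟩
    simp only [map_add, map_mul, map_pow, aeval_X, h2 R v hv, h4 R v hv]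
    ring
  | mul_X p i hp =>
    obtain ⟨D, P, h1, h2⟩ := hp
    refine ⟨D + 1, P * X (e i), h1.mul (isHomogeneous_X Qb _), fun R _ _ v hv => ?_⟩
    simp only [map_mul, aeval_X, h2 R v hv]
    field_simp
    ring

end

end Pool.Agent.P.MP_b8021b_nt
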