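import Mathlib

/-!
Zero-cycles modulo rational equivalence over a number field on a subvariety of projective space, and
the Catanese-Debarre equations for surfaces with `K² = 2`, `p_g = 1` and torsion `ℤ/2`.
-/

open scoped WithZero LinearAlgebra.Projectivization IntermediateField

namespace Pool.Agent.P.MP_b8021b_nt

noncomputable section


/-- `K` is the function field of an integral curve over `k`: a finite extension of `k(t)`. -/
def CurveField (k K : Type) [Field k] [Field K] [Algebra k K] : Prop :=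
  ∃ t : K, Transcendental k t ∧ FiniteDimensional k⟮t⟯ K

/-- A geometric point of the regular projective curve over `k` with function field `K`: a closed
point, that is a normalised discrete valuation `v` of `K` whose ring contains `k`, together with
a `k`-embedding of its residue field into the algebraic numbers, that is a ring homomorphism `ρ`
over `k` from the valuation ring whose kernel is the maximal ideal. -/
structure GeomPoint (k : IntermediateField ℚ (AlgebraicClosure ℚ)) (K : Type) [Field K] [Algebra k K] where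
  /-- the valuation -/
  v : Valuation K ℤᵐ⁰
  /-- evaluation of functions that are regular at the point -/
  ρ : v.valuationSubring →+* (AlgebraicClosure ℚ)
  surj : Function.Surjective v
  const : ∀ c : k, ∃ h : algebraMap k K c ∈ v.valuationSubring, ρ ⟨algebraMap k K c, h⟩ = c
  ker : ∀ a : v.valuationSubring, ρ a = 0 ↔ v a < 1

/-- The order of vanishing of `f` at the place `v` (Mathlib's valuations are multiplicative). -/
def ord {K : Type} [Field K] (v : Valuation K ℤᵐ⁰) (f : K) : ℤ := - WithZero.log (v f)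

/-- The morphism `(η₀ : … : ηₙ)` from the curve to `ℙⁿ` takes the value `x` at the point `p`. -/
def ValueAt {k : IntermediateField ℚ (AlgebraicClosure ℚ)} {K : Type} [Field K] [Algebra k K] {n : ℕ}
    (p : GeomPoint k K) (η : Fin (n + 1) → K) (x : ℙ (AlgebraicClosure ℚ) (Fin (n + 1) → (AlgebraicClosure ℚ))) : Prop :=
  ∃ (c : K) (h : ∀ i, c * η i ∈ p.v.valuationSubring)
    (h0 : (fun i => p.ρ ⟨c * η i, h i⟩) ≠ 0), x = Projectivization.mk (AlgebraicClosure ℚ) _ h0

/-- Zero-cycles on a variety `X ⊆ ℙⁿ` over `k` are the Galois invariant zero-cycles on its set of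
geometric points (a closed point is the sum of its conjugates). -/
def GaloisInvariant (k : IntermediateField ℚ (AlgebraicClosure ℚ)) {n : ℕ} {X : Set (ℙ (AlgebraicClosure ℚ) (Fin (n + 1) → (AlgebraicClosure ℚ)))}
    (D : X →₀ ℤ) : Prop :=
  ∀ (s : (AlgebraicClosure ℚ) ≃ₐ[k] (AlgebraicClosure ℚ)) (x y : X), (∃ a : (AlgebraicClosure ℚ), ∀ i, y.1.rep i = a * s (x.1.rep i)) → D x = D y

/-- The zero-cycles on `X ⊆ ℙⁿ` that are rationally equivalent to zero over `k`: the subgroup
generated by the push-forwards `φ_* div f`, where `φ = (η₀ : … : ηₙ) : C → X` is a morphism over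
`k` from a regular projective integral curve `C` over `k` with function field `K` and `f ∈ K` is
nonzero. -/
def ratTrivialOver (k : IntermediateField ℚ (AlgebraicClosure ℚ)) {n : ℕ} (X : Set (ℙ (AlgebraicClosure ℚ) (Fin (n + 1) → (AlgebraicClosure ℚ)))) :
    AddSubgroup (X →₀ ℤ) :=
  AddSubgroup.closure {D | ∃ (K : Type) (_ : Field K) (_ : Algebra k K), CurveField k K ∧
    ∃ (η : Fin (n + 1) → K) (φ : GeomPoint k K → X) (f : K) (S : Finset (GeomPoint k K)),
      (∀ p, ValueAt p η (φ p)) ∧ f ≠ 0 ∧ (∀ p, p ∉ S → ord p.v f = 0) ∧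
      D = ∑ p ∈ S, Finsupp.single (φ p) (ord p.v f)}

/-- The Zariski closure of a subset of `ℙⁿ`. -/
def zariskiClosure {n : ℕ} (Z : Set (ℙ (AlgebraicClosure ℚ) (Fin (n + 1) → (AlgebraicClosure ℚ)))) : Set (ℙ (AlgebraicClosure ℚ) (Fin (n + 1) → (AlgebraicClosure ℚ))) :=
  {x | ∀ (P : MvPolynomial (Fin (n + 1)) (AlgebraicClosure ℚ)) (d : ℕ), P.IsHomogeneous d →
    (∀ z ∈ Z, MvPolynomial.eval z.rep P = 0) → MvPolynomial.eval x.rep P = 0}

/-- Coefficients of a quartic form in `x₁, x₂, x₃` that is even in `x₂`. -/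
structure EvenQuartic where
  /-- coefficients of `x₁⁴, x₁³x₃, x₁²x₃², x₁x₃³, x₃⁴` -/
  a : Fin 5 → (AlgebraicClosure ℚ)
  /-- coefficients of `x₂²x₁², x₂²x₁x₃, x₂²x₃²` -/
  b : Fin 3 → (AlgebraicClosure ℚ)
  /-- coefficient of `x₂⁴` -/
  c : (AlgebraicClosure ℚ)

open MvPolynomial in
/-- The quartic form itself; the variables are `x₁, x₂, x₃, y₁, y₃ = X 0, …, X 4`. -/
def EvenQuartic.poly (f : EvenQuartic) : MvPolynomial (Fin 5) (AlgebraicClosure ℚ) :=
  C (f.a 0) * X 0 ^ 4 + C (f.a 1) * X 0 ^ 3 * X 2 + C (f.a 2) * X 0 ^ 2 * X 2 ^ 2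
    + C (f.a 3) * X 0 * X 2 ^ 3 + C (f.a 4) * X 2 ^ 4
    + X 1 ^ 2 * (C (f.b 0) * X 0 ^ 2 + C (f.b 1) * X 0 * X 2 + C (f.b 2) * X 2 ^ 2)
    + C f.c * X 1 ^ 4

open MvPolynomial in
/-- The first equation `y₁² + x₁x₂y₃ + f`. -/
def q₀ (f : EvenQuartic) : MvPolynomial (Fin 5) (AlgebraicClosure ℚ) := X 3 ^ 2 + X 0 * X 1 * X 4 + f.poly

open MvPolynomial in
/-- The second equation `y₃² + x₂x₃y₁ + g`. -/
def q₂ (g : EvenQuartic) : MvPolynomial (Fin 5) (AlgebraicClosure ℚ) := X 4 ^ 2 + X 1 * X 2 * X 3 + g.poly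

/-- The degree in `ℙ(1,1,1,2,2)` and the sign of the variables under the involution
`(x₁, x₂, x₃, y₁, y₃) ↦ (x₁, -x₂, x₃, -y₁, -y₃)`. -/
def wt : Fin 5 → ℕ × ZMod 2 := ![(1, 0), (1, 1), (1, 0), (2, 1), (2, 1)]

open Polynomial in
/-- The linear polynomial `r + s σ`, as a constant of `(AlgebraicClosure ℚ)[σ][t]`. -/
def mix (r s : (AlgebraicClosure ℚ)) : (AlgebraicClosure ℚ)[X][X] := C (C r + C s * X)

open Polynomial in
/-- At `(x₁, x₂, x₃) = (1, x, t)` and `u = x²`, four times the determinant of the conic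
`q₀ + σ q₂` in `(y₁, y₃)` is `4σ(f + σ g) - σ³ u t² - u = A u² + B u + C`.  This is `B² - 4AC`,
as a polynomial in `t` (outer variable `X`) with coefficients in `(AlgebraicClosure ℚ)[σ]` (`σ = C X`). -/
def pencilDisc (f g : EvenQuartic) : (AlgebraicClosure ℚ)[X][X] :=
  (4 * C X * (mix (f.b 0) (g.b 0) + mix (f.b 1) (g.b 1) * X + mix (f.b 2) (g.b 2) * X ^ 2)
      - 1 - C X ^ 3 * X ^ 2) ^ 2
    - 4 * (4 * C X * mix f.c g.c) * (4 * C X * (mix (f.a 0) (g.a 0) + mix (f.a 1) (g.a 1) * X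
      + mix (f.a 2) (g.a 2) * X ^ 2 + mix (f.a 3) (g.a 3) * X ^ 3 + mix (f.a 4) (g.a 4) * X ^ 4))

open Polynomial in
/-- The classical invariant `I` of a binary quartic. -/
def invI (D : (AlgebraicClosure ℚ)[X][X]) : (AlgebraicClosure ℚ)[X] :=
  12 * D.coeff 0 * D.coeff 4 - 3 * D.coeff 1 * D.coeff 3 + D.coeff 2 ^ 2

open Polynomial in
/-- The classical invariant `J` of a binary quartic; the discriminant is `(4I³ - J²)/27`. -/
def invJ (D : (AlgebraicClosure ℚ)[X][X]) : (AlgebraicClosure ℚ)[X] :=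
  72 * D.coeff 0 * D.coeff 2 * D.coeff 4 + 9 * D.coeff 1 * D.coeff 2 * D.coeff 3
    - 27 * D.coeff 0 * D.coeff 3 ^ 2 - 27 * D.coeff 1 ^ 2 * D.coeff 4 - 2 * D.coeff 2 ^ 3

/-- The image in `ℙⁿ` of the zero set of `q, q'` under the map given by the forms `N₀, …, Nₙ`
(outside their common zeros). -/
def imageOf {n : ℕ} (q q' : MvPolynomial (Fin 5) (AlgebraicClosure ℚ)) (N : Fin (n + 1) → MvPolynomial (Fin 5) (AlgebraicClosure ℚ)) :
    Set (ℙ (AlgebraicClosure ℚ) (Fin (n + 1) → (AlgebraicClosure ℚ))) :=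
  {z | ∃ p : Fin 5 → (AlgebraicClosure ℚ), MvPolynomial.eval p q = 0 ∧ MvPolynomial.eval p q' = 0 ∧
    ∃ h : (fun i => MvPolynomial.eval p (N i)) ≠ 0, z = Projectivization.mk (AlgebraicClosure ℚ) _ h}

end

end Pool.Agent.P.MP_b8021b_nt
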