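import Pool.Agent.P.MP_b8021b_nt.Cycle

/-! Places in a constant field extension. -/

open scoped WithZero IntermediateField Polynomial TensorProduct
open WithZero

set_option linter.unusedSectionVars false

namespace Pool.Agent.P.MP_b8021b_nt

noncomputable section

lemma IsPlace.triv {K' : Type} [Field K'] [Algebra Qb K'] {w : Valuation K' ℤᵐ⁰}
    (hw : IsPlace w) : w.IsTrivialOn Qb := ⟨hw.2⟩

variable {L K K' : Type} [Field L] [Field K] [Field K'] [Algebra L Qb] [Algebra L K]
  [Algebra Qb K'] [Algebra K K'] [Algebra L K'] [IsScalarTower L K K'] [IsScalarTower L Qb K']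
  [Algebra.IsAlgebraic L Qb] [CharZero L]

/-- a valuation of `K` with an `L`-embedding of its residue field and a uniformiser -/
structure Pt (L K : Type) [Field L] [Field K] [Algebra L Qb] [Algebra L K] where
  v : Valuation K ℤᵐ⁰
  ρ : v.valuationSubring →+* Qb
  mem : ∀ c : L, algebraMap L K c ∈ v.valuationSubring
  const : ∀ c : L, ρ ⟨algebraMap L K c, mem c⟩ = algebraMap L Qb c
  ker : ∀ a : v.valuationSubring, ρ a = 0 ↔ v a < 1
  π : K
  π0 : π ≠ 0
  π1 : v π < 1
  πmax : ∀ a, v a < 1 → v a ≤ v π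

/-- the place `w` of `K'` lies over the point -/
def Over (P : Pt L K) (w : Valuation K' ℤᵐ⁰) : Prop :=
  IsPlace w ∧ ∀ a : P.v.valuationSubring, Tends w (algebraMap K K' a) (P.ρ a)

/-- the compositum of the valuation ring and the constants -/
def Pt.R (P : Pt L K) (K' : Type) [Field K'] [Algebra Qb K'] [Algebra K K'] : Subalgebra Qb K' :=
  Algebra.adjoin Qb (Set.range fun a : P.v.valuationSubring => algebraMap K K' a)

lemma Pt.mem_R (P : Pt L K) {a : K} (ha : P.v a ≤ 1) : algebraMap K K' a ∈ P.R K' :=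
  Algebra.subset_adjoin ⟨⟨a, ha⟩, rfl⟩

lemma Pt.div_mem (P : Pt L K) {a : K} (ha : P.v a < 1) : P.v (a / P.π) ≤ 1 := by
  have h0 : 0 < P.v P.π := zero_lt_iff.mpr (by simpa using P.π0)
  rw [map_div₀, div_le_one₀ h0]
  exact P.πmax a ha

lemma Pt.aeval_mem (P : Pt L K) (a : P.v.valuationSubring) (q : L[X]) :
    ∃ y : P.v.valuationSubring, (y : K) = Polynomial.aeval (a : K) q ∧
      P.ρ y = Polynomial.aeval (P.ρ a) q := by
  induction q using Polynomial.induction_on with
  | C c => exact ⟨⟨_, P.mem c⟩, by simp, by simpa using P.const c⟩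
  | add p q hp hq =>
    obtain ⟨y1, h1, e1⟩ := hp
    obtain ⟨y2, h2, e2⟩ := hq
    exact ⟨y1 + y2, by simp [h1, h2], by simp [e1, e2]⟩
  | monomial n c h =>
    obtain ⟨y1, h1, e1⟩ := h
    refine ⟨y1 * a, ?_, ?_⟩
    · rw [pow_succ, ← mul_assoc, map_mul, Polynomial.aeval_X, ← h1]; rfl
    · rw [pow_succ, ← mul_assoc, map_mul, map_mul (Polynomial.aeval (P.ρ a)), Polynomial.aeval_X,
        ← e1]

lemma aeval_mem_subalg {S : Subalgebra Qb K'} {x : K'} (hx : x ∈ S) (q : Qb[X]) :
    Polynomial.aeval x q ∈ S :=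
  Algebra.adjoin_le (Set.singleton_subset_iff.mpr hx) (Polynomial.aeval_mem_adjoin_singleton Qb x)

/-- the local structure of `R` at the point -/
def Pt.Nice (P : Pt L K) (a : K') (c : Qb) : Prop :=
  ∃ b ∈ P.R K', ∃ a₁ ∈ P.R K', (∀ w : Valuation K' ℤᵐ⁰, Over P w → w b = 1) ∧
    (a - algebraMap Qb K' c) * b = algebraMap K K' P.π * a₁

lemma Pt.nice_gen (P : Pt L K) (a : P.v.valuationSubring) :
    P.Nice (algebraMap K K' a) (P.ρ a) := by
  have hint : IsIntegral L (P.ρ a) := (Algebra.IsAlgebraic.isAlgebraic _).isIntegral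
  set ν := minpoly L (P.ρ a) with hν
  have hsep : ν.Separable := (minpoly.irreducible hint).separable
  have hroot : (ν.map (algebraMap L Qb)).IsRoot (P.ρ a) := by
    rw [Polynomial.IsRoot, Polynomial.eval_map_algebraMap]
    exact minpoly.aeval L _
  obtain ⟨ν', hν'⟩ := Polynomial.dvd_iff_isRoot.mpr hroot
  have hne : ν'.eval (P.ρ a) ≠ 0 := by
    intro h0
    have h1 := (hsep.map (f := algebraMap L Qb)).aeval_derivative_ne_zero
      (x := P.ρ a) (by simpa using hroot)
    rw [hν'] at h1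
    simp [h0] at h1
  obtain ⟨y, hm, he⟩ := P.aeval_mem a ν
  have hlt : P.v (Polynomial.aeval (a : K) ν) < 1 :=
    hm ▸ (P.ker y).mp (he.trans (minpoly.aeval L _))
  refine ⟨Polynomial.aeval (algebraMap K K' a) ν', ?_,
    algebraMap K K' (Polynomial.aeval (a : K) ν / P.π), P.mem_R (P.div_mem hlt), ?_, ?_⟩
  · exact aeval_mem_subalg (P.mem_R a.2) _
  · intro w hw
    have := hw.1.triv
    exact ((hw.2 a).aeval ν').eq_one hne
  · have h1 : Polynomial.aeval (algebraMap K K' a) (ν.map (algebraMap L Qb)) =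
        algebraMap K K' (Polynomial.aeval (a : K) ν) := by
      rw [Polynomial.aeval_map_algebraMap, Polynomial.aeval_algebraMap_apply]
    rw [← map_mul, mul_div_cancel₀ _ P.π0, ← h1, hν']
    simp

lemma Pt.nice (P : Pt L K) {a : K'} (ha : a ∈ P.R K') : ∃ c, P.Nice a c := by
  induction ha using Algebra.adjoin_induction with
  | mem x hx =>
    obtain ⟨a, rfl⟩ := hx
    exact ⟨_, P.nice_gen a⟩
  | algebraMap c => exact ⟨c, 1, one_mem _, 0, zero_mem _, fun w _ => map_one w, by simp⟩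
  | add x y hx hy ihx ihy =>
    obtain ⟨c, b, hb, a₁, ha₁, h1, h2⟩ := ihx
    obtain ⟨c', b', hb', a₁', ha₁', h1', h2'⟩ := ihy
    refine ⟨c + c', b * b', mul_mem hb hb', a₁ * b' + a₁' * b,
      add_mem (mul_mem ha₁ hb') (mul_mem ha₁' hb), fun w hw => by
        rw [map_mul, h1 w hw, h1' w hw, mul_one], ?_⟩
    rw [map_add]
    linear_combination b' * h2 + b * h2'
  | mul x y hx hy ihx ihy =>
    obtain ⟨c, b, hb, a₁, ha₁, h1, h2⟩ := ihx
    obtain ⟨c', b', hb', a₁', ha₁', h1', h2'⟩ := ihy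
    refine ⟨c * c', b * b', mul_mem hb hb', algebraMap Qb K' c' * a₁ * b' + x * a₁' * b,
      add_mem (mul_mem (mul_mem (Subalgebra.algebraMap_mem _ _) ha₁) hb')
        (mul_mem (mul_mem hx ha₁') hb), fun w hw => by
        rw [map_mul, h1 w hw, h1' w hw, mul_one], ?_⟩
    rw [map_mul]
    linear_combination algebraMap Qb K' c' * b' * h2 + x * b * h2'

lemma Over.le_one {P : Pt L K} {w : Valuation K' ℤᵐ⁰} (hw : Over P w) {a : K'}
    (ha : a ∈ P.R K') : w a ≤ 1 := by
  have := hw.1.triv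
  induction ha using Algebra.adjoin_induction with
  | mem x hx =>
    obtain ⟨a, rfl⟩ := hx
    exact (hw.2 a).le_one
  | algebraMap c => exact hw.1.const_le_one c
  | add x y _ _ ihx ihy => exact w.map_add_le ihx ihy
  | mul x y _ _ ihx ihy => rw [map_mul]; exact mul_le_one' ihx ihy

lemma Over.π_lt {P : Pt L K} {w : Valuation K' ℤᵐ⁰} (hw : Over P w) :
    w (algebraMap K K' P.π) < 1 := by
  have := hw.1.triv
  have h := hw.2 ⟨P.π, P.π1.le⟩
  rw [(P.ker ⟨P.π, P.π1.le⟩).mpr P.π1] at h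
  exact Tends.zero_iff.mp h

lemma Pt.pow_of_mem (P : Pt L K) {w₀ : Valuation K' ℤᵐ⁰} (hw₀ : Over P w₀) (N : ℕ) :
    ∀ a ∈ P.R K', a ≠ 0 → exp (-(N : ℤ)) ≤ w₀ a →
      ∃ j : ℕ, ∀ w : Valuation K' ℤᵐ⁰, Over P w → w a = w (algebraMap K K' P.π) ^ j := by
  induction N with
  | zero =>
    intro a ha h0 hle
    obtain ⟨c, b, hb, a₁, ha₁, h1, h2⟩ := P.nice ha
    have key : ∀ w : Valuation K' ℤᵐ⁰, Over P w → Tends w a c := by
      intro w hw
      have := congrArg w h2
      rw [map_mul, map_mul, h1 w hw, mul_one] at this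
      rw [Tends, this]
      exact mul_lt_one_of_nonneg_of_lt_one_left zero_le hw.π_lt (hw.le_one ha₁)
    have hc : c ≠ 0 := by
      rintro rfl
      have := hw₀.1.triv
      have := Tends.zero_iff.mp (key w₀ hw₀)
      simp only [Nat.cast_zero, neg_zero, exp_zero] at hle
      exact absurd this (not_lt.mpr hle)
    refine ⟨0, fun w hw => ?_⟩
    have := hw.1.triv
    rw [pow_zero]
    exact (key w hw).eq_one hc
  | succ N ih =>
    intro a ha h0 hle
    obtain ⟨c, b, hb, a₁, ha₁, h1, h2⟩ := P.nice ha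
    by_cases hc : c = 0
    · subst hc
      rw [map_zero, sub_zero] at h2
      have key : ∀ w : Valuation K' ℤᵐ⁰, Over P w →
          w a = w (algebraMap K K' P.π) * w a₁ := by
        intro w hw
        have := congrArg w h2
        rwa [map_mul, map_mul, h1 w hw, mul_one] at this
      have ha0 : a₁ ≠ 0 := by
        rintro rfl
        have := key w₀ hw₀
        simp [h0] at this
      have hπ0 : w₀ (algebraMap K K' P.π) ≠ 0 := by simpa using P.π0
      have hw1 : w₀ a₁ ≠ 0 := by simpa using ha0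
      have hlt := hw₀.π_lt
      rw [key w₀ hw₀, ← exp_log hπ0, ← exp_log hw1, ← exp_add, exp_le_exp] at hle
      rw [← exp_log hπ0, ← exp_zero, exp_lt_exp] at hlt
      obtain ⟨j, hj⟩ := ih a₁ ha₁ ha0 (by
        rw [← exp_log hw1, exp_le_exp]; push_cast at hle; omega)
      exact ⟨j + 1, fun w hw => by rw [key w hw, hj w hw, pow_succ']⟩
    · refine ⟨0, fun w hw => ?_⟩
      have := hw.1.triv
      have h3 := congrArg w h2
      rw [map_mul, map_mul, h1 w hw, mul_one] at h3
      have h4 : Tends w a c := by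
        rw [Tends, h3]
        exact mul_lt_one_of_nonneg_of_lt_one_left zero_le hw.π_lt (hw.le_one ha₁)
      rw [pow_zero]
      exact h4.eq_one hc

lemma Pt.exists_pow_le (P : Pt L K) (a : K) : ∃ N : ℕ, P.v (a * P.π ^ N) ≤ 1 := by
  rcases eq_or_ne a 0 with rfl | h0
  · exact ⟨0, by simp⟩
  have ha : P.v a ≠ 0 := by simpa using h0
  have hπ : P.v P.π ≠ 0 := by simpa using P.π0
  have hlt := P.π1
  rw [← exp_log hπ, ← exp_zero, exp_lt_exp] at hlt
  refine ⟨(log (P.v a)).toNat, ?_⟩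
  rw [map_mul, map_pow, ← exp_log ha, ← exp_log hπ, ← exp_nsmul, ← exp_add, ← exp_zero, exp_le_exp,
    log_exp, nsmul_eq_mul]
  have := Int.self_le_toNat (log (P.v a))
  have h2 : (0 : ℤ) ≤ (log (P.v a)).toNat := Int.natCast_nonneg _
  nlinarith

lemma Pt.exists_pow_mem (P : Pt L K)
    (gen : ∀ x : K', x ∈ Submodule.span Qb (Set.range (algebraMap K K'))) (x : K') :
    ∃ N : ℕ, x * algebraMap K K' P.π ^ N ∈ P.R K' := by
  have hπ : algebraMap K K' P.π ∈ P.R K' := P.mem_R P.π1.le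
  induction gen x using Submodule.span_induction with
  | mem x hx =>
    obtain ⟨a, rfl⟩ := hx
    obtain ⟨N, hN⟩ := P.exists_pow_le a
    exact ⟨N, by simpa using P.mem_R (K' := K') hN⟩
  | zero => exact ⟨0, by simp⟩
  | add x y _ _ hx hy =>
    obtain ⟨N, hN⟩ := hx
    obtain ⟨M, hM⟩ := hy
    refine ⟨N + M, ?_⟩
    have := add_mem (mul_mem hN (pow_mem hπ M)) (mul_mem hM (pow_mem hπ N))
    convert this using 1
    ring
  | smul c x _ hx =>
    obtain ⟨N, hN⟩ := hx
    exact ⟨N, by rw [smul_mul_assoc]; exact Subalgebra.smul_mem _ hN c⟩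

lemma Pt.zpow (P : Pt L K)
    (gen : ∀ x : K', x ∈ Submodule.span Qb (Set.range (algebraMap K K')))
    {w₀ : Valuation K' ℤᵐ⁰} (hw₀ : Over P w₀) {x : K'} (hx : x ≠ 0) :
    ∃ j : ℤ, ∀ w : Valuation K' ℤᵐ⁰, Over P w → w x = w (algebraMap K K' P.π) ^ j := by
  obtain ⟨N, hN⟩ := P.exists_pow_mem gen x
  have hπ : algebraMap K K' P.π ≠ 0 := by simpa using P.π0
  have h0 : x * algebraMap K K' P.π ^ N ≠ 0 := mul_ne_zero hx (pow_ne_zero _ hπ)
  have h1 : w₀ (x * algebraMap K K' P.π ^ N) ≠ 0 := by simpa using h0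
  obtain ⟨j, hj⟩ := P.pow_of_mem hw₀ (-log (w₀ (x * algebraMap K K' P.π ^ N))).toNat _ hN h0 (by
    conv_rhs => rw [← exp_log h1]
    rw [exp_le_exp]
    have := Int.self_le_toNat (-log (w₀ (x * algebraMap K K' P.π ^ N)))
    omega)
  refine ⟨j - N, fun w hw => ?_⟩
  have h2 := hj w hw
  have h3 : w (algebraMap K K' P.π) ≠ 0 := by simpa using P.π0
  rw [map_mul, map_pow] at h2
  rw [zpow_sub₀ h3, zpow_natCast, zpow_natCast, eq_div_iff (pow_ne_zero _ h3), h2]

lemma Over.π_eq {P : Pt L K}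
    (gen : ∀ x : K', x ∈ Submodule.span Qb (Set.range (algebraMap K K')))
    {w : Valuation K' ℤᵐ⁰} (hw : Over P w) : w (algebraMap K K' P.π) = exp (-1) := by
  obtain ⟨x, hx⟩ := hw.1.1 (exp (-1))
  have hx0 : x ≠ 0 := by
    rintro rfl
    simp at hx
    exact exp_ne_zero hx.symm
  obtain ⟨j, hj⟩ := P.zpow gen hw hx0
  have h1 := hj w hw
  have h3 : w (algebraMap K K' P.π) ≠ 0 := by simpa using P.π0
  have hlt := hw.π_lt
  rw [← exp_log h3, ← exp_zero, exp_lt_exp] at hlt
  rw [hx, ← exp_log h3, ← exp_zsmul, exp_inj, smul_eq_mul] at h1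
  rw [← exp_log h3, exp_inj]
  have h4 : log (w (algebraMap K K' P.π)) * (-j) = 1 := by linarith
  rcases Int.eq_one_or_neg_one_of_mul_eq_one h4 with h | h
  · omega
  · exact h

lemma Over.unique {P : Pt L K}
    (gen : ∀ x : K', x ∈ Submodule.span Qb (Set.range (algebraMap K K')))
    {w w' : Valuation K' ℤᵐ⁰} (hw : Over P w) (hw' : Over P w') : w = w' := by
  ext x
  rcases eq_or_ne x 0 with rfl | hx
  · simp
  obtain ⟨j, hj⟩ := P.zpow gen hw hx
  rw [hj w hw, hj w' hw', hw.π_eq gen, hw'.π_eq gen]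

lemma Over.val_eq {P : Pt L K}
    (gen : ∀ x : K', x ∈ Submodule.span Qb (Set.range (algebraMap K K')))
    {w : Valuation K' ℤᵐ⁰} (hw : Over P w) (hπ : P.v P.π = exp (-1)) (a : K) :
    w (algebraMap K K' a) = P.v a := by
  rcases eq_or_ne a 0 with rfl | h0
  · simp
  have ha : P.v a ≠ 0 := by simpa using h0
  have h1 : P.v (a * P.π ^ log (P.v a)) = 1 := by
    rw [map_mul, map_zpow₀, hπ, ← exp_zsmul, ← exp_log ha, ← exp_add]
    simp
  have := hw.1.triv
  have h2 := (hw.2 ⟨_, h1.le⟩).eq_one (fun h => ((P.ker _).mp h).ne h1)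
  simp only [map_mul, map_zpow₀] at h2
  rw [hw.π_eq gen, ← exp_zsmul] at h2
  rw [eq_inv_of_mul_eq_one_left h2, ← exp_neg]
  simp [exp_log ha]

/-- existence of a place over a point -/
lemma Pt.exists_over (P : Pt L K) (hK : IsCurveField K')
    (dis : ∀ {ι : Type} (c : ι → Qb), LinearIndependent L c →
      LinearIndependent K fun i => algebraMap Qb K' (c i)) :
    ∃ w : Valuation K' ℤᵐ⁰, Over P w := by
  let _ : Algebra L P.v.valuationSubring :=
    ((algebraMap L K).codRestrict P.v.valuationSubring.toSubring P.mem).toAlgebra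
  let ι : P.v.valuationSubring →ₐ[L] K' :=
    { (algebraMap K K').comp P.v.valuationSubring.subtype with
      commutes' := fun c => (IsScalarTower.algebraMap_apply L K K' c).symm }
  let r : P.v.valuationSubring →ₐ[L] Qb := { P.ρ with commutes' := P.const }
  let ψ := Algebra.TensorProduct.productMap (IsScalarTower.toAlgHom L Qb K') ι
  let χ := Algebra.TensorProduct.productMap (AlgHom.id L Qb) r
  have hψ : Function.Injective ψ := by
    rw [injective_iff_map_eq_zero]
    intro x hx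
    let b := Module.Basis.ofVectorSpace L Qb
    obtain ⟨c, rfl⟩ := TensorProduct.eq_repr_basis_left b x
    have hli := dis b b.linearIndependent
    rw [linearIndependent_iff'] at hli
    have h0 : ∀ i ∈ c.support, ((c i : P.v.valuationSubring) : K) = 0 := by
      apply hli c.support (fun i => ((c i : P.v.valuationSubring) : K))
      rw [Finsupp.sum, map_sum] at hx
      rw [← hx]
      refine Finset.sum_congr rfl fun i _ => ?_
      rw [Algebra.smul_def, mul_comm]
      rfl
    refine Finset.sum_eq_zero fun i hi => ?_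
    have : c i = 0 := Subtype.ext (h0 i hi)
    simp [this]
  let A : Subring K' := ψ.toRingHom.range
  let e : (Qb ⊗[L] P.v.valuationSubring) ≃+* A :=
    RingEquiv.ofBijective ψ.toRingHom.rangeRestrict
      ⟨fun x y h => hψ (congrArg Subtype.val h), ψ.toRingHom.rangeRestrict_surjective⟩
  let I : Ideal A := RingHom.ker (χ.toRingHom.comp e.symm.toRingHom)
  obtain ⟨B, hAB, hIB⟩ := I.image_subset_nonunits_valuationSubring (RingHom.ker_ne_top _)
  have hkey : ∀ a : P.v.valuationSubring,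
      algebraMap K K' a - algebraMap Qb K' (P.ρ a) ∈ B.nonunits := by
    intro a
    refine hIB ⟨e (1 ⊗ₜ a - P.ρ a ⊗ₜ 1), ?_, ?_⟩
    · change χ (e.symm (e _)) = 0
      rw [e.symm_apply_apply]
      simp [χ, r]
    · change ψ (1 ⊗ₜ a - P.ρ a ⊗ₜ 1) = _
      simp [ψ, ι]
  have hB : B ≠ ⊤ := by
    intro h
    have h1 := hkey ⟨P.π, P.π1.le⟩
    rw [(P.ker ⟨P.π, P.π1.le⟩).mpr P.π1, map_zero, sub_zero, h] at h1
    have h2 := (ValuationSubring.mem_nonunits_iff_or _).mp h1
    rcases h2 with h2 | h2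
    · exact P.π0 (by simpa using h2)
    · exact h2 trivial
  obtain ⟨w, hw, hwB⟩ := hK.exists_place B (fun c => hAB ⟨c ⊗ₜ 1, by simp [ψ]⟩) hB
  refine ⟨w, hw, fun a => ?_⟩
  have h1 := hkey a
  rw [← hwB, ValuationSubring.mem_nonunits_iff] at h1
  exact (Valuation.isEquiv_valuation_valuationSubring w).lt_one_iff_lt_one.mpr h1

end

end Pool.Agent.P.MP_b8021b_nt
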