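import Pool.Agent.P.MP_b8021b_nt.Desc1

/-! Models of a function field over a number field. -/

open scoped WithZero IntermediateField Polynomial
open IntermediateField

set_option linter.unusedSectionVars false

namespace Pool.Agent.P.MP_b8021b_nt

noncomputable section

instance : Algebra.IsAlgebraic ℚ Qb := AlgebraicClosure.isAlgebraic ℚ

instance (k : IntermediateField ℚ Qb) : Algebra.IsAlgebraic k Qb :=
  Algebra.IsAlgebraic.tower_top (K := ℚ) k

instance (k : IntermediateField ℚ Qb) (L : IntermediateField k Qb) : Algebra.IsAlgebraic L Qb :=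
  Algebra.IsAlgebraic.tower_top (K := k) L

instance (k : IntermediateField ℚ Qb) : IsAlgClosure k Qb := ⟨inferInstance, inferInstance⟩

section abstract

variable {L K' : Type} [Field L] [Field K'] [Algebra L Qb] [Algebra Qb K'] [Algebra L K']
  [IsScalarTower L Qb K'] [Algebra.IsAlgebraic L Qb]

lemma dis_rat {t : K'} (ht : Transcendental Qb t) {ι : Type} {c : ι → Qb}
    (hc : LinearIndependent L c) (s : Finset ι) (y : ι → K') (hy : ∀ i, y i ∈ L⟮t⟯)
    (h : ∑ i ∈ s, y i * algebraMap Qb K' (c i) = 0) : ∀ i ∈ s, y i = 0 := by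
  classical
  have h1 : ∀ i, ∃ p q : L[X], Polynomial.aeval t q ≠ 0 ∧
      y i * Polynomial.aeval t q = Polynomial.aeval t p := by
    intro i
    obtain ⟨p, q, hpq⟩ := (mem_adjoin_simple_iff L (y i)).mp (hy i)
    by_cases hq : Polynomial.aeval t q = 0
    · exact ⟨0, 1, by simp, by simp [hpq, hq]⟩
    · exact ⟨p, q, hq, by rw [hpq, div_mul_cancel₀ _ hq]⟩
  choose p q hq hpq using h1
  let P : ι → L[X] := fun i => p i * ∏ j ∈ s.erase i, q j
  have hP : ∀ i ∈ s, y i * ∏ j ∈ s, Polynomial.aeval t (q j) = Polynomial.aeval t (P i) := by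
    intro i hi
    rw [← Finset.mul_prod_erase s _ hi, ← mul_assoc, hpq, map_mul, map_prod]
  have hQ : ∏ j ∈ s, Polynomial.aeval t (q j) ≠ 0 := Finset.prod_ne_zero_iff.mpr fun j _ => hq j
  have h2 : Polynomial.aeval t (∑ i ∈ s, (P i).map (algebraMap L Qb) * Polynomial.C (c i)) = 0 := by
    rw [map_sum, ← zero_mul (∏ j ∈ s, Polynomial.aeval t (q j)), ← h, Finset.sum_mul]
    refine Finset.sum_congr rfl fun i hi => ?_
    rw [map_mul, Polynomial.aeval_map_algebraMap, Polynomial.aeval_C, ← hP i hi]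
    ring
  have h3 := transcendental_iff.mp ht _ h2
  intro i hi
  have h4 : P i = 0 := by
    ext m
    refine linearIndependent_iff'.mp hc s (fun i => (P i).coeff m) ?_ i hi
    have := congrArg (fun r => r.coeff m) h3
    simp only [Polynomial.finsetSum_coeff, Polynomial.coeff_mul_C, Polynomial.coeff_map,
      Polynomial.coeff_zero] at this
    rw [← this]
    exact Finset.sum_congr rfl fun i _ => Algebra.smul_def _ _
  have h5 := hP i hi
  rw [h4, map_zero] at h5
  exact (mul_eq_zero.mp h5).resolve_right hQ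

lemma adjoin_sub (S : Set K') {x : K'} (hx : x ∈ adjoin L S) : x ∈ adjoin Qb S := by
  have : adjoin L S ≤ (adjoin Qb S).restrictScalars L :=
    adjoin_le_iff.mpr (subset_adjoin Qb S)
  exact this hx

lemma repr_pow {t θ : K'} (hint : IsIntegral Qb⟮t⟯ θ)
    (hco : ∀ m, (((minpoly Qb⟮t⟯ θ).coeff m : Qb⟮t⟯) : K') ∈ L⟮t⟯) {x : K'}
    (hx : x ∈ L⟮t, θ⟯) : ∃ y : ℕ → K', (∀ j, y j ∈ L⟮t⟯) ∧
      x = ∑ j ∈ Finset.range (minpoly Qb⟮t⟯ θ).natDegree, y j * θ ^ j := by
  have hl : (minpoly Qb⟮t⟯ θ).map (algebraMap Qb⟮t⟯ K') ∈ Polynomial.lifts (algebraMap L⟮t⟯ K') := by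
    rw [Polynomial.lifts_iff_coeff_lifts]
    intro m
    exact ⟨⟨_, hco m⟩, by rw [Polynomial.coeff_map]; rfl⟩
  obtain ⟨μ, h1, h2, h3⟩ := Polynomial.lifts_and_natDegree_eq_and_monic hl
    ((minpoly.monic hint).map _)
  rw [Polynomial.natDegree_map] at h2
  have h4 : Polynomial.aeval θ μ = 0 := by
    rw [← Polynomial.eval_map_algebraMap, h1, Polynomial.eval_map_algebraMap, minpoly.aeval]
  have hne : μ ≠ 1 := by
    rintro rfl
    simp at h4
  have halg : IsAlgebraic L⟮t⟯ θ := ⟨μ, h3.ne_zero, h4⟩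
  rw [← adjoin_simple_adjoin_simple] at hx
  have hx' : x ∈ (L⟮t⟯⟮θ⟯).toSubalgebra := hx
  rw [adjoin_simple_toSubalgebra_of_isAlgebraic halg, Algebra.adjoin_singleton_eq_range_aeval] at hx'
  obtain ⟨p, rfl⟩ := hx'
  refine ⟨fun j => ((p %ₘ μ).coeff j : K'), fun j => ((p %ₘ μ).coeff j).2, ?_⟩
  change Polynomial.aeval θ p = _
  rw [← Polynomial.aeval_modByMonic_eq_self_of_root h4,
    Polynomial.aeval_eq_sum_range' (h2 ▸ Polynomial.natDegree_modByMonic_lt p h3 hne)]
  rfl

lemma dis_model {t θ : K'} (ht : Transcendental Qb t) (hint : IsIntegral Qb⟮t⟯ θ)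
    (hco : ∀ m, (((minpoly Qb⟮t⟯ θ).coeff m : Qb⟮t⟯) : K') ∈ L⟮t⟯) {ι : Type} (c : ι → Qb)
    (hc : LinearIndependent L c) :
    LinearIndependent L⟮t, θ⟯ fun i => algebraMap Qb K' (c i) := by
  rw [linearIndependent_iff']
  intro s x hx i hi
  choose y hy hxy using fun i => repr_pow hint hco (x i).2
  have hz : ∀ j, ∑ i ∈ s, y i j * algebraMap Qb K' (c i) ∈ Qb⟮t⟯ := fun j =>
    sum_mem fun i _ => mul_mem (adjoin_sub _ (hy i j)) (IntermediateField.algebraMap_mem _ _)
  have hli := Fintype.linearIndependent_iff.mp (linearIndependent_pow (K := Qb⟮t⟯) θ)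
    (fun j => ⟨_, hz j⟩) (by
      rw [← hx, Fin.sum_univ_eq_sum_range (fun j => (⟨_, hz j⟩ : Qb⟮t⟯) • θ ^ j)]
      simp only [IntermediateField.smul_def, smul_eq_mul, Finset.sum_mul]
      rw [Finset.sum_comm]
      refine Finset.sum_congr rfl fun i _ => ?_
      rw [hxy i, Finset.sum_mul]
      exact Finset.sum_congr rfl fun j _ => by ring)
  apply Subtype.ext
  rw [hxy i]
  refine Finset.sum_eq_zero fun j hj => ?_
  have h0 := congrArg Subtype.val (hli ⟨j, Finset.mem_range.mp hj⟩)
  rw [dis_rat ht hc s (fun i => y i j) (fun i => hy i j) h0 i hi, zero_mul]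

lemma gen_model (S : Set K') (hS : adjoin Qb S = ⊤) (x : K') :
    x ∈ Submodule.span Qb (Set.range (algebraMap (adjoin L S) K')) := by
  have h1 : x ∈ adjoin (adjoin L S) (Set.range (algebraMap Qb K')) := by
    have hx : x ∈ adjoin Qb S := hS ▸ mem_top
    induction hx using adjoin_induction with
    | mem x hx => exact IntermediateField.algebraMap_mem _ (⟨x, subset_adjoin L S hx⟩ : adjoin L S)
    | algebraMap c => exact subset_adjoin _ _ ⟨c, rfl⟩
    | add x y _ _ hx hy => exact add_mem hx hy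
    | inv x _ hx => exact inv_mem hx
    | mul x y _ _ hx hy => exact mul_mem hx hy
  have h2 : x ∈ (adjoin (adjoin L S) (Set.range (algebraMap Qb K'))).toSubalgebra := h1
  rw [adjoin_toSubalgebra_of_isAlgebraic] at h2
  · have h3 : x ∈ Algebra.adjoin Qb (Set.range (algebraMap (adjoin L S) K')) := by
      clear h1
      induction h2 using Algebra.adjoin_induction with
      | mem x hx => obtain ⟨c, rfl⟩ := hx; exact Subalgebra.algebraMap_mem _ c
      | algebraMap c => exact Algebra.subset_adjoin ⟨c, rfl⟩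
      | add x y _ _ hx hy => exact add_mem hx hy
      | mul x y _ _ hx hy => exact mul_mem hx hy
    have h4 : x ∈ Subalgebra.toSubmodule
        (Algebra.adjoin Qb (Set.range (algebraMap (adjoin L S) K'))) := h3
    rw [Algebra.adjoin_eq_span] at h4
    refine Submodule.span_mono ?_ h4
    exact (Submonoid.closure_le (S := MonoidHom.mrange (algebraMap (adjoin L S) K'))).mpr le_rfl
  · rintro _ ⟨c, rfl⟩
    exact ((Algebra.IsAlgebraic.isAlgebraic (R := L) c).algebraMap).tower_top _

end abstract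

variable {k : IntermediateField ℚ Qb} {K' : Type} [Field K'] [Algebra Qb K']

lemma exists_def (S : Set K') {x : K'} (hx : x ∈ adjoin Qb S) :
    ∃ C : Finset Qb, ∀ L : IntermediateField k Qb, (∀ c ∈ C, c ∈ L) → x ∈ adjoin L S := by
  classical
  induction hx using adjoin_induction with
  | mem x hx => exact ⟨∅, fun L _ => subset_adjoin _ _ hx⟩
  | algebraMap c =>
    exact ⟨{c}, fun L hL => IntermediateField.algebraMap_mem (adjoin L S)
      (⟨c, hL c (Finset.mem_singleton_self c)⟩ : L)⟩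
  | add x y _ _ hx hy =>
    obtain ⟨C, hC⟩ := hx
    obtain ⟨D, hD⟩ := hy
    exact ⟨C ∪ D, fun L hL => add_mem (hC L fun c hc => hL c (Finset.mem_union_left _ hc))
      (hD L fun c hc => hL c (Finset.mem_union_right _ hc))⟩
  | inv x _ hx =>
    obtain ⟨C, hC⟩ := hx
    exact ⟨C, fun L hL => inv_mem (hC L hL)⟩
  | mul x y _ _ hx hy =>
    obtain ⟨C, hC⟩ := hx
    obtain ⟨D, hD⟩ := hy
    exact ⟨C ∪ D, fun L hL => mul_mem (hC L fun c hc => hL c (Finset.mem_union_left _ hc))
      (hD L fun c hc => hL c (Finset.mem_union_right _ hc))⟩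

lemma curveField_model (L : IntermediateField k Qb) [FiniteDimensional k L] {t θ : K'}
    (ht : Transcendental Qb t) [FiniteDimensional Qb⟮t⟯ K'] : CurveField k L⟮t, θ⟯ := by
  have : IsScalarTower k L⟮t, θ⟯ K' := IsScalarTower.of_algebraMap_eq fun _ => rfl
  let t' : L⟮t, θ⟯ := ⟨t, subset_adjoin _ _ (by simp)⟩
  have ht' : Transcendental k t' :=
    (transcendental_algebraMap_iff (algebraMap L⟮t, θ⟯ K').injective).mp
      (Transcendental.of_tower_top k ht)
  refine ⟨t', ht', ?_⟩
  have e1 : Algebra.EssFiniteType L L⟮t, θ⟯ :=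
    essFiniteType_iff.mpr (fg_adjoin_of_finite (Set.toFinite _))
  have e2 : Algebra.EssFiniteType k L⟮t, θ⟯ := Algebra.EssFiniteType.comp k L _
  have e3 : Algebra.EssFiniteType k⟮t'⟯ L⟮t, θ⟯ := Algebra.EssFiniteType.of_comp k _ _
  have e4 : Algebra.IsAlgebraic k⟮t'⟯ L⟮t, θ⟯ := by
    refine ⟨fun x => ?_⟩
    by_contra hx
    have h1 : Transcendental (Algebra.adjoin k (Set.range fun _ : Unit => t')) x := by
      rw [Set.range_const, ← transcendental_adjoin_iff]; exact hx
    have h2 := AlgebraicIndependent.option_iff.mpr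
      ⟨algebraicIndependent_unique_type_iff.mpr ht', h1⟩
    have h3 := (h2.map' (f := IsScalarTower.toAlgHom k L⟮t, θ⟯ K')
      (algebraMap L⟮t, θ⟯ K').injective).extendScalars Qb
    have h4 : AlgebraicIndependent Qb fun o : Option Unit => o.elim (x : K') fun _ => t := by
      convert h3 using 1
      ext o
      cases o <;> rfl
    have h5 := (AlgebraicIndependent.option_iff.mp h4).2
    rw [Set.range_const, ← transcendental_adjoin_iff] at h5
    exact h5 (Algebra.IsAlgebraic.isAlgebraic _)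
  exact Algebra.finite_of_essFiniteType_of_isAlgebraic

theorem exists_model (hK : IsCurveField K') (T : Finset K') :
    ∃ C : Finset Qb, ∀ (L : IntermediateField k Qb) [FiniteDimensional k L], (∀ c ∈ C, c ∈ L) →
      ∃ K : IntermediateField L K', CurveField k K ∧
        (∀ x : K', x ∈ Submodule.span Qb (Set.range (algebraMap K K'))) ∧
        (∀ {ι : Type} (c : ι → Qb), LinearIndependent L c →
          LinearIndependent K fun i => algebraMap Qb K' (c i)) ∧ ∀ a ∈ T, a ∈ K := by
  classical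
  obtain ⟨t, ht, hfin⟩ := hK
  have : CharZero K' := charZero_of_injective_algebraMap (algebraMap Qb K').injective
  obtain ⟨θ, hθ⟩ := Field.exists_primitive_element Qb⟮t⟯ K'
  have htop : adjoin Qb {t, θ} = ⊤ := by
    rw [← adjoin_simple_adjoin_simple, hθ]; rfl
  have hint : IsIntegral Qb⟮t⟯ θ := Algebra.IsIntegral.isIntegral θ
  choose C1 hC1 using fun a : K' => exists_def (k := k) {t, θ} (x := a) (htop ▸ mem_top)
  choose C2 hC2 using fun m : ℕ => exists_def (k := k) {t} ((minpoly Qb⟮t⟯ θ).coeff m).2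
  refine ⟨T.biUnion C1 ∪ (minpoly Qb⟮t⟯ θ).support.biUnion C2, fun L _ hL => ?_⟩
  have hco : ∀ m, (((minpoly Qb⟮t⟯ θ).coeff m : Qb⟮t⟯) : K') ∈ L⟮t⟯ := by
    intro m
    by_cases hm : m ∈ (minpoly Qb⟮t⟯ θ).support
    · exact hC2 m L fun c hc =>
        hL c (Finset.mem_union_right _ (Finset.mem_biUnion.mpr ⟨m, hm, hc⟩))
    · rw [Polynomial.notMem_support_iff.mp hm]; exact zero_mem _
  exact ⟨L⟮t, θ⟯, curveField_model L ht, gen_model _ htop, fun c hc => dis_model ht hint hco c hc,
    fun a ha => hC1 a L fun c hc =>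
      hL c (Finset.mem_union_left _ (Finset.mem_biUnion.mpr ⟨a, ha, hc⟩))⟩

end

end Pool.Agent.P.MP_b8021b_nt
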