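import Pool.Agent.P.MP_b8021b_nt.Ell1

/-! Rational curves on the Jacobian surface. -/

open scoped Polynomial

namespace Pool.Agent.P.MP_b8021b_nt

noncomputable section

namespace EllData

variable {M : Type} [AddCommGroup M] (E : EllData M)

/-- The class at one of the two residual points of the parabola. -/
def Λ (t0 s z X Y : Qb) : M :=
  E.Ψ s (t0 + ((E.at' (-s ^ 2)).shift t0).pT z X Y)
    (((E.at' (-s ^ 2)).shift t0).pp z X (((E.at' (-s ^ 2)).shift t0).pT z X Y))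

lemma Λ_neg_s (t0 s z X Y : Qb) : E.Λ t0 (-s) z X Y = -E.Λ t0 s z X Y := by
  unfold Λ; rw [E.neg, neg_sq]

lemma famΛ (t0 : Qb) (s z X Y : Om) (hz : z ^ 2 = (E.at' (-s ^ 2)).ev (algebraMap Qb Om t0))
    (hY : Y ^ 2 = ((E.at' (-s ^ 2)).shift (algebraMap Qb Om t0)).W X) :
    ∃ γ : Sp → M, IsFam γ ∧ ∀ (sp : Sp) (s0 z0 X0 Y0 : Qb), Tends sp.v s s0 → Tends sp.v z z0 →
      Tends sp.v X X0 → Tends sp.v Y Y0 → s0 ≠ 0 → -s0 ^ 2 ≠ E.σ1 → z0 ≠ 0 →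
      ((E.at' (-s0 ^ 2)).shift t0).q2 z0 X0 ≠ 0 →
      E.Gd (-s0 ^ 2) (t0 + ((E.at' (-s0 ^ 2)).shift t0).pT z0 X0 Y0) →
      γ sp = E.Λ t0 s0 z0 X0 Y0 := by
  set G := (E.at' (-s ^ 2)).shift (algebraMap Qb Om t0) with hG
  by_cases h : z ≠ 0 ∧ G.q2 z X ≠ 0
  · obtain ⟨γ, hγ, hv⟩ := E.fam' s (algebraMap Qb Om t0 + G.pT z X Y) (G.pp z X (G.pT z X Y))
      (by rw [G.on_curve h.1 hz h.2 hY, hG, Quart.shift_ev])
    refine ⟨γ, hγ, fun sp s0 z0 X0 Y0 ts tz tX tY h0 h1 h2 h3 h4 => ?_⟩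
    have tG := (E.tends_at (ts.pow 2).neg).shift (Tends.const t0)
    have tT := tG.pT tz h2 tX tY h3
    exact hv sp s0 _ _ ts ((Tends.const t0).add tT) (tG.pp tz h2 tX tT) h0 h1 h4
  · refine ⟨fun _ => 0, IsFam.zero, fun sp s0 z0 X0 Y0 ts tz tX tY h0 h1 h2 h3 h4 => ?_⟩
    have tG := (E.tends_at (ts.pow 2).neg).shift (Tends.const t0)
    exact absurd ⟨tz.ne_zero h2, (tG.q2 tz h2 tX).ne_zero h3⟩ h

lemma weier {R : Type} [Field R] [CharZero R] [Algebra Qb R] (s t ξ : R) :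
    ((E.at' (-s ^ 2)).shift t).W (s ^ 2 * (-s ^ 2 - algebraMap Qb R E.σ0) ^ 2 * ξ
        - ((E.at' (-s ^ 2)).shift t).e2 / 3)
      = (s ^ 3 * (-s ^ 2 - algebraMap Qb R E.σ0) ^ 3) ^ 2 * (ξ ^ 3
        + wa (algebraMap Qb R E.x) (algebraMap Qb R E.a1) (algebraMap Qb R E.a2) (algebraMap Qb R E.a3)
          (algebraMap Qb R E.a4) (-s ^ 2 - algebraMap Qb R E.σ1) * ξ
        + wb (algebraMap Qb R E.x) (algebraMap Qb R E.a1) (algebraMap Qb R E.a2) (algebraMap Qb R E.a3)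
          (algebraMap Qb R E.a4) (algebraMap Qb R E.B0) (algebraMap Qb R E.B1) (algebraMap Qb R E.B2)
          (algebraMap Qb R E.B3) (algebraMap Qb R E.B4) (-s ^ 2 - algebraMap Qb R E.σ1)) := by
  have h := ((E.at' (-s ^ 2)).shift t).W_eq (s ^ 2 * (-s ^ 2 - algebraMap Qb R E.σ0) ^ 2 * ξ
        - ((E.at' (-s ^ 2)).shift t).e2 / 3)
  rw [Quart.shift_I, Quart.shift_J, at_I, at_J] at h
  apply mul_left_cancel₀ (show (27 : R) ≠ 0 by norm_num)
  rw [h]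
  generalize -s ^ 2 - algebraMap Qb R E.σ0 = ρ
  generalize wa _ _ _ _ _ (-s ^ 2 - algebraMap Qb R E.σ1) = a
  generalize wb _ _ _ _ _ _ _ _ _ _ (-s ^ 2 - algebraMap Qb R E.σ1) = b
  ring

lemma weier_line {R : Type} [Field R] [CharZero R] [Algebra Qb R] (s t τ n0 n1 α β γ0 γ1 γ2 : R)
    (hτ : τ = -s ^ 2 - algebraMap Qb R E.σ1)
    (h0 : le0 (algebraMap Qb R E.x) (algebraMap Qb R E.a1) (algebraMap Qb R E.B0) n0 = β ^ 2 * γ0)
    (h1 : le1 (algebraMap Qb R E.x) (algebraMap Qb R E.a1) (algebraMap Qb R E.a2) (algebraMap Qb R E.B1)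
        n0 n1 = 2 * α * β * γ0 + β ^ 2 * γ1)
    (h2 : le2 (algebraMap Qb R E.x) (algebraMap Qb R E.a2) (algebraMap Qb R E.a3) (algebraMap Qb R E.B2)
        n0 n1 = α ^ 2 * γ0 + 2 * α * β * γ1 + β ^ 2 * γ2)
    (h3 : le3 (algebraMap Qb R E.a3) (algebraMap Qb R E.a4) (algebraMap Qb R E.B3) n0 n1
        = α ^ 2 * γ1 + 2 * α * β * γ2)
    (h4 : le4 (algebraMap Qb R E.a4) (algebraMap Qb R E.B4) n1 = α ^ 2 * γ2) :
    ((E.at' (-s ^ 2)).shift t).W (s ^ 2 * (-s ^ 2 - algebraMap Qb R E.σ0) ^ 2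
        * (algebraMap Qb R E.x + τ * (n0 + n1 * τ)) - ((E.at' (-s ^ 2)).shift t).e2 / 3)
      = (s ^ 3 * (-s ^ 2 - algebraMap Qb R E.σ0) ^ 3 * τ * (α * τ + β)) ^ 2
        * (γ0 + γ1 * τ + γ2 * τ ^ 2) := by
  rw [E.weier, ← hτ, cubic_on_line, h0, h1, h2, h3, h4]
  ring

variable [IsAddTorsionFree M]

lemma Λ_neg_z {t0 s z X Y : Qb} (hs : s ≠ 0) (h1 : -s ^ 2 ≠ E.σ1) (hz : z ≠ 0)
    (hzz : z ^ 2 = (E.at' (-s ^ 2)).ev t0) (h2 : ((E.at' (-s ^ 2)).shift t0).q2 z X ≠ 0)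
    (hY : Y ^ 2 = ((E.at' (-s ^ 2)).shift t0).W X)
    (hG : E.Gd (-s ^ 2) (t0 + ((E.at' (-s ^ 2)).shift t0).pT z X Y)) :
    E.Λ t0 s (-z) X (-Y) = -E.Λ t0 s z X Y := by
  unfold Λ
  rw [Quart.pT_neg, Quart.pp_neg, neg_neg]
  exact E.stepB hs h1 hG (by rw [Quart.on_curve _ hz hzz h2 hY, Quart.shift_ev])

/-- The two residual points have the same class when the point of the Jacobian lies on one of the
rational curves. -/
lemma stepD {t0 s z X Y : Qb} (hs : s ≠ 0) (h1 : -s ^ 2 ≠ E.σ1) (hz : z ≠ 0)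
    (hzz : z ^ 2 = (E.at' (-s ^ 2)).ev t0) (h2 : ((E.at' (-s ^ 2)).shift t0).q2 z X ≠ 0)
    (hY : Y ^ 2 = ((E.at' (-s ^ 2)).shift t0).W X)
    (hG : E.Gd (-s ^ 2) (t0 + ((E.at' (-s ^ 2)).shift t0).pT z X Y))
    (hG' : E.Gd (-s ^ 2) (t0 + ((E.at' (-s ^ 2)).shift t0).pT z X (-Y)))
    (τ n0 n1 α β γ0 γ1 γ2 : Qb) (hτ : τ = -s ^ 2 - E.σ1)
    (hX : X = s ^ 2 * (-s ^ 2 - E.σ0) ^ 2 * (E.x + τ * (n0 + n1 * τ))
      - ((E.at' (-s ^ 2)).shift t0).e2 / 3)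
    (c0 : le0 E.x E.a1 E.B0 n0 = β ^ 2 * γ0)
    (c1 : le1 E.x E.a1 E.a2 E.B1 n0 n1 = 2 * α * β * γ0 + β ^ 2 * γ1)
    (c2 : le2 E.x E.a2 E.a3 E.B2 n0 n1 = α ^ 2 * γ0 + 2 * α * β * γ1 + β ^ 2 * γ2)
    (c3 : le3 E.a3 E.a4 E.B3 n0 n1 = α ^ 2 * γ1 + 2 * α * β * γ2)
    (c4 : le4 E.a4 E.B4 n1 = α ^ 2 * γ2) (hd : γ1 ^ 2 - 4 * γ0 * γ2 ≠ 0) :
    E.Λ t0 s z X Y = E.Λ t0 s z X (-Y) := by
  by_cases hY0 : Y = 0
  · rw [hY0, neg_zero]
  have hW := E.weier_line s t0 τ n0 n1 α β γ0 γ1 γ2 hτ c0 c1 c2 c3 c4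
  simp only [Algebra.algebraMap_self, RingHom.id_apply] at hW
  rw [← hX, ← hY] at hW
  set F := s ^ 3 * (-s ^ 2 - E.σ0) ^ 3 * τ * (α * τ + β) with hF
  have hF0 : F ≠ 0 := by
    intro h0
    rw [h0] at hW
    exact hY0 (pow_eq_zero_iff two_ne_zero |>.mp (by rw [hW]; ring))
  obtain ⟨w0, hw0⟩ : ∃ w0, Y = F * w0 := ⟨Y / F, by field_simp⟩
  have hw00 : w0 ≠ 0 := by rintro rfl; exact hY0 (by rw [hw0, mul_zero])
  have hwg : w0 ^ 2 = γ0 + γ1 * τ + γ2 * τ ^ 2 := by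
    apply mul_left_cancel₀ (pow_ne_zero 2 hF0)
    rw [← hW, hw0]; ring
  obtain ⟨κ, hκ⟩ : ∃ κ, γ1 + 2 * γ2 * τ = 2 * w0 * κ := ⟨(γ1 + 2 * γ2 * τ) / (2 * w0), by field_simp⟩
  have he : γ2 - κ ^ 2 ≠ 0 := by
    intro h0
    apply hd
    linear_combination (-4 * w0 ^ 2) * h0 + 4 * γ2 * hwg + (γ1 + 2 * γ2 * τ + 2 * w0 * κ) * hκ
  -- the rational curve over `Om`
  set den : Om := algebraMap Qb Om (γ2 - κ ^ 2) - 2 * algebraMap Qb Om κ * lam - lam ^ 2 with hden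
  have hden0 : den ≠ 0 := by
    obtain ⟨sp, hsp⟩ := nonConst_lam.exists_sp 0
    exact (((Tends.const (γ2 - κ ^ 2)).sub (((Tends.ofNat 2).mul (Tends.const κ)).mul hsp)).sub
      (hsp.pow 2)).ne_zero (by simpa using he)
  set θ : Om := 2 * algebraMap Qb Om w0 * lam / den with hθ
  set w : Om := algebraMap Qb Om w0 + (algebraMap Qb Om κ + lam) * θ with hw
  set τ' : Om := algebraMap Qb Om τ + θ with hτ'
  have hww : w ^ 2 = algebraMap Qb Om γ0 + algebraMap Qb Om γ1 * τ' + algebraMap Qb Om γ2 * τ' ^ 2 := by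
    have e1 := congrArg (algebraMap Qb Om) hwg
    have e2 := congrArg (algebraMap Qb Om) hκ
    simp only [map_add, map_mul, map_pow, map_ofNat] at e1 e2
    have e3 : θ * den = 2 * algebraMap Qb Om w0 * lam := by rw [hθ]; field_simp
    rw [hden, map_sub, map_pow] at e3
    rw [hw, hτ']
    linear_combination e1 - θ * e2 - θ * e3
  obtain ⟨S, hS⟩ := exists_sqrt (-(τ' + algebraMap Qb Om E.σ1))
  have hτS : τ' = -S ^ 2 - algebraMap Qb Om E.σ1 := by rw [hS]; ring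
  obtain ⟨Z, hZ⟩ := exists_sqrt ((E.at' (-S ^ 2)).ev (algebraMap Qb Om t0))
  have hWO := E.weier_line S (algebraMap Qb Om t0) τ' (algebraMap Qb Om n0) (algebraMap Qb Om n1)
    (algebraMap Qb Om α) (algebraMap Qb Om β) (algebraMap Qb Om γ0) (algebraMap Qb Om γ1)
    (algebraMap Qb Om γ2) hτS
    (by simpa [le0, map_ofNat] using congrArg (algebraMap Qb Om) c0)
    (by simpa [le1, map_ofNat] using congrArg (algebraMap Qb Om) c1)
    (by simpa [le2, map_ofNat] using congrArg (algebraMap Qb Om) c2)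
    (by simpa [le3, map_ofNat] using congrArg (algebraMap Qb Om) c3)
    (by simpa [le4, map_ofNat] using congrArg (algebraMap Qb Om) c4)
  set XO : Om := S ^ 2 * (-S ^ 2 - algebraMap Qb Om E.σ0) ^ 2 * (algebraMap Qb Om E.x
    + τ' * (algebraMap Qb Om n0 + algebraMap Qb Om n1 * τ'))
    - ((E.at' (-S ^ 2)).shift (algebraMap Qb Om t0)).e2 / 3 with hXO
  set FO : Om := S ^ 3 * (-S ^ 2 - algebraMap Qb Om E.σ0) ^ 3 * τ'
    * (algebraMap Qb Om α * τ' + algebraMap Qb Om β) with hFO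
  obtain ⟨δ1, f1, g1⟩ := E.famΛ t0 S Z XO (FO * w) hZ (by rw [hWO, mul_pow, hww])
  obtain ⟨δ2, f2, g2⟩ := E.famΛ t0 S Z XO (-(FO * w)) hZ (by rw [hWO, neg_sq, mul_pow, hww])
  have hY' : (-Y) ^ 2 = ((E.at' (-s ^ 2)).shift t0).W X := by rw [neg_sq, hY]
  have n1' := E.Λ_neg_z hs h1 hz hzz h2 hY hG
  have n2' := E.Λ_neg_z hs h1 hz hzz h2 hY' hG'
  rw [neg_neg] at n2'
  have key0 : ∀ (sp : Sp) (s1 z1 Y1 : Qb), (s1 = s ∨ s1 = -s) → (z1 = z ∨ z1 = -z) →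
      (Y1 = Y ∨ Y1 = -Y) → Tends sp.v S s1 → Tends sp.v Z z1 → Tends sp.v XO X →
      Tends sp.v (FO * w) Y1 → δ1 sp - δ2 sp = E.Λ t0 s1 z1 X Y1 - E.Λ t0 s1 z1 X (-Y1) := by
    intro sp s1 z1 Y1 hs1 hz1 hY1 ts tz tX tY
    have e : s1 ^ 2 = s ^ 2 := by rcases hs1 with rfl | rfl <;> ring
    have a1 : s1 ≠ 0 := by rcases hs1 with rfl | rfl <;> simpa using hs
    have a2 : z1 ≠ 0 := by rcases hz1 with rfl | rfl <;> simpa using hz
    have a3 : ((E.at' (-s1 ^ 2)).shift t0).q2 z1 X ≠ 0 := by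
      rw [e]; rcases hz1 with rfl | rfl
      · exact h2
      · rw [Quart.q2_neg]; exact h2
    have a4 : ∀ Y2, (Y2 = Y ∨ Y2 = -Y) →
        E.Gd (-s1 ^ 2) (t0 + ((E.at' (-s1 ^ 2)).shift t0).pT z1 X Y2) := by
      intro Y2 hY2
      rw [e]
      rcases hz1 with rfl | rfl <;> rcases hY2 with rfl | rfl
      · exact hG
      · exact hG'
      · rw [Quart.pT_neg]; exact hG'
      · rw [Quart.pT_neg, neg_neg]; exact hG
    rw [g1 sp s1 z1 X Y1 ts tz tX tY a1 (by rw [e]; exact h1) a2 a3 (a4 _ hY1),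
      g2 sp s1 z1 X (-Y1) ts tz tX tY.neg a1 (by rw [e]; exact h1) a2 a3 (a4 _ (by
        rcases hY1 with rfl | rfl <;> simp))]
  have key : ∀ (sp : Sp) (ε : Qb), (ε = 1 ∨ ε = -1) → Tends sp.v θ 0 → Tends sp.v w (ε * w0) →
      δ1 sp - δ2 sp = E.Λ t0 s z X (ε * Y) - E.Λ t0 s z X (-(ε * Y)) := by
    intro sp ε hε tθ tw
    have tτ : Tends sp.v τ' τ := by simpa using (Tends.const τ).add tθ
    have tS2 : Tends sp.v (S ^ 2) (s ^ 2) := by
      rw [hS]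
      exact ((tτ.add (Tends.const E.σ1)).neg).of_eq_right (by rw [hτ]; ring)
    have tG := (E.tends_at tS2.neg).shift (Tends.const t0)
    have tZ2 : Tends sp.v (Z ^ 2) (z ^ 2) := by
      rw [hZ, hzz]; exact (E.tends_at tS2.neg).ev (Tends.const t0)
    have tρ := tS2.neg.sub (Tends.const E.σ0)
    have tX : Tends sp.v XO X := by
      rw [hX]
      exact ((tS2.mul (tρ.pow 2)).mul ((Tends.const E.x).add (tτ.mul ((Tends.const n0).add
        ((Tends.const n1).mul tτ))))).sub (tG.t2.div (Tends.ofNat 3) three_ne_zero)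
    have tF : ∀ s1, Tends sp.v S s1 → Tends sp.v (FO * w)
        (s1 ^ 3 * (-s ^ 2 - E.σ0) ^ 3 * τ * (α * τ + β) * (ε * w0)) := fun s1 ts =>
      ((((ts.pow 3).mul (tρ.pow 3)).mul tτ).mul (((Tends.const α).mul tτ).add
        (Tends.const β))).mul tw
    rcases sp.tends_sqrt tS2 with ts | ts <;> rcases sp.tends_sqrt tZ2 with tz | tz
    · exact key0 sp s z (ε * Y) (Or.inl rfl) (Or.inl rfl) (by rcases hε with rfl | rfl <;> simp)
        ts tz tX ((tF s ts).of_eq_right (by rw [hw0, hF]; ring))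
    · rw [key0 sp s (-z) (ε * Y) (Or.inl rfl) (Or.inr rfl) (by rcases hε with rfl | rfl <;> simp)
        ts tz tX ((tF s ts).of_eq_right (by rw [hw0, hF]; ring))]
      rcases hε with rfl | rfl <;> simp only [one_mul, neg_mul, neg_neg, n1', n2'] <;> abel
    · rw [key0 sp (-s) z (-(ε * Y)) (Or.inr rfl) (Or.inl rfl)
        (by rcases hε with rfl | rfl <;> simp) ts tz tX
        ((tF (-s) ts).of_eq_right (by rw [hw0, hF]; ring)), Λ_neg_s, Λ_neg_s, neg_neg]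
      abel
    · rw [key0 sp (-s) (-z) (-(ε * Y)) (Or.inr rfl) (Or.inr rfl)
        (by rcases hε with rfl | rfl <;> simp) ts tz tX
        ((tF (-s) ts).of_eq_right (by rw [hw0, hF]; ring)), Λ_neg_s, Λ_neg_s, neg_neg]
      rcases hε with rfl | rfl <;> simp only [one_mul, neg_mul, neg_neg, n1', n2']
  have h := (f1.sub f2).eq_of_lam (α := E.Λ t0 s z X (1 * Y) - E.Λ t0 s z X (-(1 * Y)))
    (β := E.Λ t0 s z X (-1 * Y) - E.Λ t0 s z X (-(-1 * Y))) (fun sp hl => by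
      have tθ : Tends sp.v θ 0 := by
        have := (((Tends.ofNat 2).mul (Tends.const w0)).mul hl).div
          (((Tends.const (γ2 - κ ^ 2)).sub (((Tends.ofNat 2).mul (Tends.const κ)).mul hl)).sub
            (hl.pow 2)) (by simpa using he)
        exact this.of_eq_right (by simp)
      exact key sp 1 (Or.inl rfl) tθ
        (((Tends.const w0).add (((Tends.const κ).add hl).mul tθ)).of_eq_right (by ring)))
    (fun sp hl => by
      have h0 := nonConst_lam.ne_zero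
      have tl : Tends sp.v (lam * θ) (-(2 * w0)) := by
        have := ((Tends.ofNat 2).mul (Tends.const w0)).div
          ((((Tends.const (γ2 - κ ^ 2)).mul (hl.pow 2)).sub
            (((Tends.ofNat 2).mul (Tends.const κ)).mul hl)).sub Tends.one) (by simp)
        refine (this.of_eq_right (by simp [div_neg])).of_eq_left ?_
        have e : algebraMap Qb Om (γ2 - κ ^ 2) * lam⁻¹ ^ 2 - 2 * algebraMap Qb Om κ * lam⁻¹ - 1
            = den / lam ^ 2 := by rw [hden]; field_simp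
        rw [e, hθ]; field_simp
      have tθ : Tends sp.v θ 0 :=
        ((hl.mul tl).of_eq_right (by ring)).of_eq_left (by field_simp)
      refine key sp (-1) (Or.inr rfl) tθ ?_
      exact ((((Tends.const w0).add ((Tends.const κ).mul tθ)).add tl).of_eq_right
        (by ring)).of_eq_left (by rw [hw]; ring))
  simp only [one_mul, neg_mul, neg_neg] at h
  exact sub_eq_zero.mp (eq_zero_of_eq_neg' (by rw [neg_sub]; exact h))

end EllData

end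

end Pool.Agent.P.MP_b8021b_nt
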