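import Pool.Agent.P.MP_b8021b_nt.Ell2

/-! Vanishing of the anti-invariant class function on good fibres. -/

open scoped Polynomial

namespace Pool.Agent.P.MP_b8021b_nt

noncomputable section

lemma Tends.ne_zero_of_inv {sp : Sp} {a : Om} {c : Qb} (h : Tends sp.v a c) (ha : a ≠ 0)
    (hi : sp.v a⁻¹ ≤ 1) : c ≠ 0 := by
  rintro rfl
  exact absurd ((Valuation.one_le_val_iff _ ha).mpr hi) (not_le.mpr (Tends.zero_iff.mp h))

lemma lam_quad {a b c : Qb}
    (h : algebraMap Qb Om a * lam ^ 2 + algebraMap Qb Om b * lam + algebraMap Qb Om c = 0) :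
    a = 0 ∧ b = 0 := by
  open Polynomial in
  have h0 : (C a * X ^ 2 + C b * X + C c : Qb[X]) = 0 := by
    by_contra hne
    exact nonConst_lam.aeval_ne_zero hne (by simpa using h)
  have h1 := congrArg (fun p => Polynomial.coeff p 1) h0
  have h2 := congrArg (fun p => Polynomial.coeff p 2) h0
  simp [Polynomial.coeff_C] at h1 h2
  exact ⟨h2, h1⟩

lemma IsFam.eq_of_list {M : Type*} [AddCommGroup M] {γ : Sp → M} (h : IsFam γ) (G : List Om)
    (β : M) (hβ : ∀ sp : Sp, (∀ g ∈ G, sp.v g ≤ 1) → γ sp = β) (sp0 : Sp) : γ sp0 = β := by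
  classical
  exact h.eq_of_finite G.toFinset β (fun sp hs => hβ sp fun g hg => hs g (List.mem_toFinset.mpr hg))
    sp0

namespace EllData

variable {M : Type} [AddCommGroup M] (E : EllData M) [IsAddTorsionFree M]

omit [IsAddTorsionFree M] in
lemma tends_fibre (sp : Sp) (s t0 : Qb) :
    TendsQ sp ((E.at' (-algebraMap Qb Om s ^ 2)).shift (algebraMap Qb Om t0))
      ((E.at' (-s ^ 2)).shift t0) :=
  (E.tends_at ((Tends.const s).pow 2).neg).shift (Tends.const t0)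

omit [IsAddTorsionFree M] in
lemma fibre_eq (s t0 : Qb) : (E.at' (-algebraMap Qb Om s ^ 2)).shift (algebraMap Qb Om t0) =
    ⟨algebraMap Qb Om ((E.at' (-s ^ 2)).shift t0).e0, algebraMap Qb Om ((E.at' (-s ^ 2)).shift t0).e1,
      algebraMap Qb Om ((E.at' (-s ^ 2)).shift t0).e2, algebraMap Qb Om ((E.at' (-s ^ 2)).shift t0).e3,
      algebraMap Qb Om ((E.at' (-s ^ 2)).shift t0).e4⟩ := by
  have e : ∀ p : Qb[X], Polynomial.aeval (-algebraMap Qb Om s ^ 2) p
      = algebraMap Qb Om (Polynomial.aeval (-s ^ 2) p) := by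
    intro p
    rw [← map_pow, ← map_neg, Polynomial.aeval_algebraMap_apply]
  simp only [Quart.shift, at', e, map_add, map_mul, map_pow, map_ofNat]

/-- The parabola function. -/
lemma stepC {t0 s z X Y : Qb} (hs : s ≠ 0) (h1 : -s ^ 2 ≠ E.σ1) (hz : z ≠ 0)
    (hzz : z ^ 2 = (E.at' (-s ^ 2)).ev t0) (h2 : ((E.at' (-s ^ 2)).shift t0).q2 z X ≠ 0)
    (h0 : ((E.at' (-s ^ 2)).shift t0).q0 z X ≠ 0)
    (hY : Y ^ 2 = ((E.at' (-s ^ 2)).shift t0).W X)
    (hG : E.Gd (-s ^ 2) (t0 + ((E.at' (-s ^ 2)).shift t0).pT z X Y))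
    (hG' : E.Gd (-s ^ 2) (t0 + ((E.at' (-s ^ 2)).shift t0).pT z X (-Y)))
    (hG0 : E.Gd (-s ^ 2) t0) (hΛ : E.Λ t0 s z X Y = E.Λ t0 s z X (-Y)) :
    E.Λ t0 s z X Y = E.Ψ s t0 (-z) := by
  have tG := fun sp => E.tends_fibre sp s t0
  have hGe := E.fibre_eq s t0
  set g := (E.at' (-s ^ 2)).shift t0 with hg
  set G := (E.at' (-algebraMap Qb Om s ^ 2)).shift (algebraMap Qb Om t0) with hGdef
  have hl0 := nonConst_lam.ne_zero
  obtain ⟨Z, hZ, sp0, tl0, tZ0⟩ : ∃ Z : Om, Z ^ 2 = G.ev lam ∧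
      ∃ sp : Sp, Tends sp.v lam 0 ∧ Tends sp.v Z (-z) := by
    obtain ⟨Z, hZ⟩ := exists_sqrt (G.ev lam)
    obtain ⟨sp, hsp⟩ := nonConst_lam.exists_sp 0
    have : Tends sp.v (Z ^ 2) (z ^ 2) := by
      rw [hZ, hzz]; exact ((tG sp).ev hsp).of_eq_right (by rw [hg, Quart.shift_ev, add_zero])
    rcases sp.tends_sqrt this with h | h
    · exact ⟨-Z, by rw [neg_sq, hZ], sp, hsp, h.neg⟩
    · exact ⟨Z, hZ, sp, hsp, h⟩
  obtain ⟨γ, hγ, hv⟩ := E.fam' (algebraMap Qb Om s) (algebraMap Qb Om t0 + lam) Z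
    (by rw [hZ, hGdef, Quart.shift_ev])
  have hzO : algebraMap Qb Om z ≠ 0 := by simpa using hz
  have hzzO : algebraMap Qb Om z ^ 2 = G.e0 := by rw [hGe, ← map_pow, hzz]; rfl
  set P := G.pp (algebraMap Qb Om z) (algebraMap Qb Om X) lam with hP
  have hid := G.ev_sub_pp hzO hzzO (algebraMap Qb Om X) lam
  rw [← hZ, ← hP] at hid
  have tP : ∀ (sp : Sp) (T : Qb), Tends sp.v lam T → Tends sp.v P (g.pp z X T) := fun sp T h =>
    (tG sp).pp (Tends.const z) hz (Tends.const X) h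
  have pp0 : g.pp z X 0 = z := by simp [Quart.pp]
  have hpole : ∀ sp : Sp, Tends sp.v lam 0 → Tends sp.v Z (-z) → 1 < sp.v ((Z - P) / lam ^ 2) := by
    intro sp tl tZ
    have hne : -z - g.pp z X 0 ≠ 0 := by
      rw [pp0]; intro h; exact hz (by linear_combination (-1 / 2 : Qb) * h)
    have t1 := tZ.sub (tP sp 0 tl)
    have t2 := ((tl.pow 2).div t1 hne).of_eq_right (show _ = 0 by simp)
    rw [Valuation.one_lt_val_iff _ (div_ne_zero (t1.ne_zero hne) (pow_ne_zero 2 hl0)), inv_div]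
    exact Tends.zero_iff.mp t2
  have hnc : NonConst ((Z - P) / lam ^ 2) := by
    intro c hc
    have := hpole sp0 tl0 tZ0
    rw [hc] at this
    exact absurd this (not_lt.mpr (Tends.const c).le_one)
  have key : ∀ sp : Sp, (sp.v ((Z - P) / lam ^ 2) < 1 → γ sp = E.Λ t0 s z X Y) ∧
      (1 < sp.v ((Z - P) / lam ^ 2) → γ sp = E.Ψ s t0 (-z)) := by
    intro sp
    have unit : ∀ c : Qb, c ≠ 0 → Tends sp.v ((Z - P) / lam ^ 2) c →
        (sp.v ((Z - P) / lam ^ 2) < 1 → γ sp = E.Λ t0 s z X Y) ∧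
        (1 < sp.v ((Z - P) / lam ^ 2) → γ sp = E.Ψ s t0 (-z)) := fun c hc h =>
      ⟨fun h' => absurd (h.eq_one hc) h'.ne, fun h' => absurd (h.eq_one hc) h'.ne'⟩
    have tq0 := (tG sp).q0 (Tends.const z) hz (Tends.const X)
    have tq1 := (tG sp).q1 (Tends.const z) hz (Tends.const X)
    have tq2 := (tG sp).q2 (Tends.const z) hz (Tends.const X)
    rcases le_or_gt (sp.v lam) 1 with hle | hgt
    · obtain ⟨T, tl⟩ := sp.exists_tends hle
      obtain ⟨z1, tZ, hz1⟩ := sp.exists_tends_sqrt (z := Z) (by rw [hZ]; exact (tG sp).ev tl)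
      by_cases hT : T = 0
      · subst hT
        have e : z1 ^ 2 = z ^ 2 := by rw [hz1, hzz, hg, Quart.shift_ev, add_zero]
        rcases sq_eq_sq_iff_eq_or_eq_neg.mp e with rfl | rfl
        · have hne : z1 + g.pp z1 X 0 ≠ 0 := by
            rw [pp0]; intro h; exact hz (by linear_combination (1 / 2 : Qb) * h)
          have t1 := tZ.add (tP sp 0 tl)
          have t2 := ((tq0.add (tq1.mul tl)).add (tq2.mul (tl.pow 2))).div t1 hne
          refine unit _ (div_ne_zero (by simpa using h0) hne) (t2.of_eq_left ?_)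
          have := t1.ne_zero hne
          field_simp
          linear_combination -hid
        · refine ⟨fun h => absurd h (not_lt.mpr (hpole sp tl tZ).le), fun _ => ?_⟩
          exact hv sp s t0 _ (Tends.const s) (by simpa using (Tends.const t0).add tl) tZ hs h1 hG0
      · have tf := (tZ.sub (tP sp T tl)).div (tl.pow 2) (pow_ne_zero 2 hT)
        refine ⟨fun h => ?_, fun h => absurd h (not_lt.mpr tf.le_one)⟩
        have e1 : z1 = g.pp z X T := by
          have := tf.unique (Tends.zero_iff.mpr h)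
          rw [div_eq_zero_iff] at this
          exact sub_eq_zero.mp (this.resolve_right (pow_ne_zero 2 hT))
        have e2 := g.ev_sub_pp hz hzz X T
        rw [g.quad_eq hz hzz h2 hY, ← hz1, e1, sub_self] at e2
        have e3 : T = g.pT z X Y ∨ T = g.pT z X (-Y) := by
          simpa [hT, h2, sub_eq_zero] using e2
        subst e1
        rcases e3 with rfl | rfl
        · exact hv sp s _ _ (Tends.const s) ((Tends.const t0).add tl) tZ hs h1 hG
        · rw [hΛ]; exact hv sp s _ _ (Tends.const s) ((Tends.const t0).add tl) tZ hs h1 hG'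
    · have tm : Tends sp.v lam⁻¹ 0 := Tends.zero_iff.mpr ((Valuation.one_lt_val_iff _ hl0).mp hgt)
      obtain ⟨⟨a0, a1, a2, a3, a4⟩⟩ : Nonempty (TendsQ sp G g) := ⟨tG sp⟩
      obtain ⟨u, tU, hu⟩ := sp.exists_tends_sqrt (z := Z * lam⁻¹ ^ 2) (c := g.e4) (by
        have : Tends sp.v (G.e0 * lam⁻¹ ^ 4 + G.e1 * lam⁻¹ ^ 3 + G.e2 * lam⁻¹ ^ 2 + G.e3 * lam⁻¹
            + G.e4) (g.e0 * 0 ^ 4 + g.e1 * 0 ^ 3 + g.e2 * 0 ^ 2 + g.e3 * 0 + g.e4) := by
          apply_rules (transparency := .reducible) [Tends.add, Tends.mul, Tends.pow]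
        refine (this.of_eq_right (by ring)).of_eq_left ?_
        rw [mul_pow, hZ, Quart.ev]; field_simp)
      have t1 := tU.sub ((((Tends.const z).mul (tm.pow 2)).add ((a1.div
        ((Tends.ofNat 2).mul (Tends.const z)) (mul_ne_zero two_ne_zero hz)).mul tm)).add
        (TendsQ.pm (Tends.const z) hz (Tends.const X)))
      refine unit (u - Quart.pm z X) (fun h => h2 ?_) ((t1.of_eq_right (by ring)).of_eq_left ?_)
      · rw [Quart.q2, ← hu, sub_eq_zero.mp h, sub_self]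
      · rw [hP, Quart.pp]; field_simp
  exact hγ.eq_of_zeros_poles hnc (fun sp => (key sp).1) fun sp => (key sp).2

/-- The class function vanishes on a good fibre. -/
theorem vanish {t0 s z : Qb} (hs : s ≠ 0) (h1 : -s ^ 2 ≠ E.σ1) (h0 : -s ^ 2 ≠ E.σ0)
    (hdisc : 4 * (E.at' (-s ^ 2)).I ^ 3 - (E.at' (-s ^ 2)).J ^ 2 ≠ 0) (ρ : Qb[X]) (hρ : ρ ≠ 0)
    (hρG : ∀ t, ρ.eval t ≠ 0 → E.Gd (-s ^ 2) t) (hz : z ≠ 0)
    (hzz : z ^ 2 = (E.at' (-s ^ 2)).ev t0) (hG0 : E.Gd (-s ^ 2) t0) : E.Ψ s t0 z = 0 := by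
  have tG := fun sp => E.tends_fibre sp s t0
  have hGe := E.fibre_eq s t0
  set g := (E.at' (-s ^ 2)).shift t0 with hg
  set G := (E.at' (-algebraMap Qb Om s ^ 2)).shift (algebraMap Qb Om t0) with hGdef
  have hzO : algebraMap Qb Om z ≠ 0 := by simpa using hz
  have hzzO : algebraMap Qb Om z ^ 2 = G.e0 := by rw [hGe, ← map_pow, hzz]; rfl
  obtain ⟨Y, hY⟩ := exists_sqrt (G.W lam)
  have hY' : (-Y) ^ 2 = G.W lam := by rw [neg_sq, hY]
  have hquad : ∀ c : Qb, G.q0 (algebraMap Qb Om z) lam + G.q1 (algebraMap Qb Om z) lam * algebraMap Qb Om c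
      + G.q2 (algebraMap Qb Om z) lam * algebraMap Qb Om c ^ 2 ≠ 0 := by
    intro c hc
    obtain ⟨k1, k2⟩ := lam_quad (a := -(c / (2 * z)) ^ 2) (b := 1 + g.e1 * c / (2 * z ^ 2))
      (c := g.e2 - (g.e1 / (2 * z)) ^ 2 + g.e3 * c + g.e4 * c ^ 2) (by
        rw [← hc, hGe]
        simp only [Quart.q0, Quart.q1, Quart.q2, Quart.pm, map_add, map_sub, map_mul, map_pow,
          map_neg, map_div₀, map_one, map_ofNat]
        field_simp
        ring)
    have : c = 0 := by simpa [hz] using k1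
    subst this
    simp at k2
  have hq0 : G.q0 (algebraMap Qb Om z) lam ≠ 0 := by simpa using hquad 0
  have hq2 : G.q2 (algebraMap Qb Om z) lam ≠ 0 := by
    intro h
    obtain ⟨k1, -⟩ := lam_quad (a := -(1 / (2 * z)) ^ 2) (b := 0) (c := g.e4) (by
      rw [← h, hGe]
      simp only [Quart.q2, Quart.pm, map_mul, map_pow, map_neg, map_div₀, map_one, map_ofNat,
        map_zero]
      field_simp
      ring)
    simp [hz] at k1
  have hT : ∀ Y', Y' ^ 2 = G.W lam →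
      NonConst (algebraMap Qb Om t0 + G.pT (algebraMap Qb Om z) lam Y') := by
    intro Y' hY' c hc
    apply hquad (c - t0)
    rw [G.quad_eq hzO hzzO hq2 hY', map_sub, ← hc]
    ring
  set τ := -s ^ 2 - E.σ1 with hτ
  set r := -s ^ 2 - E.σ0 with hr
  have hτ0 : τ ≠ 0 := sub_ne_zero.mpr h1
  have hr0 : r ≠ 0 := sub_ne_zero.mpr h0
  have hd2 : 4 * wa E.x E.a1 E.a2 E.a3 E.a4 τ ^ 3
      + 27 * wb E.x E.a1 E.a2 E.a3 E.a4 E.B0 E.B1 E.B2 E.B3 E.B4 τ ^ 2 ≠ 0 := by
    intro h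
    apply hdisc
    rw [at_I, at_J]
    simp only [Algebra.algebraMap_self, RingHom.id_apply]
    rw [← hτ, ← hr]
    linear_combination (-27 * s ^ 12 * r ^ 12) * h
  obtain ⟨n0, n1, α, β, γ0, γ1, γ2, hn, c0, c1, c2, c3, c4, hd⟩ := exists_conic E.x E.a1 E.a2 E.a3
    E.a4 E.B0 E.B1 E.B2 E.B3 E.B4 τ E.hδ hd2
    (algebraMap Qb Om (1 / (s ^ 2 * r ^ 2 * τ)) * lam
      + algebraMap Qb Om ((g.e2 / 3 / (s ^ 2 * r ^ 2) - E.x) / τ)) (by
      intro c hc
      obtain ⟨-, k⟩ := lam_quad (a := 0) (b := 1 / (s ^ 2 * r ^ 2 * τ))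
        (c := (g.e2 / 3 / (s ^ 2 * r ^ 2) - E.x) / τ - c) (by rw [map_sub, ← hc]; simp)
      simp [hs, hr0, hτ0] at k)
  set L : List Om := [lam, n0, n1, α, β, γ0, γ1, γ2, (γ1 ^ 2 - 4 * γ0 * γ2)⁻¹,
      (G.q0 (algebraMap Qb Om z) lam)⁻¹, (G.q2 (algebraMap Qb Om z) lam)⁻¹,
      (Polynomial.aeval (algebraMap Qb Om t0 + G.pT (algebraMap Qb Om z) lam Y) ρ)⁻¹,
      (Polynomial.aeval (algebraMap Qb Om t0 + G.pT (algebraMap Qb Om z) lam (-Y)) ρ)⁻¹] with hL
  have good : ∀ sp : Sp, (∀ a ∈ L, sp.v a ≤ 1) → ∃ X0 Y0 : Qb, Tends sp.v lam X0 ∧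
      Tends sp.v Y Y0 ∧ g.q2 z X0 ≠ 0 ∧ E.Gd (-s ^ 2) (t0 + g.pT z X0 Y0) ∧
      E.Gd (-s ^ 2) (t0 + g.pT z X0 (-Y0)) ∧
      E.Λ t0 s z X0 Y0 = E.Ψ s t0 (-z) ∧ E.Λ t0 s z X0 (-Y0) = E.Ψ s t0 (-z) := by
    intro sp hsp
    simp only [hL, List.forall_mem_cons] at hsp
    obtain ⟨v1, v2, v3, v4, v5, v6, v7, v8, v9, v10, v11, v12, v13, -⟩ := hsp
    obtain ⟨X0, tX⟩ := sp.exists_tends v1
    obtain ⟨m0, tn0⟩ := sp.exists_tends v2
    obtain ⟨m1, tn1⟩ := sp.exists_tends v3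
    obtain ⟨α', tα⟩ := sp.exists_tends v4
    obtain ⟨β', tβ⟩ := sp.exists_tends v5
    obtain ⟨δ0, tγ0⟩ := sp.exists_tends v6
    obtain ⟨δ1, tγ1⟩ := sp.exists_tends v7
    obtain ⟨δ2, tγ2⟩ := sp.exists_tends v8
    obtain ⟨Y0, tY, hY0⟩ := sp.exists_tends_sqrt (z := Y) (by rw [hY]; exact (tG sp).W tX)
    have k0 := ((tG sp).q0 (Tends.const z) hz tX).ne_zero_of_inv hq0 v10
    have k2 := ((tG sp).q2 (Tends.const z) hz tX).ne_zero_of_inv hq2 v11
    have kd := ((tγ1.pow 2).sub (((Tends.ofNat 4).mul tγ0).mul tγ2)).ne_zero_of_inv hd v9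
    have g1 := hρG _ ((((Tends.const t0).add ((tG sp).pT (Tends.const z) hz tX tY k2)).aeval
      ρ).ne_zero_of_inv ((hT Y hY).aeval_ne_zero hρ) v12)
    have g2 := hρG _ ((((Tends.const t0).add ((tG sp).pT (Tends.const z) hz tX tY.neg k2)).aeval
      ρ).ne_zero_of_inv ((hT (-Y) hY').aeval_ne_zero hρ) v13)
    have cx := Tends.const (v := sp.v) E.x
    have ca1 := Tends.const (v := sp.v) E.a1
    have ca2 := Tends.const (v := sp.v) E.a2
    have ca3 := Tends.const (v := sp.v) E.a3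
    have ca4 := Tends.const (v := sp.v) E.a4
    have cB0 := Tends.const (v := sp.v) E.B0
    have cB1 := Tends.const (v := sp.v) E.B1
    have cB2 := Tends.const (v := sp.v) E.B2
    have cB3 := Tends.const (v := sp.v) E.B3
    have cB4 := Tends.const (v := sp.v) E.B4
    have hn' := (tn0.add (tn1.mul (Tends.const τ))).eq_of_eq
      (((Tends.const _).mul tX).add (Tends.const _)) hn
    have t0' : Tends sp.v (le0 (algebraMap Qb Om E.x) (algebraMap Qb Om E.a1) (algebraMap Qb Om E.B0) n0)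
        (le0 E.x E.a1 E.B0 m0) := by
      unfold le0
      apply_rules (transparency := .reducible) [Tends.add, Tends.mul, Tends.pow, Tends.ofNat]
    have t1' : Tends sp.v (le1 (algebraMap Qb Om E.x) (algebraMap Qb Om E.a1) (algebraMap Qb Om E.a2)
        (algebraMap Qb Om E.B1) n0 n1) (le1 E.x E.a1 E.a2 E.B1 m0 m1) := by
      unfold le1
      apply_rules (transparency := .reducible) [Tends.add, Tends.mul, Tends.pow, Tends.ofNat]
    have t2' : Tends sp.v (le2 (algebraMap Qb Om E.x) (algebraMap Qb Om E.a2) (algebraMap Qb Om E.a3)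
        (algebraMap Qb Om E.B2) n0 n1) (le2 E.x E.a2 E.a3 E.B2 m0 m1) := by
      unfold le2
      apply_rules (transparency := .reducible) [Tends.add, Tends.mul, Tends.pow, Tends.ofNat]
    have t3' : Tends sp.v (le3 (algebraMap Qb Om E.a3) (algebraMap Qb Om E.a4) (algebraMap Qb Om E.B3)
        n0 n1) (le3 E.a3 E.a4 E.B3 m0 m1) := by
      unfold le3
      apply_rules (transparency := .reducible) [Tends.add, Tends.mul, Tends.pow, Tends.ofNat]
    have t4' : Tends sp.v (le4 (algebraMap Qb Om E.a4) (algebraMap Qb Om E.B4) n1)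
        (le4 E.a4 E.B4 m1) := by
      unfold le4
      apply_rules (transparency := .reducible) [Tends.add, Tends.mul, Tends.pow, Tends.ofNat]
    have s1' : Tends sp.v (2 * α * β * γ0 + β ^ 2 * γ1) (2 * α' * β' * δ0 + β' ^ 2 * δ1) := by
      apply_rules (transparency := .reducible) [Tends.add, Tends.mul, Tends.pow, Tends.ofNat]
    have s2' : Tends sp.v (α ^ 2 * γ0 + 2 * α * β * γ1 + β ^ 2 * γ2)
        (α' ^ 2 * δ0 + 2 * α' * β' * δ1 + β' ^ 2 * δ2) := by
      apply_rules (transparency := .reducible) [Tends.add, Tends.mul, Tends.pow, Tends.ofNat]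
    have s3' : Tends sp.v (α ^ 2 * γ1 + 2 * α * β * γ2) (α' ^ 2 * δ1 + 2 * α' * β' * δ2) := by
      apply_rules (transparency := .reducible) [Tends.add, Tends.mul, Tends.pow, Tends.ofNat]
    have hD := E.stepD hs h1 hz hzz k2 hY0 g1 g2 τ m0 m1 α' β' δ0 δ1 δ2 hτ
      (by rw [hn', ← hr, ← hg]; field_simp; ring)
      (t0'.eq_of_eq ((tβ.pow 2).mul tγ0) c0) (t1'.eq_of_eq s1' c1) (t2'.eq_of_eq s2' c2)
      (t3'.eq_of_eq s3' c3) (t4'.eq_of_eq ((tα.pow 2).mul tγ2) c4) kd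
    have hC := E.stepC hs h1 hz hzz k2 k0 hY0 g1 g2 hG0 hD
    exact ⟨X0, Y0, tX, tY, k2, g1, g2, hC, hD ▸ hC⟩
  obtain ⟨sp0, tl⟩ := nonConst_lam.exists_sp ((g.e1 / (2 * z)) ^ 2 - g.e2)
  have fin : ∀ Y', Y' ^ 2 = G.W lam → (Y' = Y ∨ Y' = -Y) →
      Tends sp0.v (G.pT (algebraMap Qb Om z) lam Y') 0 → E.Ψ s t0 z = E.Ψ s t0 (-z) := by
    intro Y' hY2 hYY tT
    obtain ⟨γ, hγ, hv⟩ := E.fam' (algebraMap Qb Om s)
      (algebraMap Qb Om t0 + G.pT (algebraMap Qb Om z) lam Y')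
      (G.pp (algebraMap Qb Om z) lam (G.pT (algebraMap Qb Om z) lam Y'))
      (by rw [G.on_curve hzO hzzO hq2 hY2, hGdef, Quart.shift_ev])
    have e1 := hγ.eq_of_list L (E.Ψ s t0 (-z)) (fun sp hsp => by
      obtain ⟨X0, Y0, tX, tY, k2, g1, g2, l1, l2⟩ := good sp hsp
      rcases hYY with rfl | rfl
      · have tT := (tG sp).pT (Tends.const z) hz tX tY k2
        rw [hv sp s _ _ (Tends.const s) ((Tends.const t0).add tT)
          ((tG sp).pp (Tends.const z) hz tX tT) hs h1 g1]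
        exact l1
      · have tT := (tG sp).pT (Tends.const z) hz tX tY.neg k2
        rw [hv sp s _ _ (Tends.const s) ((Tends.const t0).add tT)
          ((tG sp).pp (Tends.const z) hz tX tT) hs h1 g2]
        exact l2) sp0
    rw [← e1]
    exact (hv sp0 s t0 z (Tends.const s) (by simpa using (Tends.const t0).add tT)
      (((tG sp0).pp (Tends.const z) hz tl tT).of_eq_right (by simp [Quart.pp])) hs h1 hG0).symm
  have hfin : E.Ψ s t0 z = E.Ψ s t0 (-z) := by
    by_cases a1 : Tends sp0.v (G.pT (algebraMap Qb Om z) lam Y) 0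
    · exact fin Y hY (Or.inl rfl) a1
    by_cases a2 : Tends sp0.v (G.pT (algebraMap Qb Om z) lam (-Y)) 0
    · exact fin (-Y) hY' (Or.inr rfl) a2
    exfalso
    rw [Tends.zero_iff, not_lt] at a1 a2
    have z0 : g.q0 z ((g.e1 / (2 * z)) ^ 2 - g.e2) = 0 := by unfold Quart.q0; ring
    have b0 := Tends.zero_iff.mp (((tG sp0).q0 (Tends.const z) hz tl).of_eq_right z0)
    rw [← G.pT_mul hzO hzzO hq2 hY, map_mul, map_mul] at b0
    have b1 : sp0.v (G.q2 (algebraMap Qb Om z) lam * G.pT (algebraMap Qb Om z) lam Y) < 1 := by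
      rw [map_mul]
      exact (mul_le_mul_right (le_mul_of_one_le_right' a2) _).trans_lt b0
    have b2 : sp0.v (G.q2 (algebraMap Qb Om z) lam * G.pT (algebraMap Qb Om z) lam (-Y)) < 1 := by
      rw [map_mul]
      exact (mul_le_mul_right (le_mul_of_one_le_left' a1) _).trans_lt b0
    have b3 : sp0.v (G.q2 (algebraMap Qb Om z) lam) < 1 := by
      rw [map_mul] at b1
      exact (le_mul_of_one_le_right' a1).trans_lt b1
    have b4 : sp0.v (G.q1 (algebraMap Qb Om z) lam) < 1 := by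
      rw [← sp0.v.map_neg, ← G.pT_add Y hq2, mul_add]
      exact sp0.v.map_add_lt b1 b2
    have := g.disc_eq_zero hz hzz z0
      (((tG sp0).q1 (Tends.const z) hz tl).unique (Tends.zero_iff.mpr b4))
      (((tG sp0).q2 (Tends.const z) hz tl).unique (Tends.zero_iff.mpr b3))
    rw [hg, Quart.shift_I, Quart.shift_J] at this
    exact hdisc this
  rw [E.stepB hs h1 hG0 hzz] at hfin
  exact eq_zero_of_eq_neg' hfin

end EllData

end

end Pool.Agent.P.MP_b8021b_nt
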