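import Pool.Agent.P.MP_b8021b_nt.FF1

/-! Divisors on a function field: finiteness, degree zero, residues, approximation. -/

open scoped WithZero IntermediateField Polynomial
open IsDedekindDomain WithZero

set_option linter.unusedSectionVars false

namespace Pool.Agent.P.MP_b8021b_nt

section core

variable {K : Type} [Field K] [Algebra Qb K] [Algebra Qb[X] K] [Algebra (RatFunc Qb) K]
  [IsScalarTower Qb[X] (RatFunc Qb) K] [IsScalarTower Qb Qb[X] K] [FunctionField Qb K]

open FunctionField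

lemma exists_residue_core {w : Valuation K ℤᵐ⁰} (hw : IsPlace w)
    (hx : w (algebraMap Qb[X] K Polynomial.X) < 1) (a : K) (ha : w a ≤ 1) :
    ∃ c : Qb, w (a - algebraMap Qb K c) < 1 := by
  obtain ⟨P, rfl⟩ := exists_heightOne_of_isPlace hw hx.le
  have hxA : algebraMap Qb[X] K Polynomial.X = algebraMap (ringOfIntegers Qb K) K
      (algebraMap Qb[X] (ringOfIntegers Qb K) Polynomial.X) :=
    IsScalarTower.algebraMap_apply _ _ _ _
  rw [hxA] at hx
  have hx' := (HeightOneSpectrum.valuation_lt_one_iff_mem _ _).mp hx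
  have := P.isPrime
  have hC : ∀ c : Qb, algebraMap (ringOfIntegers Qb K) K
      (algebraMap Qb[X] (ringOfIntegers Qb K) (Polynomial.C c)) = algebraMap Qb K c := by
    intro c
    rw [← IsScalarTower.algebraMap_apply]
    exact (IsScalarTower.algebraMap_apply Qb Qb[X] K c).symm
  have key : ∀ r : ringOfIntegers Qb K, ∃ c : Qb,
      P.valuation K (algebraMap (ringOfIntegers Qb K) K r - algebraMap Qb K c) < 1 := by
    intro r
    obtain ⟨c, hc⟩ := exists_const_sub_mem P.asIdeal hx' r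
    refine ⟨c, ?_⟩
    rw [← hC, ← map_sub]
    exact (HeightOneSpectrum.valuation_lt_one_iff_mem _ _).mpr hc
  obtain ⟨n, d, hnd⟩ := P.exists_primeCompl_mul_eq_of_integer a ha
  obtain ⟨c1, h1⟩ := key n
  obtain ⟨c2, h2⟩ := key d
  have hd : P.valuation K (algebraMap (ringOfIntegers Qb K) K d) = 1 :=
    (HeightOneSpectrum.valuation_eq_one_iff_notMem _).mpr d.2
  have hc2 : c2 ≠ 0 := by
    rintro rfl
    simp only [map_zero, sub_zero] at h2
    exact absurd hd h2.ne
  refine ⟨c1 / c2, ?_⟩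
  have e : a - algebraMap Qb K (c1 / c2) = ((algebraMap (ringOfIntegers Qb K) K n
      - algebraMap Qb K c1) - a * (algebraMap (ringOfIntegers Qb K) K d - algebraMap Qb K c2))
        * algebraMap Qb K c2⁻¹ := by
    have : algebraMap Qb K c2 ≠ 0 := by simpa using hc2
    rw [← hnd, map_div₀, map_inv₀]
    field_simp
    ring
  rw [e, map_mul, hw.2 _ (inv_ne_zero hc2), mul_one]
  refine Valuation.map_sub_lt _ h1 ?_
  rw [map_mul]
  exact mul_lt_one_of_nonneg_of_lt_one_right ha zero_le h2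

lemma exists_approx_core (S : Finset (Valuation K ℤᵐ⁰)) (hS : ∀ w ∈ S, IsPlace w)
    (hx : ∀ w ∈ S, w (algebraMap Qb[X] K Polynomial.X) ≤ 1) (w0 : Valuation K ℤᵐ⁰) (h0 : w0 ∈ S) :
    ∃ g : K, w0 g = exp (-1) ∧ ∀ w ∈ S, w ≠ w0 → w g = 1 := by
  classical
  choose P hP using fun w : S => exists_heightOne_of_isPlace (hS w.1 w.2) (hx w.1 w.2)
  obtain ⟨π, hπ⟩ := (P ⟨w0, h0⟩).intValuation_exists_uniformizer
  obtain ⟨y, hy⟩ := IsDedekindDomain.exists_forall_sub_mem_ideal (s := (Finset.univ : Finset S))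
    (fun w => (P w).asIdeal) (fun _ => 2) (fun w _ => (P w).prime)
    (fun w _ w' _ hne h => hne (Subtype.ext (by
      rw [← hP w, ← hP w', HeightOneSpectrum.ext h])))
    (fun w => if w.1.1 = w0 then π else 1)
  refine ⟨algebraMap _ K y, ?_, ?_⟩
  · have h1 := hy ⟨w0, h0⟩ (Finset.mem_univ _)
    simp only [if_true] at h1
    rw [← HeightOneSpectrum.intValuation_le_pow_iff_mem] at h1
    have h2 : (P ⟨w0, h0⟩).intValuation (y - π) < (P ⟨w0, h0⟩).intValuation π := by
      rw [hπ]; refine h1.trans_lt ?_; rw [exp_lt_exp]; norm_num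
    have h3 := Valuation.map_eq_of_sub_lt _ h2
    have h4 := hP ⟨w0, h0⟩
    simp only at h4
    rw [← h4, HeightOneSpectrum.valuation_of_algebraMap, h3, hπ]
  · intro w hw hne
    have h1 := hy ⟨w, hw⟩ (Finset.mem_univ _)
    simp only [hne, if_false] at h1
    rw [← HeightOneSpectrum.intValuation_le_pow_iff_mem] at h1
    have h2 : (P ⟨w, hw⟩).intValuation (y - 1) < (P ⟨w, hw⟩).intValuation 1 := by
      rw [map_one]; refine h1.trans_lt ?_; rw [← exp_zero, exp_lt_exp]; norm_num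
    have h3 := Valuation.map_eq_of_sub_lt _ h2
    have h4 := hP ⟨w, hw⟩
    simp only at h4
    rw [← h4, HeightOneSpectrum.valuation_of_algebraMap, h3, map_one]

lemma exists_place_core (O : ValuationSubring K) (hc : ∀ c : Qb, algebraMap Qb K c ∈ O)
    (hx : algebraMap Qb[X] K Polynomial.X ∈ O) (hO : O ≠ ⊤) :
    ∃ w : Valuation K ℤᵐ⁰, IsPlace w ∧ w.valuationSubring = O := by
  obtain ⟨P, hP⟩ := exists_heightOne_of_valuationSubring (R := ringOfIntegers Qb K)
    O (ringOfIntegers_mem _ hc hx) hO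
  exact ⟨_, isPlace_valuation P, hP⟩

end core

variable {K : Type} [Field K] [Algebra Qb K]

lemma exists_ratFunc_structure (f : K) (hf : Transcendental Qb f) [FiniteDimensional Qb⟮f⟯ K] :
    ∃ (_ : Algebra Qb[X] K) (_ : Algebra (RatFunc Qb) K), IsScalarTower Qb[X] (RatFunc Qb) K ∧
      IsScalarTower Qb Qb[X] K ∧ IsScalarTower Qb (RatFunc Qb) K ∧ FunctionField Qb K ∧
      algebraMap Qb[X] K Polynomial.X = f ∧
      Module.finrank (RatFunc Qb) K = Module.finrank Qb⟮f⟯ K := by
  let e := RatFunc.algEquivOfTranscendental f hf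
  let φ : RatFunc Qb →ₐ[Qb] K := (Qb⟮f⟯.val).comp e.toAlgHom
  let A2 : Algebra (RatFunc Qb) K := φ.toRingHom.toAlgebra
  let A1 : Algebra Qb[X] K := (φ.toRingHom.comp (algebraMap Qb[X] (RatFunc Qb))).toAlgebra
  have T1 : IsScalarTower Qb[X] (RatFunc Qb) K := IsScalarTower.of_algebraMap_eq fun _ => rfl
  have T3 : IsScalarTower Qb (RatFunc Qb) K :=
    IsScalarTower.of_algebraMap_eq fun c => (φ.commutes c).symm
  have T2 : IsScalarTower Qb Qb[X] K := IsScalarTower.of_algebraMap_eq fun c => by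
    rw [IsScalarTower.algebraMap_apply Qb (RatFunc Qb) K,
      IsScalarTower.algebraMap_apply Qb Qb[X] (RatFunc Qb),
      ← IsScalarTower.algebraMap_apply Qb[X] (RatFunc Qb) K]
  have hrk : Module.finrank (RatFunc Qb) K = Module.finrank Qb⟮f⟯ K :=
    Algebra.finrank_eq_of_equiv_equiv e.toRingEquiv (RingEquiv.refl K) (by ext; rfl)
  have hfin : FunctionField Qb K := by
    apply Module.finite_of_finrank_pos
    rw [hrk]; exact Module.finrank_pos
  refine ⟨A1, A2, T1, T2, T3, hfin, ?_, hrk⟩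
  change ((e (algebraMap Qb[X] (RatFunc Qb) Polynomial.X) : Qb⟮f⟯) : K) = f
  rw [RatFunc.algebraMap_X]
  exact RatFunc.algEquivOfTranscendental_X f hf

lemma IsCurveField.finite (hK : IsCurveField K) {f : K} (hf : Transcendental Qb f) :
    FiniteDimensional Qb⟮f⟯ K := by
  obtain ⟨t, ht, hfin⟩ := hK
  obtain ⟨_, _, _, _, _, _, -, -⟩ := exists_ratFunc_structure t ht
  exact FunctionField.finiteDimensional_of_adjoin_transcendental hf

lemma transcendental_of_notMem_range {f : K} (hf : ∀ c : Qb, f ≠ algebraMap Qb K c) :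
    Transcendental Qb f := by
  rintro ⟨q, hq, hq'⟩
  obtain ⟨c, hc⟩ := exists_eq_const_of_eval₂ (algebraMap Qb K) f hq hq'
  exact hf c hc

lemma IsPlace.transcendental {w : Valuation K ℤᵐ⁰} (hw : IsPlace w) {f : K} (h0 : f ≠ 0)
    (h1 : w f ≠ 1) : Transcendental Qb f := by
  refine transcendental_of_notMem_range fun c hc => ?_
  subst hc
  exact h1 (hw.2 c (by rintro rfl; simp at h0))

lemma IsCurveField.sum_ord_zeros (hK : IsCurveField K) {f : K} (hf : Transcendental Qb f) :
    ∃ S : Finset (Valuation K ℤᵐ⁰), (∀ w, w ∈ S ↔ IsPlace w ∧ w f < 1) ∧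
      ∑ w ∈ S, ord w f = Module.finrank Qb⟮f⟯ K := by
  have := hK.finite hf
  obtain ⟨_, _, _, _, _, _, hX, hrk⟩ := exists_ratFunc_structure f hf
  have := sum_ord_X (K := K)
  rwa [hX, hrk] at this

lemma IsCurveField.exists_residue (hK : IsCurveField K) {w : Valuation K ℤᵐ⁰} (hw : IsPlace w)
    (a : K) (ha : w a ≤ 1) : ∃ c : Qb, w (a - algebraMap Qb K c) < 1 := by
  obtain ⟨π, hπ⟩ := hw.1 (exp (-1))
  have h1 : w π < 1 := by rw [hπ, ← exp_zero, exp_lt_exp]; norm_num
  have h0 : π ≠ 0 := by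
    rintro rfl
    simp at hπ
    exact exp_ne_zero hπ.symm
  have hf := hw.transcendental h0 h1.ne
  have := hK.finite hf
  obtain ⟨_, _, _, _, _, _, hX, -⟩ := exists_ratFunc_structure π hf
  exact exists_residue_core hw (hX ▸ h1) a ha

lemma IsCurveField.exists_place (hK : IsCurveField K) (O : ValuationSubring K)
    (hc : ∀ c : Qb, algebraMap Qb K c ∈ O) (hO : O ≠ ⊤) :
    ∃ w : Valuation K ℤᵐ⁰, IsPlace w ∧ w.valuationSubring = O := by
  obtain ⟨t, ht, -⟩ := id hK
  have : ∃ s : K, Transcendental Qb s ∧ s ∈ O := by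
    rcases O.mem_or_inv_mem t with h | h
    · exact ⟨t, ht, h⟩
    · exact ⟨t⁻¹, fun h' => ht (IsAlgebraic.inv_iff.mp h'), h⟩
  obtain ⟨s, hs, hsO⟩ := this
  have := hK.finite hs
  obtain ⟨_, _, _, _, _, _, hX, -⟩ := exists_ratFunc_structure s hs
  exact exists_place_core O hc (hX ▸ hsO) hO

lemma IsCurveField.exists_approx (hK : IsCurveField K) (S : Finset (Valuation K ℤᵐ⁰))
    (hS : ∀ w ∈ S, IsPlace w) (w0 : Valuation K ℤᵐ⁰) (h0 : w0 ∈ S) :
    ∃ g : K, w0 g = exp (-1) ∧ ∀ w ∈ S, w ≠ w0 → w g = 1 := by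
  classical
  obtain ⟨t, ht, -⟩ := id hK
  have h1 : ∀ w : S, ∃ c : Qb, w.1 t ≤ 1 → w.1 (t - algebraMap Qb K c) < 1 := by
    intro w
    by_cases h : w.1 t ≤ 1
    · obtain ⟨c, hc⟩ := hK.exists_residue (hS w.1 w.2) t h
      exact ⟨c, fun _ => hc⟩
    · exact ⟨0, fun h' => absurd h' h⟩
  choose c hc using h1
  obtain ⟨a, ha⟩ := Infinite.exists_notMem_finset (Finset.univ.image c)
  have hne : t - algebraMap Qb K a ≠ 0 := fun h =>
    ht (by rw [sub_eq_zero.mp h]; exact isAlgebraic_algebraMap a)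
  have hs : Transcendental Qb (t - algebraMap Qb K a)⁻¹ := by
    intro h
    have h2 := (IsAlgebraic.inv_iff.mp h).add (isAlgebraic_algebraMap (A := K) a)
    rw [sub_add_cancel] at h2
    exact ht h2
  have hle : ∀ w ∈ S, w (t - algebraMap Qb K a)⁻¹ ≤ 1 := by
    intro w hw
    have h0 : 0 < w (t - algebraMap Qb K a) := by simpa [zero_lt_iff] using hne
    rw [map_inv₀, inv_le_one₀ h0]
    by_cases h : w t ≤ 1
    · have h2 := hc ⟨w, hw⟩ h
      have hca : c ⟨w, hw⟩ - a ≠ 0 := by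
        intro h3
        exact ha (Finset.mem_image.mpr ⟨⟨w, hw⟩, Finset.mem_univ _, sub_eq_zero.mp h3⟩)
      have h3 := (hS w hw).2 _ hca
      have e : t - algebraMap Qb K a =
          algebraMap Qb K (c ⟨w, hw⟩ - a) + (t - algebraMap Qb K (c ⟨w, hw⟩)) := by
        rw [map_sub]; ring
      rw [e, Valuation.map_add_eq_of_lt_left _ (by rw [h3]; exact h2), h3]
    · push Not at h
      rw [Valuation.map_sub_eq_of_lt_left _ (((hS w hw).const_le_one a).trans_lt h)]
      exact h.le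
  have := hK.finite hs
  obtain ⟨_, _, _, _, _, _, hX, -⟩ := exists_ratFunc_structure _ hs
  exact exists_approx_core S hS (fun w hw => hX ▸ hle w hw) w0 h0

lemma ord_inv (w : Valuation K ℤᵐ⁰) (f : K) : ord w f⁻¹ = - ord w f := by
  simp [ord, log_inv]

lemma ord_eq_zero_of_eq_one {w : Valuation K ℤᵐ⁰} {f : K} (h : w f = 1) : ord w f = 0 := by
  simp [ord, h]

lemma ord_pos_of_lt_one {w : Valuation K ℤᵐ⁰} {f : K} (h0 : f ≠ 0) (h : w f < 1) :
    0 < ord w f := by
  have hne : w f ≠ 0 := by simpa using h0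
  rw [← exp_log hne, ← exp_zero, exp_lt_exp] at h
  simpa [ord] using h

/-- A nonzero function has finitely many zeros and poles, and its divisor has degree zero. -/
lemma IsCurveField.exists_divisor (hK : IsCurveField K) {f : K} (h0 : f ≠ 0) :
    ∃ S : Finset (Valuation K ℤᵐ⁰), (∀ w, w ∈ S ↔ IsPlace w ∧ w f ≠ 1) ∧
      ∑ w ∈ S, ord w f = 0 := by
  classical
  by_cases hf : Transcendental Qb f
  · obtain ⟨S1, h1, e1⟩ := hK.sum_ord_zeros hf
    obtain ⟨S2, h2, e2⟩ := hK.sum_ord_zeros (f := f⁻¹) (fun h' => hf (IsAlgebraic.inv_iff.mp h'))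
    have hadj : Qb⟮f⁻¹⟯ = Qb⟮f⟯ := by
      apply le_antisymm <;> rw [IntermediateField.adjoin_simple_le_iff]
      · exact inv_mem (IntermediateField.mem_adjoin_simple_self Qb f)
      · simpa using inv_mem (IntermediateField.mem_adjoin_simple_self Qb f⁻¹)
    rw [hadj] at e2
    refine ⟨S1 ∪ S2, ?_, ?_⟩
    · intro w
      rw [Finset.mem_union, h1, h2, ← and_or_left, ← Valuation.one_lt_val_iff w h0,
        ← ne_iff_lt_or_gt]
    · rw [Finset.sum_union, e1]
      · simp only [ord_inv, Finset.sum_neg_distrib] at e2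
        omega
      · rw [Finset.disjoint_left]
        intro w hw1 hw2
        have a1 := ((h1 w).mp hw1).2
        have a2 := (Valuation.one_lt_val_iff w h0).mpr ((h2 w).mp hw2).2
        exact absurd a1 (not_lt.mpr a2.le)
  · refine ⟨∅, ?_, by simp⟩
    intro w
    simp only [Finset.notMem_empty, false_iff, not_and, not_not]
    intro hw
    by_contra h
    exact hf (hw.transcendental h0 h)

end Pool.Agent.P.MP_b8021b_nt
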