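import Pool.Agent.P.MP_b8021b_nt.Defs

/-!
Rational equivalence over the field of algebraic numbers.
-/

open scoped WithZero LinearAlgebra.Projectivization IntermediateField

namespace Pool.Agent.P.MP_b8021b_nt

noncomputable section

/-- The field of algebraic numbers. -/
abbrev Qb : Type := AlgebraicClosure ℚ

/-- `K` is the function field of an irreducible curve over `Qb`: a finite extension of `Qb(t)`. -/
def IsCurveField (K : Type) [Field K] [Algebra Qb K] : Prop :=
  ∃ t : K, Transcendental Qb t ∧ FiniteDimensional Qb⟮t⟯ K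

/-- A place of `K/Qb` (a point of the smooth projective curve with function field `K`):
a normalised discrete valuation of `K` that is trivial on `Qb`. -/
def IsPlace {K : Type} [Field K] [Algebra Qb K] (v : Valuation K ℤᵐ⁰) : Prop :=
  Function.Surjective v ∧ ∀ c : Qb, c ≠ 0 → v (algebraMap Qb K c) = 1

/-- The morphism `(η₀ : … : ηₙ)` from the curve to `ℙⁿ` takes the value `x` at the place `v`. -/
def IsValueAt {K : Type} [Field K] [Algebra Qb K] {n : ℕ} (v : Valuation K ℤᵐ⁰)
    (η : Fin (n + 1) → K) (x : ℙ Qb (Fin (n + 1) → Qb)) : Prop :=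
  ∃ c : K, ∀ i, v (c * η i - algebraMap Qb K (x.rep i)) < 1

/-- The zero-cycles on `X ⊆ ℙⁿ` that are rationally equivalent to zero: the subgroup generated by
the push-forwards `φ_* div f`, where `φ = (η₀ : … : ηₙ) : C → X` is a morphism from a smooth
projective curve `C` with function field `K` and `f ∈ K` is nonzero. -/
def ratTrivial {n : ℕ} (X : Set (ℙ Qb (Fin (n + 1) → Qb))) : AddSubgroup (X →₀ ℤ) :=
  AddSubgroup.closure {D | ∃ (K : Type) (_ : Field K) (_ : Algebra Qb K), IsCurveField K ∧
    ∃ (η : Fin (n + 1) → K) (φ : Valuation K ℤᵐ⁰ → X) (f : K) (S : Finset (Valuation K ℤᵐ⁰)),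
      (∀ v, IsPlace v → IsValueAt v η (φ v)) ∧ f ≠ 0 ∧ (∀ v ∈ S, IsPlace v) ∧
      (∀ v, IsPlace v → v ∉ S → ord v f = 0) ∧ D = ∑ v ∈ S, Finsupp.single (φ v) (ord v f)}

end

end Pool.Agent.P.MP_b8021b_nt
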