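import Pool.Agent.P.MP_b8021b_nt.Ell3

/-! The pencil of genus one curves attached to the equations. -/

open scoped Polynomial

namespace Pool.Agent.P.MP_b8021b_nt

noncomputable section

section general
variable {R : Type} [CommRing R]

/-- The quartic `B² - ε α`. -/
def sqQ (b0 b1 b2 ε α0 α1 α2 α3 α4 : R) : Quart R :=
  ⟨b0 ^ 2 - ε * α0, 2 * b0 * b1 - ε * α1, b1 ^ 2 + 2 * b0 * b2 - ε * α2, 2 * b1 * b2 - ε * α3,
    b2 ^ 2 - ε * α4⟩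

lemma sqQ_I (b0 b1 b2 ε α0 α1 α2 α3 α4 : R) :
    ε ∣ (sqQ b0 b1 b2 ε α0 α1 α2 α3 α4).I - (b1 ^ 2 - 4 * b0 * b2) ^ 2 :=
  ⟨-12 * (α0 * b2 ^ 2 + α4 * b0 ^ 2) + 12 * ε * α0 * α4 + 6 * b1 * (α1 * b2 + α3 * b0)
    - 3 * ε * α1 * α3 - 2 * α2 * (b1 ^ 2 + 2 * b0 * b2) + ε * α2 ^ 2, by
    unfold sqQ Quart.I iI; ring⟩

lemma sqQ_J (b0 b1 b2 ε α0 α1 α2 α3 α4 : R) :
    ε ^ 2 ∣ (sqQ b0 b1 b2 ε α0 α1 α2 α3 α4).J
      + 3 * (b1 ^ 2 - 4 * b0 * b2) * (sqQ b0 b1 b2 ε α0 α1 α2 α3 α4).I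
      - (b1 ^ 2 - 4 * b0 * b2) ^ 3 :=
  ⟨b0 ^ 2 * (72 * α2 * α4 - 27 * α3 ^ 2) + 2 * b0 * b1 * (9 * α2 * α3 - 54 * α1 * α4)
    + (b1 ^ 2 + 2 * b0 * b2) * (72 * α0 * α4 + 9 * α1 * α3 - 6 * α2 ^ 2)
    + 2 * b1 * b2 * (9 * α1 * α2 - 54 * α0 * α3) + b2 ^ 2 * (72 * α0 * α2 - 27 * α1 ^ 2)
    - ε * iJ α0 α1 α2 α3 α4 + 3 * (b1 ^ 2 - 4 * b0 * b2) * iI α0 α1 α2 α3 α4, by
    unfold sqQ Quart.I Quart.J iI iJ; ring⟩

lemma sqQ_disc (b0 b1 b2 ε : R) :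
    4 * (sqQ b0 b1 b2 ε 0 0 0 0 0).I ^ 3 - (sqQ b0 b1 b2 ε 0 0 0 0 0).J ^ 2 = 0 := by
  unfold sqQ Quart.I Quart.J iI iJ; ring

lemma sqQ_ev (b0 b1 b2 ε α0 α1 α2 α3 α4 t : R) : (sqQ b0 b1 b2 ε α0 α1 α2 α3 α4).ev t
    = (b0 + b1 * t + b2 * t ^ 2) ^ 2 - ε * (α0 + α1 * t + α2 * t ^ 2 + α3 * t ^ 3 + α4 * t ^ 4) := by
  unfold sqQ Quart.ev; ring

lemma disc_node (x a1 a2 a3 a4 B0 B1 B2 B3 B4 τ : R) :
    τ ^ 3 ∣ 4 * wa x a1 a2 a3 a4 τ ^ 3 + 27 * wb x a1 a2 a3 a4 B0 B1 B2 B3 B4 τ ^ 2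
      + 9 * τ ^ 2 * (x ^ 2 * (a1 ^ 2 - 12 * x * B0)) := by
  obtain ⟨n1, h1⟩ : ∃ n1, n1 = a2 + a3 * τ + a4 * τ ^ 2 := ⟨_, rfl⟩
  obtain ⟨n2, h2⟩ : ∃ n2, n2 = B1 + B2 * τ + B3 * τ ^ 2 + B4 * τ ^ 3 := ⟨_, rfl⟩
  have e1 : wa x a1 a2 a3 a4 τ = -3 * x ^ 2 + τ * (a1 + τ * n1) := by unfold wa; rw [h1]; ring
  have e2 : wb x a1 a2 a3 a4 B0 B1 B2 B3 B4 τ
      = 2 * x ^ 3 - x * τ * (a1 + τ * n1) + τ ^ 2 * (B0 + τ * n2) := by
    unfold wb; rw [h1, h2]; ring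
  rw [e1, e2]
  exact ⟨4 * (a1 + τ * n1) ^ 3 - 54 * x * (a1 + τ * n1) * (B0 + τ * n2) + 27 * τ * (B0 + τ * n2) ^ 2
    - 9 * x ^ 2 * (2 * a1 * n1 + τ * n1 ^ 2 - 12 * x * n2), by ring⟩

variable [Algebra Qb R]

/-- The quartic form at `(1, x, t)` with `u = x²`. -/
def Fq (f : EvenQuartic) (t u : R) : R :=
  algebraMap Qb R (f.a 0) + algebraMap Qb R (f.a 1) * t + algebraMap Qb R (f.a 2) * t ^ 2
    + algebraMap Qb R (f.a 3) * t ^ 3 + algebraMap Qb R (f.a 4) * t ^ 4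
    + u * (algebraMap Qb R (f.b 0) + algebraMap Qb R (f.b 1) * t + algebraMap Qb R (f.b 2) * t ^ 2)
    + algebraMap Qb R f.c * u ^ 2

/-- `r + s σ`. -/
def mx (r s : Qb) (σ : R) : R := algebraMap Qb R r + algebraMap Qb R s * σ

/-- The fibre of the pencil over `σ`. -/
def fib (f g : EvenQuartic) (σ : R) : Quart R :=
  sqQ (4 * σ * mx (f.b 0) (g.b 0) σ - 1) (4 * σ * mx (f.b 1) (g.b 1) σ)
    (4 * σ * mx (f.b 2) (g.b 2) σ - σ ^ 3) (64 * σ ^ 2 * mx f.c g.c σ) (mx (f.a 0) (g.a 0) σ)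
    (mx (f.a 1) (g.a 1) σ) (mx (f.a 2) (g.a 2) σ) (mx (f.a 3) (g.a 3) σ) (mx (f.a 4) (g.a 4) σ)

/-- Leading coefficient of the determinant. -/
def cA (f g : EvenQuartic) (σ : R) : R := 4 * σ * mx f.c g.c σ

/-- Middle coefficient of the determinant. -/
def cB (f g : EvenQuartic) (σ t : R) : R :=
  (4 * σ * mx (f.b 0) (g.b 0) σ - 1) + (4 * σ * mx (f.b 1) (g.b 1) σ) * t
    + (4 * σ * mx (f.b 2) (g.b 2) σ - σ ^ 3) * t ^ 2

/-- Constant coefficient of the determinant. -/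
def cC (f g : EvenQuartic) (σ t : R) : R :=
  4 * σ * (mx (f.a 0) (g.a 0) σ + mx (f.a 1) (g.a 1) σ * t + mx (f.a 2) (g.a 2) σ * t ^ 2
    + mx (f.a 3) (g.a 3) σ * t ^ 3 + mx (f.a 4) (g.a 4) σ * t ^ 4)

/-- The determinant of the conic. -/
def Gq (f g : EvenQuartic) (σ t u : R) : R :=
  4 * σ * (Fq f t u + σ * Fq g t u) - σ ^ 3 * u * t ^ 2 - u

lemma Gq_eq (f g : EvenQuartic) (σ t u : R) :
    Gq f g σ t u = cA f g σ * u ^ 2 + cB f g σ t * u + cC f g σ t := by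
  unfold Gq cA cB cC Fq mx; ring

lemma fib_ev (f g : EvenQuartic) (σ t : R) :
    (fib f g σ).ev t = cB f g σ t ^ 2 - 4 * cA f g σ * cC f g σ t := by
  unfold fib; rw [sqQ_ev]; unfold cA cB cC; ring

end general

open Polynomial

lemma pencilDisc_eq (f g : EvenQuartic) : pencilDisc f g = C (fib f g X).e0 + C (fib f g X).e1 * X
    + C (fib f g X).e2 * X ^ 2 + C (fib f g X).e3 * X ^ 3 + C (fib f g X).e4 * X ^ 4 := by
  simp only [pencilDisc, mix, fib, sqQ, mx, algebraMap_eq, map_sub, map_add, map_mul, map_pow,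
    map_one, map_ofNat]
  ring

lemma invI_eq (f g : EvenQuartic) : invI (pencilDisc f g) = (fib f g X).I := by
  rw [pencilDisc_eq]
  generalize fib f g (X : Qb[X]) = q
  simp [invI, Quart.I, iI, coeff_C, coeff_X, coeff_X_pow]

lemma invJ_eq (f g : EvenQuartic) : invJ (pencilDisc f g) = (fib f g X).J := by
  rw [pencilDisc_eq]
  generalize fib f g (X : Qb[X]) = q
  simp [invJ, Quart.J, iJ, coeff_C, coeff_X, coeff_X_pow]

lemma aeval_fib (f g : EvenQuartic) {R : Type} [CommRing R] [Algebra Qb R] (σ : R) :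
    (⟨aeval σ (fib f g (X : Qb[X])).e0, aeval σ (fib f g (X : Qb[X])).e1,
      aeval σ (fib f g (X : Qb[X])).e2, aeval σ (fib f g (X : Qb[X])).e3,
      aeval σ (fib f g (X : Qb[X])).e4⟩ : Quart R) = fib f g σ := by
  simp [fib, sqQ, mx, map_ofNat]

lemma exists_expand (p : Qb[X]) (r : Qb) (n : ℕ) (h : p.natDegree < n) :
    ∃ c : ℕ → Qb, p = ∑ i ∈ Finset.range n, C (c i) * (X - C r) ^ i := by
  refine ⟨(taylor r p).coeff, ?_⟩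
  conv_lhs => rw [← sum_taylor_eq p r]
  rw [sum_over_range' _ (by simp) n (by rwa [natDegree_taylor])]

lemma natDegree_mx (r s : Qb) : (mx r s (X : Qb[X])).natDegree ≤ 1 := by
  unfold mx; simp only [algebraMap_eq]; compute_degree

lemma exists_reduced (f g : EvenQuartic) : ∃ I' J' : Qb[X], (fib f g X).I = X ^ 2 * I' ∧
    (fib f g X).J = X ^ 3 * J' ∧ I'.natDegree ≤ 8 ∧ J'.natDegree ≤ 12 := by
  have hb0 := natDegree_mx (f.b 0) (g.b 0)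
  have hb1 := natDegree_mx (f.b 1) (g.b 1)
  have hb2 := natDegree_mx (f.b 2) (g.b 2)
  have hc := natDegree_mx f.c g.c
  have ha0 := natDegree_mx (f.a 0) (g.a 0)
  have ha1 := natDegree_mx (f.a 1) (g.a 1)
  have ha2 := natDegree_mx (f.a 2) (g.a 2)
  have ha3 := natDegree_mx (f.a 3) (g.a 3)
  have ha4 := natDegree_mx (f.a 4) (g.a 4)
  unfold fib
  generalize mx (f.b 0) (g.b 0) (X : Qb[X]) = β0 at *
  generalize mx (f.b 1) (g.b 1) (X : Qb[X]) = β1 at *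
  generalize mx (f.b 2) (g.b 2) (X : Qb[X]) = β2 at *
  generalize mx f.c g.c (X : Qb[X]) = κ at *
  generalize mx (f.a 0) (g.a 0) (X : Qb[X]) = α0 at *
  generalize mx (f.a 1) (g.a 1) (X : Qb[X]) = α1 at *
  generalize mx (f.a 2) (g.a 2) (X : Qb[X]) = α2 at *
  generalize mx (f.a 3) (g.a 3) (X : Qb[X]) = α3 at *
  generalize mx (f.a 4) (g.a 4) (X : Qb[X]) = α4 at *
  obtain ⟨b0, e0, d0⟩ : ∃ b0 : Qb[X], b0 = 4 * X * β0 - 1 ∧ b0.natDegree ≤ 2 :=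
    ⟨_, rfl, by compute_degree; omega⟩
  obtain ⟨b2, e2, d2⟩ : ∃ b2 : Qb[X], b2 = 4 * β2 - X ^ 2 ∧ b2.natDegree ≤ 2 :=
    ⟨_, rfl, by compute_degree; omega⟩
  obtain ⟨g0, k0, l0⟩ : ∃ g0 : Qb[X], g0 = b0 ^ 2 - 64 * X ^ 2 * κ * α0 ∧ g0.natDegree ≤ 4 :=
    ⟨_, rfl, by compute_degree; omega⟩
  obtain ⟨g1, k1, l1⟩ : ∃ g1 : Qb[X], g1 = 8 * b0 * β1 - 64 * X * κ * α1 ∧ g1.natDegree ≤ 3 :=
    ⟨_, rfl, by compute_degree; omega⟩
  obtain ⟨g2, k2, l2⟩ : ∃ g2 : Qb[X], g2 = 16 * X * β1 ^ 2 + 2 * b0 * b2 - 64 * X * κ * α2 ∧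
      g2.natDegree ≤ 4 := ⟨_, rfl, by compute_degree; omega⟩
  obtain ⟨g3, k3, l3⟩ : ∃ g3 : Qb[X], g3 = 8 * β1 * b2 - 64 * κ * α3 ∧ g3.natDegree ≤ 3 :=
    ⟨_, rfl, by compute_degree; omega⟩
  obtain ⟨g4, k4, l4⟩ : ∃ g4 : Qb[X], g4 = b2 ^ 2 - 64 * κ * α4 ∧ g4.natDegree ≤ 4 :=
    ⟨_, rfl, by compute_degree; omega⟩
  refine ⟨12 * g0 * g4 - 3 * X * g1 * g3 + g2 ^ 2, 72 * g0 * g2 * g4 + 9 * X * g1 * g2 * g3
    - 27 * X * g0 * g3 ^ 2 - 27 * X * g1 ^ 2 * g4 - 2 * g2 ^ 3, ?_, ?_, ?_, ?_⟩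
  · rw [k0, k1, k2, k3, k4, e0, e2]; unfold sqQ Quart.I iI; ring
  · have e : sqQ (4 * X * β0 - 1) (4 * X * β1) (4 * X * β2 - X ^ 3) (64 * X ^ 2 * κ) α0 α1 α2 α3 α4
        = ⟨g0, X * g1, X * g2, X ^ 2 * g3, X ^ 2 * g4⟩ := by
      rw [k0, k1, k2, k3, k4, e0, e2]; unfold sqQ; congr 1 <;> ring
    rw [e]; unfold Quart.J iJ; ring
  · compute_degree; omega
  · compute_degree; omega

lemma node_first_order {m D a b P Q : Qb[X]} {r : Qb} (hm : m.eval r ≠ 0)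
    (h1 : -3 * m ^ 2 * a - D ^ 2 = (X - C r) * P)
    (h2 : 27 * m ^ 3 * b + 3 * D * (-3 * m ^ 2 * a) - D ^ 3 = (X - C r) ^ 2 * Q) :
    ∃ x : Qb, D.eval r = -3 * m.eval r * x ∧ a.eval r = -3 * x ^ 2 ∧ b.eval r = 2 * x ^ 3 ∧
      (derivative b).eval r = -x * (derivative a).eval r := by
  have e1 := congrArg (eval r) h1
  have e2 := congrArg (eval r) h2
  have e3 := congrArg (fun p => eval r (derivative p)) h2
  simp [derivative_pow] at e1 e2 e3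
  obtain ⟨x, hx⟩ : ∃ x, D.eval r = -3 * m.eval r * x := ⟨-D.eval r / (3 * m.eval r), by field_simp⟩
  rw [hx] at e1 e2 e3
  have ha : a.eval r = -3 * x ^ 2 := by
    apply mul_left_cancel₀ (pow_ne_zero 2 hm)
    linear_combination (-1 / 3 : Qb) * e1
  rw [ha] at e2 e3
  have hb : b.eval r = 2 * x ^ 3 := by
    apply mul_left_cancel₀ (pow_ne_zero 3 hm)
    linear_combination (1 / 27 : Qb) * e2
  rw [hb] at e3
  refine ⟨x, hx, ha, hb, ?_⟩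
  apply mul_left_cancel₀ (pow_ne_zero 3 hm)
  linear_combination (1 / 27 : Qb) * e3

/-- The Weierstrass data of the Jacobian fibration. -/
lemma exists_params (f g : EvenQuartic) (hf : f.c ≠ 0) (hg : g.c ≠ 0) {σ0 : Qb} (hσ : σ0 ≠ 0)
    (hI : (X - C σ0) ^ 4 ∣ invI (pencilDisc f g)) (hJ : (X - C σ0) ^ 6 ∣ invJ (pencilDisc f g))
    (hd : ¬ (C f.c + C g.c * X) ^ 3 ∣
      4 * invI (pencilDisc f g) ^ 3 - invJ (pencilDisc f g) ^ 2) :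
    ∃ x a1 a2 a3 a4 B0 B1 B2 B3 B4 : Qb, a1 ^ 2 - 12 * x * B0 ≠ 0 ∧
      (fib f g X).I = -3 * X ^ 2 * (X - C σ0) ^ 4
        * wa (C x) (C a1) (C a2) (C a3) (C a4) (X - C (-f.c / g.c)) ∧
      (fib f g X).J = 27 * X ^ 3 * (X - C σ0) ^ 6 * wb (C x) (C a1) (C a2) (C a3) (C a4)
        (C B0) (C B1) (C B2) (C B3) (C B4) (X - C (-f.c / g.c)) ∧
      ∃ t : Qb, cB f g (-f.c / g.c) t ≠ 0 := by
  rw [invI_eq] at hI hd
  rw [invJ_eq] at hJ hd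
  set σ1 := -f.c / g.c with hσ1
  have hκ : (C f.c + C g.c * X : Qb[X]) = C g.c * (X - C σ1) := by
    have : f.c = -(g.c * σ1) := by rw [hσ1]; field_simp
    rw [this, map_neg, map_mul]; ring
  have hd' : ¬ (X - C σ1) ^ 3 ∣ 4 * (fib f g X).I ^ 3 - (fib f g X).J ^ 2 := by
    intro h
    apply hd
    rw [hκ, mul_pow]
    exact (IsUnit.mul_left_dvd ((isUnit_C.mpr (Ne.isUnit hg)).pow 3)).mpr h
  obtain ⟨I', J', eI, eJ, dI, dJ⟩ := exists_reduced f g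
  have hcop : IsCoprime (X - C σ0 : Qb[X]) X := by
    simpa using isCoprime_X_sub_C_of_isUnit_sub (a := σ0) (b := 0) (by simpa using hσ)
  obtain ⟨a', ha'⟩ : (X - C σ0) ^ 4 ∣ I' := (hcop.pow).dvd_of_dvd_mul_left (eI ▸ hI)
  obtain ⟨b', hb'⟩ : (X - C σ0) ^ 6 ∣ J' := (hcop.pow).dvd_of_dvd_mul_left (eJ ▸ hJ)
  have da : a'.natDegree ≤ 4 := by
    by_cases h : a' = 0
    · simp [h]
    · rw [ha', natDegree_mul (pow_ne_zero _ (X_sub_C_ne_zero _)) h, natDegree_pow,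
        natDegree_X_sub_C] at dI
      omega
  have db : b'.natDegree ≤ 6 := by
    by_cases h : b' = 0
    · simp [h]
    · rw [hb', natDegree_mul (pow_ne_zero _ (X_sub_C_ne_zero _)) h, natDegree_pow,
        natDegree_X_sub_C] at dJ
      omega
  obtain ⟨c, hc⟩ := exists_expand (C (-1 / 3) * a') σ1 5
    ((natDegree_C_mul_le _ _).trans_lt (by omega))
  obtain ⟨e, he⟩ := exists_expand (C (1 / 27) * b') σ1 7
    ((natDegree_C_mul_le _ _).trans_lt (by omega))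
  simp only [Finset.sum_range_succ, Finset.range_zero, Finset.sum_empty, zero_add] at hc he
  set a := C (-1 / 3) * a' with ha
  set b := C (1 / 27) * b' with hb
  have fI : (fib f g X).I = -3 * (X * (X - C σ0) ^ 2) ^ 2 * a := by
    have : (-3 : Qb[X]) * C (-1 / 3) = 1 := by
      rw [← map_ofNat C 3, ← map_neg, ← map_mul]; norm_num
    rw [eI, ha', ha]; linear_combination (-X ^ 2 * (X - C σ0) ^ 4 * a') * this
  have fJ : (fib f g X).J = 27 * (X * (X - C σ0) ^ 2) ^ 3 * b := by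
    have : (27 : Qb[X]) * C (1 / 27) = 1 := by
      rw [← map_ofNat C 27, ← map_mul]; norm_num
    rw [eJ, hb', hb]; linear_combination (-X ^ 3 * (X - C σ0) ^ 6 * b') * this
  have h10 : σ1 ≠ 0 := by simp [hσ1, hf, hg]
  have h01 : σ1 ≠ σ0 := by
    intro h
    apply hd'
    rw [fI, fJ, h]
    exact ⟨-27 * X ^ 6 * (X - C σ0) ^ 9 * (4 * a ^ 3 + 27 * b ^ 2), by ring⟩
  have hε : (X - C σ1 : Qb[X]) ∣ 64 * X ^ 2 * mx f.c g.c X := by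
    unfold mx; simp only [algebraMap_eq]; rw [hκ]
    exact Dvd.intro_left (64 * X ^ 2 * C g.c) (by ring)
  obtain ⟨P, hP⟩ := hε.trans (sqQ_I (4 * X * mx (f.b 0) (g.b 0) X - 1)
    (4 * X * mx (f.b 1) (g.b 1) X) (4 * X * mx (f.b 2) (g.b 2) X - X ^ 3) _
    (mx (f.a 0) (g.a 0) X) (mx (f.a 1) (g.a 1) X) (mx (f.a 2) (g.a 2) X) (mx (f.a 3) (g.a 3) X)
    (mx (f.a 4) (g.a 4) X))
  obtain ⟨Q, hQ⟩ := (pow_dvd_pow_of_dvd hε 2).trans (sqQ_J (4 * X * mx (f.b 0) (g.b 0) X - 1)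
    (4 * X * mx (f.b 1) (g.b 1) X) (4 * X * mx (f.b 2) (g.b 2) X - X ^ 3) _
    (mx (f.a 0) (g.a 0) X) (mx (f.a 1) (g.a 1) X) (mx (f.a 2) (g.a 2) X) (mx (f.a 3) (g.a 3) X)
    (mx (f.a 4) (g.a 4) X))
  change (fib f g X).I - _ = _ at hP
  change (fib f g X).J + _ * (fib f g X).I - _ = _ at hQ
  rw [fI] at hP hQ
  rw [fJ] at hQ
  obtain ⟨x, k0, k1, k2, k3⟩ := node_first_order (by simp [h10, sub_eq_zero, h01]) hP hQ
  rw [hc] at k1 k3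
  rw [he] at k2 k3
  simp [derivative_pow] at k1 k2 k3
  have ea : a = wa (C x) (C (c 1)) (C (c 2)) (C (c 3)) (C (c 4)) (X - C σ1) := by
    rw [hc, k1]; simp [wa, map_ofNat]
  have eb : b = wb (C x) (C (c 1)) (C (c 2)) (C (c 3)) (C (c 4)) (C (e 2 + x * c 2))
      (C (e 3 + x * c 3)) (C (e 4 + x * c 4)) (C (e 5)) (C (e 6)) (X - C σ1) := by
    rw [he, k2, k3]; simp [wb, map_ofNat]; ring
  have hx : x ^ 2 * (c 1 ^ 2 - 12 * x * (e 2 + x * c 2)) ≠ 0 := by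
    intro h
    apply hd'
    have := disc_node (C x) (C (c 1)) (C (c 2)) (C (c 3)) (C (c 4)) (C (e 2 + x * c 2))
      (C (e 3 + x * c 3)) (C (e 4 + x * c 4)) (C (e 5)) (C (e 6)) (X - C σ1)
    have h' : (C x : Qb[X]) ^ 2 * (C (c 1) ^ 2 - 12 * C x * C (e 2 + x * c 2)) = 0 := by
      simpa [map_ofNat] using congrArg C h
    rw [← ea, ← eb, h', mul_zero, add_zero] at this
    rw [fI, fJ]
    exact this.trans ⟨-27 * (X * (X - C σ0) ^ 2) ^ 6, by ring⟩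
  refine ⟨x, c 1, c 2, c 3, c 4, e 2 + x * c 2, e 3 + x * c 3, e 4 + x * c 4, e 5, e 6,
    right_ne_zero_of_mul hx, by rw [fI, ← ea]; ring, by rw [fJ, ← eb]; ring, ?_⟩
  by_contra hB
  push Not at hB
  have z0 := hB 0
  have z1 := hB 1
  have z2 := hB (-1)
  simp only [cB, mx, Algebra.algebraMap_self, RingHom.id_apply] at z0 z1 z2
  simp [mx] at k0
  have y1 : 4 * σ1 * (f.b 1 + g.b 1 * σ1) = 0 := by linear_combination (1 / 2 : Qb) * (z1 - z2)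
  have y0 : 4 * σ1 * (f.b 0 + g.b 0 * σ1) - 1 = 0 := by linear_combination z0
  rw [y0, y1] at k0
  have : σ1 * (σ1 - σ0) ^ 2 * x = 0 := by linear_combination (1 / 3 : Qb) * k0
  simp [h10, sub_eq_zero, h01] at this
  simp [this] at hx

end

end Pool.Agent.P.MP_b8021b_nt
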