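import Pool.Agent.P.MP_b8021b_nt.Geom1

/-! Classes of points on the surface and the pencil of degenerate conics. -/

open scoped Polynomial

namespace Pool.Agent.P.MP_b8021b_nt

noncomputable section

section general
variable {R : Type}

/-- The equation of the surface in the chart `x₁ = 1`, after eliminating `y₃`. -/
def Rq [CommRing R] [Algebra Qb R] (f g : EvenQuartic) (t x y : R) : R :=
  (y ^ 2 + Fq f t (x ^ 2)) ^ 2 + x ^ 3 * t * y + x ^ 2 * Fq g t (x ^ 2)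

/-- The product of the two roots on one line of a degenerate conic. -/
def nq [Field R] [Algebra Qb R] (f : EvenQuartic) (s t u : R) : R :=
  Fq f t u + s * u * t / 2 + u / (2 * s ^ 2)

lemma Rq_eq_zero [Field R] [CharZero R] [Algebra Qb R] (f g : EvenQuartic) {s t x r r' : R}
    (hs : s ≠ 0) (hG : Gq f g (-s ^ 2) t (x ^ 2) = 0) (h1 : r + r' = x / s)
    (h2 : r * r' = nq f s t (x ^ 2)) : Rq f g t x r = 0 := by
  have e : Rq f g t x r = (r ^ 2 - x / s * r + nq f s t (x ^ 2))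
      * (r ^ 2 + x / s * r + nq f (-s) t (x ^ 2))
      + x ^ 2 * Gq f g (-s ^ 2) t (x ^ 2) / (4 * s ^ 4) := by
    unfold Rq nq Gq; field_simp; ring
  rw [e, hG, ← h1, ← h2]; ring

lemma map_Fq {S : Type} [CommRing R] [Algebra Qb R] [CommRing S] [Algebra Qb S] (φ : R →ₐ[Qb] S)
    (f : EvenQuartic) (t u : R) : φ (Fq f t u) = Fq f (φ t) (φ u) := by
  simp [Fq]

lemma map_Gq {S : Type} [CommRing R] [Algebra Qb R] [CommRing S] [Algebra Qb S] (φ : R →ₐ[Qb] S)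
    (f g : EvenQuartic) (σ t u : R) : φ (Gq f g σ t u) = Gq f g (φ σ) (φ t) (φ u) := by
  simp [Gq, map_Fq, map_ofNat]

end general

section tends
variable {sp : Sp} {S T U X Y : Om} {s t u x y : Qb} (f g : EvenQuartic)

lemma tends_Fq (hT : Tends sp.v T t) (hU : Tends sp.v U u) : Tends sp.v (Fq f T U) (Fq f t u) := by
  unfold Fq
  simp only [Algebra.algebraMap_self, RingHom.id_apply]
  apply_rules (transparency := .reducible) [Tends.add, Tends.mul, Tends.pow, Tends.const]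

lemma tends_mx (r r' : Qb) (hS : Tends sp.v S s) : Tends sp.v (mx r r' S) (mx r r' s) :=
  (Tends.const r).add ((Tends.const r').mul hS)

lemma tends_cA (hS : Tends sp.v S s) : Tends sp.v (cA f g S) (cA f g s) :=
  ((Tends.ofNat 4).mul hS).mul (tends_mx _ _ hS)

lemma tends_cB (hS : Tends sp.v S s) (hT : Tends sp.v T t) :
    Tends sp.v (cB f g S T) (cB f g s t) := by
  unfold cB
  apply_rules (transparency := .reducible)
    [Tends.add, Tends.sub, Tends.mul, Tends.pow, Tends.ofNat, Tends.one, tends_mx]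

lemma tends_cC (hS : Tends sp.v S s) (hT : Tends sp.v T t) :
    Tends sp.v (cC f g S T) (cC f g s t) := by
  unfold cC
  apply_rules (transparency := .reducible)
    [Tends.add, Tends.sub, Tends.mul, Tends.pow, Tends.ofNat, Tends.one, tends_mx]

lemma tends_Gq (hS : Tends sp.v S s) (hT : Tends sp.v T t) (hU : Tends sp.v U u) :
    Tends sp.v (Gq f g S T U) (Gq f g s t u) := by
  unfold Gq
  apply_rules (transparency := .reducible)
    [Tends.add, Tends.sub, Tends.mul, Tends.pow, Tends.ofNat, tends_Fq]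

lemma tends_Rq (hT : Tends sp.v T t) (hX : Tends sp.v X x) (hY : Tends sp.v Y y) :
    Tends sp.v (Rq f g T X Y) (Rq f g t x y) := by
  unfold Rq
  apply_rules (transparency := .reducible) [Tends.add, Tends.mul, Tends.pow, tends_Fq]

lemma tends_nq (hS : Tends sp.v S s) (hs : s ≠ 0) (hT : Tends sp.v T t) (hU : Tends sp.v U u) :
    Tends sp.v (nq f S T U) (nq f s t u) :=
  ((tends_Fq f hT hU).add (((hS.mul hU).mul hT).div (Tends.ofNat 2) two_ne_zero)).add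
    (hU.div ((Tends.ofNat 2).mul (hS.pow 2)) (mul_ne_zero two_ne_zero (pow_ne_zero 2 hs)))

lemma Sp.exists_tends_vieta2 (sp : Sp) {R R' P Q : Om} {p q : Qb} (h1 : R + R' = P)
    (h2 : R * R' = Q) (hP : Tends sp.v P p) (hQ : Tends sp.v Q q) :
    ∃ r r', Tends sp.v R r ∧ Tends sp.v R' r' ∧ r + r' = p ∧ r * r' = q := by
  obtain ⟨r, hr⟩ := sp.exists_tends (a := R) (le_one_of_quadratic sp.v hP.neg.le_one hQ.le_one
    (by rw [← h1, ← h2]; ring))
  obtain ⟨r', hr'⟩ := sp.exists_tends (a := R') (le_one_of_quadratic sp.v hP.neg.le_one hQ.le_one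
    (by rw [← h1, ← h2]; ring))
  exact ⟨r, r', hr, hr', (hr.add hr').eq_of_eq hP h1, (hr.mul hr').eq_of_eq hQ h2⟩

lemma Sp.exists_tends_root (sp : Sp) (hT : Tends sp.v T t) (hX : Tends sp.v X x)
    (h : Rq f g T X Y = 0) : ∃ y, Tends sp.v Y y ∧ Rq f g t x y = 0 := by
  have hF := tends_Fq f hT (hX.pow 2)
  have hG := tends_Fq g hT (hX.pow 2)
  obtain ⟨y, hy⟩ := sp.exists_tends (a := Y) (le_one_of_quartic sp.v (p3 := 0) (by simp)
    ((Tends.ofNat 2).mul hF).le_one ((hX.pow 3).mul hT).le_one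
    ((hF.pow 2).add ((hX.pow 2).mul hG)).le_one (by unfold Rq at h; linear_combination h))
  exact ⟨y, hy, (tends_Rq f g hT hX hy).eq_zero h⟩

end tends

/-- Classes of the points of the surface in the chart `x₁ = 1`. -/
structure GeomData (M : Type) [AddCommGroup M] where
  f : EvenQuartic
  g : EvenQuartic
  cl : Qb → Qb → Qb → M
  Good : Qb → Qb → Prop
  h : MvPolynomial (Fin 2) Qb
  hne : ∃ t x, MvPolynomial.eval ![t, x] h ≠ 0
  good_of : ∀ t x, MvPolynomial.eval ![t, x] h ≠ 0 → Good t x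
  good_ne : ∀ t x, Good t x → x ≠ 0
  good_neg : ∀ t x, Good t x → Good t (-x)
  sym : ∀ t x y, cl t (-x) (-y) = cl t x y
  fam : ∀ T X Y : Om, Rq f g T X Y = 0 → ∃ γ : Sp → M, IsFam γ ∧ ∀ (sp : Sp) (t x y : Qb),
    Tends sp.v T t → Tends sp.v X x → Tends sp.v Y y → Good t x → γ sp = cl t x y

namespace GeomData

variable {M : Type} [AddCommGroup M] (Γ : GeomData M)

/-- The class of the two points on one line of a degenerate conic. -/
def pairCl (s t u : Qb) : M :=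
  Γ.cl t (exists_sqrt u).choose (exists_vieta2 ((exists_sqrt u).choose / s) (nq Γ.f s t u)).choose
    + Γ.cl t (exists_sqrt u).choose
      (exists_vieta2 ((exists_sqrt u).choose / s) (nq Γ.f s t u)).choose_spec.choose

lemma pairCl_eq {s t u x r r' : Qb} (hx : x ^ 2 = u) (h1 : r + r' = x / s)
    (h2 : r * r' = nq Γ.f s t u) : Γ.pairCl s t u = Γ.cl t x r + Γ.cl t x r' := by
  unfold pairCl
  have e0 := (exists_sqrt u).choose_spec
  obtain ⟨e1, e2⟩ := (exists_vieta2 ((exists_sqrt u).choose / s)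
    (nq Γ.f s t u)).choose_spec.choose_spec
  generalize (exists_vieta2 ((exists_sqrt u).choose / s) (nq Γ.f s t u)).choose_spec.choose = b
    at e1 e2 ⊢
  generalize (exists_vieta2 ((exists_sqrt u).choose / s) (nq Γ.f s t u)).choose = a at e1 e2 ⊢
  generalize (exists_sqrt u).choose = x0 at e0 e1 ⊢
  have key : ∀ p p' : Qb, p + p' = x0 / s → p * p' = nq Γ.f s t u →
      Γ.cl t x0 a + Γ.cl t x0 b = Γ.cl t x0 p + Γ.cl t x0 p' := by
    intro p p' k1 k2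
    have : (a - p) * (a - p') = 0 := by linear_combination a * e1 - a * k1 - e2 + k2
    rcases mul_eq_zero.mp this with h | h
    · rw [show a = p by linear_combination h, show b = p' by linear_combination e1 - k1 - h]
    · rw [show a = p' by linear_combination h, show b = p by linear_combination e1 - k1 - h,
        add_comm]
  rcases sq_eq_sq_iff_eq_or_eq_neg.mp (e0.trans hx.symm) with rfl | rfl
  · exact key r r' h1 h2
  · rw [key (-r) (-r') (by rw [neg_div, ← h1]; ring) (by rw [← h2]; ring), Γ.sym, Γ.sym]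

lemma fam_pair (S T U : Om) (hG : Gq Γ.f Γ.g (-S ^ 2) T U = 0) :
    ∃ γ : Sp → M, IsFam γ ∧ ∀ (sp : Sp) (s t u : Qb), Tends sp.v S s → Tends sp.v T t →
      Tends sp.v U u → s ≠ 0 → (∀ x, x ^ 2 = u → Γ.Good t x) → γ sp = Γ.pairCl s t u := by
  by_cases hS : S = 0
  · exact ⟨fun _ => 0, IsFam.zero, fun sp s t u ts _ _ hs _ => absurd hS (ts.ne_zero hs)⟩
  obtain ⟨X, rfl⟩ := exists_sqrt U
  obtain ⟨R, R', h1, h2⟩ := exists_vieta2 (X / S) (nq Γ.f S T (X ^ 2))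
  obtain ⟨γ1, f1, g1⟩ := Γ.fam T X R (Rq_eq_zero _ _ hS hG h1 h2)
  obtain ⟨γ2, f2, g2⟩ := Γ.fam T X R' (Rq_eq_zero _ _ hS hG (add_comm R R' ▸ h1) (mul_comm R R' ▸ h2))
  refine ⟨_, f1.add f2, fun sp s t u ts tt tu hs hg => ?_⟩
  obtain ⟨x, tx, hx⟩ := sp.exists_tends_sqrt tu
  obtain ⟨r, r', tr, tr', k1, k2⟩ := sp.exists_tends_vieta2 h1 h2 (tx.div ts hs)
    (tends_nq _ ts hs tt tu)
  rw [Γ.pairCl_eq hx k1 k2, g1 sp t x r tt tx tr (hg x hx), g2 sp t x r' tt tx tr' (hg x hx)]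

/-- The difference of the classes on the two lines of a degenerate conic. -/
def Φ (s t u : Qb) : M := Γ.pairCl s t u - Γ.pairCl (-s) t u

lemma fam_Φ (S T U : Om) (hG : Gq Γ.f Γ.g (-S ^ 2) T U = 0) :
    ∃ γ : Sp → M, IsFam γ ∧ ∀ (sp : Sp) (s t u : Qb), Tends sp.v S s → Tends sp.v T t →
      Tends sp.v U u → s ≠ 0 → (∀ x, x ^ 2 = u → Γ.Good t x) → γ sp = Γ.Φ s t u := by
  obtain ⟨γ1, f1, g1⟩ := Γ.fam_pair S T U hG
  obtain ⟨γ2, f2, g2⟩ := Γ.fam_pair (-S) T U (by rw [neg_sq]; exact hG)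
  exact ⟨_, f1.sub f2, fun sp s t u ts tt tu hs hg => by
    rw [g1 sp s t u ts tt tu hs hg, g2 sp (-s) t u ts.neg tt tu (neg_ne_zero.mpr hs) hg, Φ]⟩

/-- All points over `(σ, t)` are good. -/
def Gd (σ t : Qb) : Prop := ∀ x, Gq Γ.f Γ.g σ t (x ^ 2) = 0 → Γ.Good t x

lemma cA_ne (hg : Γ.g.c ≠ 0) {σ : Qb} (h0 : σ ≠ 0) (h1 : σ ≠ -Γ.f.c / Γ.g.c) :
    cA Γ.f Γ.g σ ≠ 0 := by
  refine mul_ne_zero (mul_ne_zero (by norm_num) h0) fun h => h1 ?_
  simp only [mx, Algebra.algebraMap_self, RingHom.id_apply] at h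
  field_simp; linear_combination h

lemma Gq_root {R : Type} [Field R] [CharZero R] [Algebra Qb R] {σ t z : R}
    (hA : cA Γ.f Γ.g σ ≠ 0) (hz : z ^ 2 = (fib Γ.f Γ.g σ).ev t) :
    Gq Γ.f Γ.g σ t ((z - cB Γ.f Γ.g σ t) / (2 * cA Γ.f Γ.g σ)) = 0 := by
  rw [fib_ev] at hz
  rw [Gq_eq]; field_simp; linear_combination hz

open Polynomial in
/-- The pencil of genus one curves. -/
def ell (hg : Γ.g.c ≠ 0) (σ0 x a1 a2 a3 a4 B0 B1 B2 B3 B4 : Qb) (hδ : a1 ^ 2 - 12 * x * B0 ≠ 0)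
    (hI : (fib Γ.f Γ.g X).I = -3 * X ^ 2 * (X - C σ0) ^ 4
        * wa (C x) (C a1) (C a2) (C a3) (C a4) (X - C (-Γ.f.c / Γ.g.c)))
    (hJ : (fib Γ.f Γ.g X).J = 27 * X ^ 3 * (X - C σ0) ^ 6 * wb (C x) (C a1) (C a2) (C a3) (C a4)
        (C B0) (C B1) (C B2) (C B3) (C B4) (X - C (-Γ.f.c / Γ.g.c))) : EllData M where
  D := fib Γ.f Γ.g X
  Ψ s t z := Γ.Φ s t ((z - cB Γ.f Γ.g (-s ^ 2) t) / (2 * cA Γ.f Γ.g (-s ^ 2)))
  Gd := Γ.Gd
  σ0 := σ0
  σ1 := -Γ.f.c / Γ.g.c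
  x := x
  a1 := a1
  a2 := a2
  a3 := a3
  a4 := a4
  B0 := B0
  B1 := B1
  B2 := B2
  B3 := B3
  B4 := B4
  hδ := hδ
  hI := hI
  hJ := hJ
  neg s t z := by simp only [Φ, neg_sq, neg_neg, neg_sub]
  fam S T Z hZ := by
    rw [aeval_fib] at hZ
    have hA : ∀ s0 : Qb, s0 ≠ 0 → -s0 ^ 2 ≠ -Γ.f.c / Γ.g.c → cA Γ.f Γ.g (-s0 ^ 2) ≠ 0 :=
      fun s0 h0 h1 => Γ.cA_ne hg (neg_ne_zero.mpr (pow_ne_zero 2 h0)) h1
    by_cases h : cA Γ.f Γ.g (-S ^ 2) = 0
    · exact ⟨fun _ => 0, IsFam.zero, fun sp s t z ts _ _ h0 h1 _ =>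
        absurd h ((tends_cA _ _ (ts.pow 2).neg).ne_zero (hA s h0 h1))⟩
    obtain ⟨γ, hγ, hv⟩ := Γ.fam_Φ S T _ (Γ.Gq_root h hZ)
    refine ⟨γ, hγ, fun sp s t z ts tt tz h0 h1 hG => ?_⟩
    have tu := (tz.sub (tends_cB Γ.f Γ.g (ts.pow 2).neg tt)).div ((Tends.ofNat 2).mul
      (tends_cA Γ.f Γ.g (ts.pow 2).neg)) (mul_ne_zero two_ne_zero (hA s h0 h1))
    refine hv sp s t _ ts tt tu h0 fun x hx => hG x ?_
    rw [hx]
    exact (tends_Gq _ _ (ts.pow 2).neg tt tu).eq_zero (Γ.Gq_root h hZ)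

end GeomData

end

end Pool.Agent.P.MP_b8021b_nt
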