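import Pool.Agent.P.MP_b8021b_nt.Geom2

/-! All general points of the surface have the same class. -/

open scoped Polynomial

namespace Pool.Agent.P.MP_b8021b_nt

noncomputable section

lemma algebraMap_poly (p : Qb[X]) : algebraMap Qb[X] Om p = Polynomial.aeval lam p := by
  have : IsScalarTower.toAlgHom Qb Qb[X] Om = Polynomial.aeval lam := by
    ext
    simp only [IsScalarTower.coe_toAlgHom', Polynomial.aeval_X]
    rw [IsScalarTower.algebraMap_apply Qb[X] (RatFunc Qb) Om, RatFunc.algebraMap_X, lam]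
  exact DFunLike.congr_fun this p

lemma exists_poly_of_ne_zero {a : Om} (ha : a ≠ 0) : ∃ ρ : Qb[X], ρ ≠ 0 ∧
    ∀ (sp : Sp) (t : Qb), Tends sp.v lam t → Tends sp.v a 0 → ρ.eval t = 0 := by
  have halg : IsAlgebraic Qb[X] a := (IsFractionRing.isAlgebraic_iff Qb[X] (RatFunc Qb) Om).mpr
    (Algebra.IsAlgebraic.isAlgebraic a)
  obtain ⟨b, hb, ρ, hρ, e⟩ := halg.exists_nonzero_eq_adjoin_mul (mem_nonZeroDivisors_of_ne_zero ha)
  refine ⟨ρ, hρ, fun sp t tl ta => ?_⟩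
  have hb1 : sp.v b ≤ 1 := by
    clear e
    induction hb using Algebra.adjoin_induction with
    | mem x hx => rw [Set.mem_singleton_iff.mp hx]; exact ta.le_one
    | algebraMap r => rw [algebraMap_poly]; exact (tl.aeval r).le_one
    | add x y _ _ hx hy => exact sp.v.map_add_le hx hy
    | mul x y _ _ hx hy => rw [map_mul]; exact mul_le_one' hx hy
  obtain ⟨c, hc⟩ := sp.exists_tends hb1
  rw [algebraMap_poly] at e
  have := (ta.mul hc).eq_of_eq (tl.aeval ρ) e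
  rw [← this, zero_mul]

lemma Quart.eq_zero_of_ev (g : Quart Qb) (h : ∀ t, g.ev t = 0) :
    g.e0 = 0 ∧ g.e1 = 0 ∧ g.e2 = 0 ∧ g.e3 = 0 ∧ g.e4 = 0 := by
  have g0 := h 0
  have g1 := h 1
  have m1 := h (-1)
  have g2 := h 2
  have m2 := h (-2)
  unfold Quart.ev at g0 g1 m1 g2 m2
  have e0 : g.e0 = 0 := by linear_combination g0
  have e4 : g.e4 = 0 := by linear_combination (1 / 24 : Qb) * (g2 + m2 - 4 * (g1 + m1) + 6 * g0)
  have e3 : g.e3 = 0 := by linear_combination (1 / 12 : Qb) * (g2 - m2 - 2 * (g1 - m1))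
  exact ⟨e0, by linear_combination (1 / 2 : Qb) * (g1 - m1) - e3,
    by linear_combination (1 / 2 : Qb) * (g1 + m1) - e0 - e4, e3, e4⟩

lemma tends_pair {sp : Sp} {T X : Om} {t x : Qb} (hT : Tends sp.v T t) (hX : Tends sp.v X x)
    (p : MvPolynomial (Fin 2) Qb) :
    Tends sp.v (MvPolynomial.aeval ![T, X] p) (MvPolynomial.eval ![t, x] p) :=
  Tends.mv_aeval (fun i => by fin_cases i <;> simpa) p

lemma tends_fib (f g : EvenQuartic) {sp : Sp} {S : Om} {s : Qb} (h : Tends sp.v S s) :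
    TendsQ sp (fib f g S) (fib f g s) := by
  constructor <;> dsimp only [fib, sqQ] <;>
    apply_rules (transparency := .reducible)
      [Tends.add, Tends.sub, Tends.mul, Tends.pow, Tends.ofNat, Tends.one, tends_mx]

lemma nonConst_add (t : Qb) : NonConst (algebraMap Qb Om t + lam) := fun c hc =>
  nonConst_lam (c - t) (by rw [map_sub, ← hc]; ring)

namespace GeomData

variable {M : Type} [AddCommGroup M] (Γ : GeomData M)

lemma exists_rho {σ : Qb} (hA : cA Γ.f Γ.g σ ≠ 0)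
    (hgen : ∀ X : Om, Gq Γ.f Γ.g (algebraMap Qb Om σ) lam (X ^ 2) = 0 →
      MvPolynomial.aeval ![lam, X] Γ.h ≠ 0) :
    ∃ ρ : Qb[X], ρ ≠ 0 ∧ ∀ t, ρ.eval t ≠ 0 → Γ.Gd σ t := by
  obtain ⟨sp0, -⟩ := nonConst_lam.exists_sp 0
  have hAO : cA Γ.f Γ.g (algebraMap Qb Om σ) ≠ 0 :=
    (tends_cA (sp := sp0) _ _ (Tends.const σ)).ne_zero hA
  obtain ⟨U1, U2, h1, h2⟩ := exists_vieta2
    (-cB Γ.f Γ.g (algebraMap Qb Om σ) lam / cA Γ.f Γ.g (algebraMap Qb Om σ))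
    (cC Γ.f Γ.g (algebraMap Qb Om σ) lam / cA Γ.f Γ.g (algebraMap Qb Om σ))
  obtain ⟨X1, rfl⟩ := exists_sqrt U1
  obtain ⟨X2, rfl⟩ := exists_sqrt U2
  have eG : ∀ U : Om, Gq Γ.f Γ.g (algebraMap Qb Om σ) lam U
      = cA Γ.f Γ.g (algebraMap Qb Om σ) * ((U - X1 ^ 2) * (U - X2 ^ 2)) := by
    intro U
    rw [eq_div_iff hAO] at h1 h2
    rw [Gq_eq]; linear_combination U * h1 - h2
  obtain ⟨ρ, hρ, hv⟩ := exists_poly_of_ne_zero (mul_ne_zero (mul_ne_zero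
    (hgen X1 (by rw [eG]; ring)) (hgen (-X1) (by rw [eG]; ring)))
    (mul_ne_zero (hgen X2 (by rw [eG]; ring)) (hgen (-X2) (by rw [eG]; ring))))
  refine ⟨ρ, hρ, fun t ht x hx => Γ.good_of t x fun h0 => ht ?_⟩
  obtain ⟨sp, tl⟩ := nonConst_lam.exists_sp t
  have tA := tends_cA Γ.f Γ.g (Tends.const (v := sp.v) σ)
  obtain ⟨u1, u2, t1, t2, k1, k2⟩ := sp.exists_tends_vieta2 h1 h2
    ((tends_cB _ _ (Tends.const σ) tl).neg.div tA hA) ((tends_cC _ _ (Tends.const σ) tl).div tA hA)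
  obtain ⟨x1, tx1, rfl⟩ := sp.exists_tends_sqrt t1
  obtain ⟨x2, tx2, rfl⟩ := sp.exists_tends_sqrt t2
  refine hv sp t tl ((((tends_pair tl tx1 _).mul (tends_pair tl tx1.neg _)).mul
    ((tends_pair tl tx2 _).mul (tends_pair tl tx2.neg _))).of_eq_right ?_)
  have e : cA Γ.f Γ.g σ * (((x - x1) * (x + x1)) * ((x - x2) * (x + x2))) = 0 := by
    rw [eq_div_iff hA] at k1 k2
    rw [Gq_eq] at hx
    linear_combination hx - x ^ 2 * k1 + k2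
  rcases mul_eq_zero.mp ((mul_eq_zero.mp e).resolve_left hA) with e | e <;>
    rcases mul_eq_zero.mp e with e | e
  · rw [show x1 = x by linear_combination -e, h0]; ring
  · rw [show -x1 = x by linear_combination -e, h0]; ring
  · rw [show x2 = x by linear_combination -e, h0]; ring
  · rw [show -x2 = x by linear_combination -e, h0]; ring

lemma finite_bad : {σ : Qb | ∃ X : Om, X ≠ 0 ∧ Gq Γ.f Γ.g (algebraMap Qb Om σ) lam (X ^ 2) = 0 ∧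
    MvPolynomial.aeval ![lam, X] Γ.h = 0}.Finite := by
  open Polynomial in
  let p : Om[X] := MvPolynomial.aeval ![C lam, X] Γ.h
  have hp : ∀ Y : Om, p.eval Y = MvPolynomial.aeval ![lam, Y] Γ.h := by
    intro Y
    have := MvPolynomial.comp_aeval_apply (f := ![C lam, X])
      ((Polynomial.aeval Y : Om[X] →ₐ[Om] Om).restrictScalars Qb) Γ.h
    simp only [AlgHom.restrictScalars_apply, coe_aeval_eq_eval] at this
    rw [this]
    congr 2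
    ext i
    fin_cases i <;> simp
  have hp0 : p ≠ 0 := by
    obtain ⟨t, x, h⟩ := Γ.hne
    obtain ⟨sp, tl⟩ := nonConst_lam.exists_sp t
    intro h0
    exact (tends_pair tl (Tends.const x) Γ.h).ne_zero h (by rw [← hp, h0, eval_zero])
  have hq : ∀ Y : Om, Y ≠ 0 → {σ : Qb | Gq Γ.f Γ.g (algebraMap Qb Om σ) lam (Y ^ 2) = 0}.Finite := by
    intro Y hY
    let q : Om[X] := Gq Γ.f Γ.g X (C lam) (C (Y ^ 2))
    have hq : ∀ Z : Om, q.eval Z = Gq Γ.f Γ.g Z lam (Y ^ 2) := by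
      intro Z
      simpa using map_Gq ((Polynomial.aeval Z : Om[X] →ₐ[Om] Om).restrictScalars Qb) Γ.f Γ.g X
        (C lam) (C (Y ^ 2))
    have hq0 : q ≠ 0 := by
      intro h0
      have := hq 0
      rw [h0, eval_zero] at this
      simp [Gq, hY] at this
    refine ((finite_setOfPred_isRoot hq0).preimage (algebraMap Qb Om).injective.injOn).subset ?_
    intro σ hσ
    exact (hq _).trans hσ
  refine (((finite_setOfPred_isRoot hp0).subset (t := {Y | p.IsRoot Y ∧ Y ≠ 0})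
    fun Y h => h.1).biUnion fun Y hY => hq Y hY.2).subset ?_
  rintro σ ⟨Y, h0, h1, h2⟩
  exact Set.mem_biUnion (x := Y) ⟨(hp Y).trans h2, h0⟩ h1

lemma gen_zero {σ : Qb} (h0 : σ ≠ 0)
    (hd : 4 * (fib Γ.f Γ.g σ).I ^ 3 - (fib Γ.f Γ.g σ).J ^ 2 ≠ 0) :
    Gq Γ.f Γ.g (algebraMap Qb Om σ) lam (0 ^ 2) ≠ 0 := by
  intro h
  apply hd
  obtain ⟨e0, e1, e2, e3, e4⟩ := Quart.eq_zero_of_ev ⟨mx (Γ.f.a 0) (Γ.g.a 0) σ,
    mx (Γ.f.a 1) (Γ.g.a 1) σ, mx (Γ.f.a 2) (Γ.g.a 2) σ, mx (Γ.f.a 3) (Γ.g.a 3) σ,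
    mx (Γ.f.a 4) (Γ.g.a 4) σ⟩ fun t => by
      obtain ⟨sp, tl⟩ := nonConst_lam.exists_sp t
      have := (tends_Gq Γ.f Γ.g (Tends.const σ) tl (Tends.zero.pow 2)).eq_zero h
      rw [Gq_eq, cC] at this
      apply mul_left_cancel₀ (mul_ne_zero (by norm_num : (4 : Qb) ≠ 0) h0)
      unfold Quart.ev
      linear_combination this
  dsimp only at e0 e1 e2 e3 e4
  unfold fib
  rw [e0, e1, e2, e3, e4]
  exact sqQ_disc _ _ _ _

variable [IsAddTorsionFree M]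

lemma Φ_eq_zero (E : EllData M) (hD : ∀ σ : Qb, E.at' σ = fib Γ.f Γ.g σ)
    (hΨ : ∀ s t z, E.Ψ s t z
      = Γ.Φ s t ((z - cB Γ.f Γ.g (-s ^ 2) t) / (2 * cA Γ.f Γ.g (-s ^ 2))))
    (hGd : E.Gd = Γ.Gd) {s : Qb} (hs : s ≠ 0) (h1 : -s ^ 2 ≠ E.σ1) (h0 : -s ^ 2 ≠ E.σ0)
    (hA : cA Γ.f Γ.g (-s ^ 2) ≠ 0)
    (hd : 4 * (fib Γ.f Γ.g (-s ^ 2)).I ^ 3 - (fib Γ.f Γ.g (-s ^ 2)).J ^ 2 ≠ 0)
    (hgen : ∀ X : Om, Gq Γ.f Γ.g (algebraMap Qb Om (-s ^ 2)) lam (X ^ 2) = 0 →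
      MvPolynomial.aeval ![lam, X] Γ.h ≠ 0) {t0 x0 : Qb}
    (hG : Gq Γ.f Γ.g (-s ^ 2) t0 (x0 ^ 2) = 0) (hgood : Γ.Good t0 x0) : Γ.Φ s t0 (x0 ^ 2) = 0 := by
  obtain ⟨ρ, hρ, hρG⟩ := Γ.exists_rho hA hgen
  have tσ : ∀ sp : Sp, Tends sp.v (-algebraMap Qb Om s ^ 2) (-s ^ 2) := fun sp =>
    ((Tends.const s).pow 2).neg
  set T : Om := algebraMap Qb Om t0 + lam with hT
  have hTn : NonConst T := nonConst_add t0
  obtain ⟨Z, hZ, sp0, tT0, tZ0⟩ : ∃ Z : Om, Z ^ 2 = (fib Γ.f Γ.g (-algebraMap Qb Om s ^ 2)).ev T ∧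
      ∃ sp : Sp, Tends sp.v T t0 ∧
        Tends sp.v Z (2 * cA Γ.f Γ.g (-s ^ 2) * x0 ^ 2 + cB Γ.f Γ.g (-s ^ 2) t0) := by
    obtain ⟨Z, hZ⟩ := exists_sqrt ((fib Γ.f Γ.g (-algebraMap Qb Om s ^ 2)).ev T)
    obtain ⟨sp, hsp⟩ := hTn.exists_sp t0
    have : Tends sp.v (Z ^ 2)
        ((2 * cA Γ.f Γ.g (-s ^ 2) * x0 ^ 2 + cB Γ.f Γ.g (-s ^ 2) t0) ^ 2) := by
      rw [hZ]
      refine ((tends_fib _ _ (tσ sp)).ev hsp).of_eq_right ?_
      rw [Gq_eq] at hG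
      rw [fib_ev]; linear_combination (-4 * cA Γ.f Γ.g (-s ^ 2)) * hG
    rcases sp.tends_sqrt this with h | h
    · exact ⟨Z, hZ, sp, hsp, h⟩
    · exact ⟨-Z, by rw [neg_sq, hZ], sp, hsp, by simpa using h.neg⟩
  have hZ0 : Z ≠ 0 := by
    intro h
    apply hd
    obtain ⟨e0, e1, e2, e3, e4⟩ := (fib Γ.f Γ.g (-s ^ 2)).eq_zero_of_ev fun t => by
      obtain ⟨sp, ht⟩ := hTn.exists_sp t
      exact ((tends_fib _ _ (tσ sp)).ev ht).eq_zero (by rw [← hZ, h]; ring)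
    simp [Quart.I, Quart.J, iI, iJ, e0, e1, e2, e3, e4]
  have hAO := (tends_cA Γ.f Γ.g (tσ sp0)).ne_zero hA
  have h2A : 2 * cA Γ.f Γ.g (-s ^ 2) ≠ 0 := mul_ne_zero two_ne_zero hA
  obtain ⟨γ, hγ, hv⟩ := Γ.fam_Φ (algebraMap Qb Om s) T _ (Γ.Gq_root hAO hZ)
  have tU : ∀ (sp : Sp) (t z : Qb), Tends sp.v T t → Tends sp.v Z z → Tends sp.v
      ((Z - cB Γ.f Γ.g (-algebraMap Qb Om s ^ 2) T) / (2 * cA Γ.f Γ.g (-algebraMap Qb Om s ^ 2)))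
      ((z - cB Γ.f Γ.g (-s ^ 2) t) / (2 * cA Γ.f Γ.g (-s ^ 2))) := fun sp t z tt tz =>
    (tz.sub (tends_cB _ _ (tσ sp) tt)).div ((Tends.ofNat 2).mul (tends_cA _ _ (tσ sp))) h2A
  have e := hγ.eq_of_list [T, Z⁻¹, (Polynomial.aeval T ρ)⁻¹] 0 (fun sp hsp => by
    simp only [List.forall_mem_cons] at hsp
    obtain ⟨v1, v2, v3, -⟩ := hsp
    obtain ⟨t, tt⟩ := sp.exists_tends v1
    obtain ⟨z, tz, hz⟩ := sp.exists_tends_sqrt (z := Z)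
      (by rw [hZ]; exact (tends_fib _ _ (tσ sp)).ev tt)
    have g1 := hρG t ((tt.aeval ρ).ne_zero_of_inv (hTn.aeval_ne_zero hρ) v3)
    rw [hv sp s t _ (Tends.const s) tt (tU sp t z tt tz) hs fun x hx => g1 x (by
      rw [hx]; exact Γ.Gq_root hA hz), ← hΨ]
    exact E.vanish hs h1 h0 (by rw [hD]; exact hd) ρ hρ (by rw [hGd]; exact hρG)
      (tz.ne_zero_of_inv hZ0 v2) (by rw [hD]; exact hz) (by rw [hGd]; exact g1)) sp0
  rw [← e]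
  refine (hv sp0 s t0 _ (Tends.const s) tT0 ((tU sp0 t0 _ tT0 tZ0).of_eq_right ?_) hs ?_).symm
  · field_simp; ring
  · intro x hx
    rcases sq_eq_sq_iff_eq_or_eq_neg.mp hx with rfl | rfl
    exacts [hgood, Γ.good_neg _ _ hgood]

omit [IsAddTorsionFree M] in
lemma pair_rel {t x r1 r2 r3 r4 : Qb} (ht : t ≠ 0) (hx : x ≠ 0) (v1 : r1 + r2 + r3 + r4 = 0)
    (v2 : r1 * r2 + r1 * r3 + r1 * r4 + r2 * r3 + r2 * r4 + r3 * r4 = 2 * Fq Γ.f t (x ^ 2))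
    (v3 : r1 * r2 * r3 + r1 * r2 * r4 + r1 * r3 * r4 + r2 * r3 * r4 = -(x ^ 3 * t))
    (v4 : r1 * r2 * r3 * r4 = Fq Γ.f t (x ^ 2) ^ 2 + x ^ 2 * Fq Γ.g t (x ^ 2))
    (hΦ : ∀ s, s ≠ 0 → Gq Γ.f Γ.g (-s ^ 2) t (x ^ 2) = 0 → Γ.Φ s t (x ^ 2) = 0) :
    Γ.cl t x r1 + Γ.cl t x r2 = Γ.cl t x r3 + Γ.cl t x r4 := by
  obtain rfl : r4 = -(r1 + r2) - r3 := by linear_combination v1
  have hm : r1 + r2 ≠ 0 := by
    intro h
    exact mul_ne_zero (pow_ne_zero 3 hx) ht (by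
      linear_combination v3 + (r1 * r2 + r3 * (r1 + r2 + r3)) * h)
  obtain ⟨s, hs⟩ : ∃ s, x = s * (r1 + r2) := ⟨x / (r1 + r2), by field_simp⟩
  have hs0 : s ≠ 0 := by rintro rfl; exact hx (by rw [hs, zero_mul])
  have v3' : r1 * r2 - r3 * (-(r1 + r2) - r3) = s * x ^ 2 * t := by
    apply mul_left_cancel₀ hm
    linear_combination -v3 + x ^ 2 * t * hs
  have k1 : r1 * r2 = nq Γ.f s t (x ^ 2) := by
    unfold nq
    have : x ^ 2 / (2 * s ^ 2) = (r1 + r2) ^ 2 / 2 := by rw [hs]; field_simp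
    rw [this]; linear_combination (1 / 2 : Qb) * (v2 + v3')
  have k2 : r3 * (-(r1 + r2) - r3) = nq Γ.f (-s) t (x ^ 2) := by
    unfold nq
    have : x ^ 2 / (2 * (-s) ^ 2) = (r1 + r2) ^ 2 / 2 := by rw [hs]; field_simp
    rw [this]; linear_combination (1 / 2 : Qb) * (v2 - v3')
  have hG : Gq Γ.f Γ.g (-s ^ 2) t (x ^ 2) = 0 := by
    have e : r1 * r2 * (r3 * (-(r1 + r2) - r3)) = _ := (mul_assoc _ _ _).symm.trans v4
    rw [k1, k2] at e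
    unfold nq at e
    unfold Gq
    field_simp at e
    apply mul_left_cancel₀ (pow_ne_zero 2 hx)
    linear_combination -e
  have := hΦ s hs0 hG
  rw [Φ, Γ.pairCl_eq rfl (by rw [hs]; field_simp) k1,
    Γ.pairCl_eq rfl (by rw [hs]; field_simp; ring) k2] at this
  exact sub_eq_zero.mp this

lemma cl_eq_of_roots {t x : Qb} (ht : t ≠ 0) (hx : x ≠ 0)
    (hΦ : ∀ s, s ≠ 0 → Gq Γ.f Γ.g (-s ^ 2) t (x ^ 2) = 0 → Γ.Φ s t (x ^ 2) = 0) :
    ∃ κ : M, ∀ y, Rq Γ.f Γ.g t x y = 0 → Γ.cl t x y = κ := by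
  obtain ⟨r1, r2, r3, r4, v1, v2, v3, v4⟩ := exists_vieta4 (2 * Fq Γ.f t (x ^ 2)) (x ^ 3 * t)
    (Fq Γ.f t (x ^ 2) ^ 2 + x ^ 2 * Fq Γ.g t (x ^ 2))
  have p1 := Γ.pair_rel ht hx v1 v2 v3 v4 hΦ
  have p2 := Γ.pair_rel (r1 := r1) (r2 := r3) (r3 := r2) (r4 := r4) ht hx
    (by linear_combination v1) (by linear_combination v2) (by linear_combination v3)
    (by linear_combination v4) hΦ
  have p3 := Γ.pair_rel (r1 := r1) (r2 := r4) (r3 := r2) (r4 := r3) ht hx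
    (by linear_combination v1) (by linear_combination v2) (by linear_combination v3)
    (by linear_combination v4) hΦ
  have two : ∀ a b : M, a + a = b + b → b = a := fun a b h =>
    (sub_eq_zero.mp (eq_zero_of_eq_neg' (by rw [neg_sub, sub_eq_sub_iff_add_eq_add, h])))
  refine ⟨Γ.cl t x r1, fun y hy => ?_⟩
  have e : (y - r1) * ((y - r2) * ((y - r3) * (y - r4))) = 0 := by
    unfold Rq at hy
    linear_combination hy - y ^ 3 * v1 + y ^ 2 * v2 - y * v3 + v4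
  simp only [mul_eq_zero, sub_eq_zero] at e
  rcases e with rfl | rfl | rfl | rfl
  · rfl
  · exact two _ _ (by linear_combination (norm := abel) p2 + p3)
  · exact two _ _ (by linear_combination (norm := abel) p1 + p3)
  · exact two _ _ (by linear_combination (norm := abel) p1 + p2)

lemma cl_const {t0 x0 t1 x1 : Qb} (g0 : Γ.Good t0 x0) (g1 : Γ.Good t1 x1) {α β : M}
    (h0 : ∀ y, Rq Γ.f Γ.g t0 x0 y = 0 → Γ.cl t0 x0 y = α)
    (h1 : ∀ y, Rq Γ.f Γ.g t1 x1 y = 0 → Γ.cl t1 x1 y = β) : α = β := by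
  have line : ∀ (a b : Qb) (sp : Sp),
      (Tends sp.v lam 0 → Tends sp.v ((algebraMap Qb Om a + algebraMap Qb Om b * lam) / (1 + lam)) a) ∧
      (Tends sp.v lam⁻¹ 0 →
        Tends sp.v ((algebraMap Qb Om a + algebraMap Qb Om b * lam) / (1 + lam)) b) := by
    intro a b sp
    refine ⟨fun hl => ?_, fun hl => ?_⟩
    · exact (((Tends.const a).add ((Tends.const b).mul hl)).div (Tends.one.add hl)
        (by simp)).of_eq_right (by simp)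
    · refine (((((Tends.const a).mul hl).add (Tends.const b)).div (hl.add Tends.one)
        (by simp)).of_eq_right (by simp)).of_eq_left ?_
      have h0 := nonConst_lam.ne_zero
      have h2 : 1 + lam ≠ 0 := fun h => nonConst_lam (-1) (by
        rw [map_neg, map_one]; linear_combination h)
      field_simp
  set T : Om := (algebraMap Qb Om t0 + algebraMap Qb Om t1 * lam) / (1 + lam)
  set X : Om := (algebraMap Qb Om x0 + algebraMap Qb Om x1 * lam) / (1 + lam)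
  obtain ⟨Y, hY⟩ := exists_root4 (Fq Γ.f T (X ^ 2) ^ 2 + X ^ 2 * Fq Γ.g T (X ^ 2)) (X ^ 3 * T)
    (2 * Fq Γ.f T (X ^ 2)) 0 1 (by simp)
  have hR : Rq Γ.f Γ.g T X Y = 0 := by unfold Rq; linear_combination hY
  obtain ⟨γ, hγ, hv⟩ := Γ.fam T X Y hR
  refine hγ.eq_of_lam (fun sp hl => ?_) fun sp hl => ?_
  · obtain ⟨y, ty, hy⟩ := sp.exists_tends_root _ _ ((line t0 t1 sp).1 hl) ((line x0 x1 sp).1 hl) hR
    rw [hv sp t0 x0 y ((line t0 t1 sp).1 hl) ((line x0 x1 sp).1 hl) ty g0, h0 y hy]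
  · obtain ⟨y, ty, hy⟩ := sp.exists_tends_root _ _ ((line t0 t1 sp).2 hl) ((line x0 x1 sp).2 hl) hR
    rw [hv sp t1 x1 y ((line t0 t1 sp).2 hl) ((line x0 x1 sp).2 hl) ty g1, h1 y hy]

open Polynomial in
/-- All points outside a curve have the same class. -/
theorem generic_const (hf : Γ.f.c ≠ 0) (hg : Γ.g.c ≠ 0) {σ0 : Qb} (hσ : σ0 ≠ 0)
    (hI : (X - C σ0) ^ 4 ∣ invI (pencilDisc Γ.f Γ.g))
    (hJ : (X - C σ0) ^ 6 ∣ invJ (pencilDisc Γ.f Γ.g))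
    (hd : ¬ (C Γ.f.c + C Γ.g.c * X) ^ 3 ∣
      4 * invI (pencilDisc Γ.f Γ.g) ^ 3 - invJ (pencilDisc Γ.f Γ.g) ^ 2) :
    ∃ (H : MvPolynomial (Fin 2) Qb) (β : M), (∃ t x, MvPolynomial.eval ![t, x] H ≠ 0) ∧
      ∀ t x, MvPolynomial.eval ![t, x] H ≠ 0 → Γ.Good t x ∧
        ∀ y, Rq Γ.f Γ.g t x y = 0 → Γ.cl t x y = β := by
  obtain ⟨x, a1, a2, a3, a4, B0, B1, B2, B3, B4, hδ, eI, eJ, t1, hB⟩ :=
    exists_params Γ.f Γ.g hf hg hσ hI hJ hd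
  let E := Γ.ell hg σ0 x a1 a2 a3 a4 B0 B1 B2 B3 B4 hδ eI eJ
  have hD : ∀ σ : Qb, E.at' σ = fib Γ.f Γ.g σ := fun σ => aeval_fib _ _ σ
  rw [invI_eq, invJ_eq] at hd
  have hd0 : 4 * (fib Γ.f Γ.g (X : Qb[X])).I ^ 3 - (fib Γ.f Γ.g X).J ^ 2 ≠ 0 := fun h =>
    hd (h ▸ dvd_zero _)
  have hev : ∀ σ : Qb, (4 * (fib Γ.f Γ.g (X : Qb[X])).I ^ 3 - (fib Γ.f Γ.g X).J ^ 2).eval σ
      = 4 * (fib Γ.f Γ.g σ).I ^ 3 - (fib Γ.f Γ.g σ).J ^ 2 := by
    intro σ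
    rw [← aeval_fib Γ.f Γ.g σ]
    simp [Quart.I, Quart.J, iI, iJ]
  obtain ⟨S, hS⟩ := (((Γ.finite_bad.union (finite_setOfPred_isRoot hd0)).insert 0).insert
    σ0 |>.insert (-Γ.f.c / Γ.g.c)).exists_finset_coe
  have hSm : ∀ σ, σ ∉ S → σ ≠ -Γ.f.c / Γ.g.c ∧ σ ≠ σ0 ∧ σ ≠ 0 ∧
      (∀ X : Om, X ≠ 0 → Gq Γ.f Γ.g (algebraMap Qb Om σ) lam (X ^ 2) = 0 →
        MvPolynomial.aeval ![lam, X] Γ.h ≠ 0) ∧
      4 * (fib Γ.f Γ.g σ).I ^ 3 - (fib Γ.f Γ.g σ).J ^ 2 ≠ 0 := by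
    intro σ h
    rw [← Finset.mem_coe, hS] at h
    simp only [Set.mem_insert_iff, Set.mem_union, Set.mem_ofPred_eq, not_or, not_exists, not_and,
      IsRoot.def, hev] at h
    exact ⟨h.1, h.2.1, h.2.2.1, h.2.2.2.1, h.2.2.2.2⟩
  let H : MvPolynomial (Fin 2) Qb := MvPolynomial.X 0 * Γ.h * ∏ σ ∈ S,
    Gq Γ.f Γ.g (MvPolynomial.C σ) (MvPolynomial.X 0) (MvPolynomial.X 1 ^ 2)
  have hGev : ∀ σ t x : Qb, MvPolynomial.eval ![t, x] (Gq Γ.f Γ.g (MvPolynomial.C σ)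
      (MvPolynomial.X 0) (MvPolynomial.X 1 ^ 2)) = Gq Γ.f Γ.g σ t (x ^ 2) := by
    intro σ t x
    have := map_Gq (MvPolynomial.aeval ![t, x] : MvPolynomial (Fin 2) Qb →ₐ[Qb] Qb) Γ.f Γ.g
      (MvPolynomial.C σ) (MvPolynomial.X 0) (MvPolynomial.X 1 ^ 2)
    rw [map_pow] at this
    simpa using this
  have hH0 : H ≠ 0 := by
    refine mul_ne_zero (mul_ne_zero (MvPolynomial.X_ne_zero _) ?_)
      (Finset.prod_ne_zero_iff.mpr fun σ _ h0 => ?_)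
    · obtain ⟨t, x, h⟩ := Γ.hne
      rintro h0
      simp [h0] at h
    · have k : ∀ t, cA Γ.f Γ.g σ = 0 ∧ cB Γ.f Γ.g σ t = 0 := by
        intro t
        have k0 := hGev σ t 0
        have k1 := hGev σ t 1
        obtain ⟨I, hI⟩ := IsAlgClosed.exists_pow_nat_eq (-1 : Qb) two_pos
        have k2 := hGev σ t I
        rw [h0, map_zero, Gq_eq] at k0 k1 k2
        rw [hI] at k2
        exact ⟨by linear_combination (-1 / 2 : Qb) * (k1 + k2) + k0,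
          by linear_combination (-1 / 2 : Qb) * (k1 - k2)⟩
      by_cases h1 : σ = 0
      · simpa [h1, cB] using (k 0).2
      by_cases h2 : σ = -Γ.f.c / Γ.g.c
      · exact hB (h2 ▸ (k t1).2)
      · exact Γ.cA_ne hg h1 h2 (k 0).1
  have hκ : ∀ t x, MvPolynomial.eval ![t, x] H ≠ 0 → Γ.Good t x ∧
      ∃ κ, ∀ y, Rq Γ.f Γ.g t x y = 0 → Γ.cl t x y = κ := by
    intro t x h
    simp only [H, map_mul, map_prod, hGev, ne_eq, mul_eq_zero, not_or, Finset.prod_eq_zero_iff,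
      not_exists, not_and, MvPolynomial.eval_X, Matrix.cons_val_zero] at h
    obtain ⟨⟨ht, hh⟩, hG⟩ := h
    have hgood := Γ.good_of t x hh
    refine ⟨hgood, Γ.cl_eq_of_roots ht (Γ.good_ne _ _ hgood) fun s hs hGs => ?_⟩
    obtain ⟨b1, b2, b3, b4, b5⟩ := hSm (-s ^ 2) fun hm => hG _ hm hGs
    refine Γ.Φ_eq_zero E hD (fun _ _ _ => rfl) rfl hs b1 b2 (Γ.cA_ne hg b3 b1) b5
      (fun X hX => b4 X ?_ hX) hGs hgood
    rintro rfl
    exact Γ.gen_zero b3 b5 hX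
  obtain ⟨t0, x0, h0⟩ : ∃ t x, MvPolynomial.eval ![t, x] H ≠ 0 := by
    by_contra hcon
    push Not at hcon
    refine hH0 (MvPolynomial.funext fun v => ?_)
    rw [map_zero, ← hcon (v 0) (v 1)]
    congr 2
    ext i
    fin_cases i <;> rfl
  obtain ⟨g0, β, hβ⟩ := hκ t0 x0 h0
  refine ⟨H, β, ⟨t0, x0, h0⟩, fun t x h => ⟨(hκ t x h).1, fun y hy => ?_⟩⟩
  obtain ⟨g1, κ, hκ'⟩ := hκ t x h
  rw [hκ' y hy, Γ.cl_const g1 g0 hκ' hβ]

end GeomData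

end

end Pool.Agent.P.MP_b8021b_nt
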