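import Pool.Agent.P.MP_b8021b_nt.Main1

/-! The main theorem. -/

open scoped LinearAlgebra.Projectivization Polynomial
open MvPolynomial

namespace Pool.Agent.P.MP_b8021b_nt

noncomputable section

variable {n : ℕ} (f g : EvenQuartic) (N : Fin (n + 1) → MvPolynomial (Fin 5) Qb)

lemma mem_closure {p : Fin 5 → Qb} (h0 : eval p (q₀ f) = 0) (h2 : eval p (q₂ g) = 0)
    (h : (fun i => eval p (N i)) ≠ 0) :
    Projectivization.mk Qb _ h ∈ zariskiClosure (imageOf (q₀ f) (q₂ g) N) :=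
  fun _ _ _ hZ => hZ _ ⟨p, h0, h2, h, rfl⟩

open Classical in
/-- The class of the image of a point. -/
def clp (p : Fin 5 → Qb) : Cyc (zariskiClosure (imageOf (q₀ f) (q₂ g) N)) :=
  if h : eval p (q₀ f) = 0 ∧ eval p (q₂ g) = 0 ∧ (fun i => eval p (N i)) ≠ 0 then
    ptCl ⟨Projectivization.mk Qb _ h.2.2, mem_closure f g N h.1 h.2.1 h.2.2⟩ else 0

lemma clp_eq {p p' : Fin 5 → Qb} (h0 : eval p' (q₀ f) = eval p (q₀ f))
    (h2 : eval p' (q₂ g) = eval p (q₂ g)) {a : Qb} (ha : a ≠ 0)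
    (h : ∀ i, eval p' (N i) = a * eval p (N i)) : clp f g N p' = clp f g N p := by
  have e : (fun i => eval p' (N i)) = a • fun i => eval p (N i) := funext h
  unfold clp
  by_cases hp : eval p (q₀ f) = 0 ∧ eval p (q₂ g) = 0 ∧ (fun i => eval p (N i)) ≠ 0
  · have hp' : eval p' (q₀ f) = 0 ∧ eval p' (q₂ g) = 0 ∧ (fun i => eval p' (N i)) ≠ 0 :=
      ⟨h0.trans hp.1, h2.trans hp.2.1, by rw [e]; exact smul_ne_zero ha hp.2.2⟩
    rw [dif_pos hp, dif_pos hp']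
    congr 2
    exact (Projectivization.mk_eq_mk_iff' _ _ _ _ _).mpr ⟨a, e.symm⟩
  · rw [dif_neg hp, dif_neg fun hp' => hp ⟨h0.symm.trans hp'.1, h2.symm.trans hp'.2.1,
      fun h => hp'.2.2 (by rw [e, h, smul_zero])⟩]

lemma fam_clp {P : Fin 5 → Om} (h0 : aeval P (q₀ f) = 0) (h2 : aeval P (q₂ g) = 0) :
    ∃ γ : Sp → Cyc (zariskiClosure (imageOf (q₀ f) (q₂ g) N)), IsFam γ ∧
      (∀ (sp : Sp) (x : zariskiClosure (imageOf (q₀ f) (q₂ g) N)),
        HasVal sp (fun i => aeval P (N i)) x → γ sp = ptCl x) ∧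
      ∀ (sp : Sp) (p : Fin 5 → Qb), (∀ i, Tends sp.v (P i) (p i)) → (fun i => eval p (N i)) ≠ 0 →
        γ sp = clp f g N p := by
  by_cases hη : (fun i => aeval P (N i)) = 0
  · refine ⟨fun _ => 0, IsFam.zero, fun sp x ⟨c, hc⟩ => absurd (funext fun i => ?_) x.1.rep_nonzero,
      fun sp p hp h => absurd (funext fun i => ?_) h⟩
    · exact (hc i).eq_zero (by rw [hη, Pi.zero_apply, mul_zero])
    · exact (Tends.mv_aeval hp (N i)).eq_zero (congrFun hη i)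
  obtain ⟨γ, hγ, hv⟩ := exists_fam (imageOf (q₀ f) (q₂ g) N) hη (vanish_om h0 h2 hη)
  refine ⟨γ, hγ, hv, fun sp p hp h => ?_⟩
  have k0 := (Tends.mv_aeval hp _).eq_zero h0
  have k2 := (Tends.mv_aeval hp _).eq_zero h2
  rw [clp, dif_pos ⟨k0, k2, h⟩]
  exact hv sp _ (hasVal_mk (c := 1) h fun i => by simpa using Tends.mv_aeval hp (N i))

theorem main (hf : f.c ≠ 0) (hg : g.c ≠ 0) (hprime : (Ideal.span {q₀ f, q₂ g}).IsPrime)
    {σ0 : Qb} (hσ : σ0 ≠ 0) (hI : (Polynomial.X - Polynomial.C σ0) ^ 4 ∣ invI (pencilDisc f g))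
    (hJ : (Polynomial.X - Polynomial.C σ0) ^ 6 ∣ invJ (pencilDisc f g))
    (hd : ¬ (Polynomial.C f.c + Polynomial.C g.c * Polynomial.X) ^ 3 ∣
      4 * invI (pencilDisc f g) ^ 3 - invJ (pencilDisc f g) ^ 2)
    (d : ℕ × ZMod 2) (hN : ∀ i, IsWeightedHomogeneous wt (N i) d)
    (hN0 : ∃ i, N i ∉ Ideal.span {q₀ f, q₂ g})
    (D : zariskiClosure (imageOf (q₀ f) (q₂ g) N) →₀ ℤ) (hD : D.degree = 0) :
    ∃ m : ℕ, 0 < m ∧ m • D ∈ ratTrivial (zariskiClosure (imageOf (q₀ f) (q₂ g) N)) := by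
  obtain ⟨k, hk⟩ := hN0
  obtain ⟨h, hne, hh⟩ := exists_chart_poly f g hprime hk (hN k)
  have hsign : ∀ t x y i, MvPolynomial.eval (pt f t (-x) (-y)) (N i)
      = (-1) ^ d.2.val * MvPolynomial.eval (pt f t x y) (N i) := fun t x y i => by
    rw [pt_neg, N_sign (hN i), pt]
  let Γ : GeomData (Cyc (zariskiClosure (imageOf (q₀ f) (q₂ g) N))) :=
    { f := f
      g := g
      cl := fun t x y => clp f g N (pt f t x y)
      Good := fun t x => x ≠ 0 ∧ ∀ y, Rq f g t x y = 0 →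
        (fun i => MvPolynomial.eval (pt f t x y) (N i)) ≠ 0
      h := h
      hne := hne
      good_of := fun t x ht => ⟨(hh t x ht).1, fun y hy h0 => (hh t x ht).2 y hy (congrFun h0 k)⟩
      good_ne := fun _ _ h => h.1
      good_neg := fun t x hx => ⟨neg_ne_zero.mpr hx.1, fun y hy h0 => hx.2 (-y)
        (by rw [← hy]; unfold Rq; ring_nf) (funext fun i => by
          have := hsign t x (-y) i
          rw [neg_neg, congrFun h0 i] at this
          exact (mul_eq_zero.mp this.symm).resolve_left (by simp))⟩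
      sym := fun t x y => clp_eq f g N (by
          rw [pt_neg, pt, ← aeval_eq_eval, ← aeval_eq_eval, q₀_chart, q₀_chart]; ring_nf) (by
          rw [pt_neg, pt, ← aeval_eq_eval, ← aeval_eq_eval, q₂_chart, q₂_chart]; ring_nf)
          (by simp) (hsign t x y)
      fam := fun T X Y hR => by
        by_cases hX : X = 0
        · exact ⟨fun _ => 0, IsFam.zero, fun sp t x y _ tx _ hx => absurd hX (tx.ne_zero hx.1)⟩
        obtain ⟨γ, hγ, -, hv⟩ := fam_clp f g N (pt_on f g hX hR).1 (pt_on f g hX hR).2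
        exact ⟨γ, hγ, fun sp t x y tt tx ty hx => hv sp _ (tends_pt f tt tx ty hx.1)
          (hx.2 y ((tends_Rq f g tt tx ty).eq_zero hR))⟩ }
  obtain ⟨H, β, ⟨t0, x0, h0⟩, hH⟩ := Γ.generic_const hf hg hσ hI hJ hd
  refine torsion_of_const (β := β) (fun ξ => ?_) D hD
  obtain ⟨e, H', -, hH'⟩ := exists_homog (![2, 1] : Fin 2 → Fin 5) 0 H
  have hv : ∀ (R : Type) [Field R] (v : Fin 5 → R),
      (fun i => v ((![2, 1] : Fin 2 → Fin 5) i) / v 0) = ![v 2 / v 0, v 1 / v 0] := by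
    intro R _ v
    ext i
    fin_cases i <;> rfl
  have hnot : MvPolynomial.X 0 * MvPolynomial.X 1 * H' ∉ Ideal.span {q₀ f, q₂ g} := by
    intro hm
    obtain ⟨y, hy⟩ := exists_root4 (Fq f t0 (x0 ^ 2) ^ 2 + x0 ^ 2 * Fq g t0 (x0 ^ 2)) (x0 ^ 3 * t0)
      (2 * Fq f t0 (x0 ^ 2)) 0 1 (by simp)
    have hx0 : x0 ≠ 0 := (hH t0 x0 h0).1.1
    obtain ⟨k0, k2⟩ := pt_on f g (t := t0) (y := y) hx0 (by unfold Rq; linear_combination hy)
    have := aeval_eq_zero_of_mem k0 k2 hm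
    rw [map_mul, map_mul, hH' Qb _ (by simp [pt]), hv] at this
    simp [pt, hx0, h0] at this
  obtain ⟨P, sp0, p0, p2, pH, hval⟩ := exists_approach hprime dg (by decide)
    (fun c p a b => ⟨(q₀_scale f c p).trans (mul_eq_zero_of_right _ a),
      (q₂_scale g c p).trans (mul_eq_zero_of_right _ b)⟩) d.1
    (fun c p j => N_scale (hN j) c p) hnot ξ.2
  simp only [map_mul, MvPolynomial.aeval_X, ne_eq, mul_eq_zero, not_or] at pH
  obtain ⟨⟨a0, a1⟩, a2⟩ := pH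
  rw [hH' Om P a0, hv] at a2
  have eP : (fun i => (P 0)⁻¹ ^ dg i * P i)
      = ![1, P 1 / P 0, P 2 / P 0, P 3 / P 0 ^ 2, P 4 / P 0 ^ 2] := by
    ext i
    fin_cases i <;> simp [dg, a0, div_eq_inv_mul]
  have b0 := q₀_scale f (P 0)⁻¹ P
  have b2 := q₂_scale g (P 0)⁻¹ P
  rw [eP, p0, mul_zero] at b0
  rw [eP, p2, mul_zero] at b2
  obtain ⟨hR, ept⟩ := eq_pt f g (div_ne_zero a1 a0) b0 b2
  obtain ⟨γ, hγ, v1, v2⟩ := fam_clp f g N b0 b2
  rw [← v1 sp0 ξ (by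
    obtain ⟨c, hc⟩ := hval
    refine ⟨c * P 0 ^ d.1, fun i => (hc i).of_eq_left ?_⟩
    dsimp only
    rw [← eP, N_scale (hN i), inv_pow]
    field_simp)]
  refine hγ.eq_of_list [P 2 / P 0, P 1 / P 0, (MvPolynomial.aeval ![P 2 / P 0, P 1 / P 0] H)⁻¹] β
    (fun sp hsp => ?_) sp0
  simp only [List.forall_mem_cons] at hsp
  obtain ⟨w1, w2, w3, -⟩ := hsp
  obtain ⟨t, tt⟩ := sp.exists_tends w1
  obtain ⟨x, tx⟩ := sp.exists_tends w2
  obtain ⟨y, ty, hy⟩ := sp.exists_tends_root f g tt tx hR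
  obtain ⟨gd, hcl⟩ := hH t x ((tends_pair tt tx H).ne_zero_of_inv (right_ne_zero_of_mul a2) w3)
  rw [v2 sp (pt f t x y) (by rw [ept]; exact tends_pt f tt tx ty gd.1) (gd.2 y hy)]
  exact hcl y hy

end

end Pool.Agent.P.MP_b8021b_nt
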