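import Pool.Agent.P.MP_b8021b_nt.Tends

/-! Specialisations of the algebraic closure of `Qb(t)` and families of cycle classes. -/

open scoped WithZero IntermediateField Polynomial
open WithZero

namespace Pool.Agent.P.MP_b8021b_nt

noncomputable section

/-- The algebraic closure of `Qb(t)`. -/
abbrev Om : Type := AlgebraicClosure (RatFunc Qb)

/-- The variable `t` in `Om`. -/
def lam : Om := algebraMap (RatFunc Qb) Om RatFunc.X

/-- A nontrivial valuation ring of `Om` over `Qb`. -/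
structure Sp where
  O : ValuationSubring Om
  const_mem : ∀ c : Qb, algebraMap Qb Om c ∈ O
  ne_top : O ≠ ⊤

/-- The valuation of a specialisation. -/
abbrev Sp.v (sp : Sp) : Valuation Om sp.O.ValueGroup := sp.O.valuation

lemma isTrivialOn_of_const_mem {L : Type*} [Field L] [Algebra Qb L] (O : ValuationSubring L)
    (h : ∀ c : Qb, algebraMap Qb L c ∈ O) : O.valuation.IsTrivialOn Qb where
  eq_one c hc := by
    have h1 := (O.valuation_le_one_iff _).mpr (h c)
    have h2 := (O.valuation_le_one_iff _).mpr (h c⁻¹)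
    have h0 : algebraMap Qb L c ≠ 0 := by simpa using hc
    rw [map_inv₀, ← Valuation.one_le_val_iff _ h0] at h2
    exact le_antisymm h1 h2

instance (sp : Sp) : sp.v.IsTrivialOn Qb := isTrivialOn_of_const_mem sp.O sp.const_mem

lemma mem_of_isIntegralElem {R L : Type*} [CommRing R] [Field L] (O : ValuationSubring L)
    (φ : R →+* L) (hφ : ∀ r, φ r ∈ O) {x : L} (hx : φ.IsIntegralElem x) : x ∈ O := by
  obtain ⟨p, hp, hpx⟩ := hx
  have hI : IsIntegral O x := by
    refine ⟨p.map (φ.codRestrict O.toSubring hφ), hp.map _, ?_⟩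
    rw [Polynomial.eval₂_map]
    exact hpx
  obtain ⟨y, rfl⟩ := IsIntegrallyClosed.isIntegral_iff.mp hI
  exact y.2

lemma exists_finK (T : Finset Om) : ∃ K : IntermediateField (RatFunc Qb) Om,
    FiniteDimensional (RatFunc Qb) K ∧ ∀ a ∈ T, a ∈ K := by
  refine ⟨IntermediateField.adjoin (RatFunc Qb) (T : Set Om), ?_, fun a ha =>
    IntermediateField.subset_adjoin _ _ ha⟩
  exact IntermediateField.finiteDimensional_adjoin fun x _ =>
    (Algebra.IsAlgebraic.isAlgebraic x).isIntegral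

lemma isCurveField_finK (K : IntermediateField (RatFunc Qb) Om) [FiniteDimensional (RatFunc Qb) K] :
    IsCurveField K := by
  refine ⟨algebraMap (RatFunc Qb) K RatFunc.X, ?_, ?_⟩
  · exact (transcendental_algebraMap_iff (algebraMap (RatFunc Qb) K).injective).mpr
      RatFunc.transcendental_X
  · exact FunctionField.FiniteDimensional.adjoin_algebraMap_X

/-- The specialisation `sp` lies over the valuation `w` of the subfield `K`. -/
def Lies (sp : Sp) (K : IntermediateField (RatFunc Qb) Om) (w : Valuation K ℤᵐ⁰) : Prop :=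
  w.IsEquiv (sp.v.comap (algebraMap K Om))

lemma Lies.le_one {sp : Sp} {K : IntermediateField (RatFunc Qb) Om} {w : Valuation K ℤᵐ⁰}
    (h : Lies sp K w) (a : K) : w a ≤ 1 ↔ sp.v (a : Om) ≤ 1 :=
  Valuation.IsEquiv.le_one_iff_le_one h

lemma Lies.lt_one {sp : Sp} {K : IntermediateField (RatFunc Qb) Om} {w : Valuation K ℤᵐ⁰}
    (h : Lies sp K w) (a : K) : w a < 1 ↔ sp.v (a : Om) < 1 :=
  Valuation.IsEquiv.lt_one_iff_lt_one h

lemma Sp.exists_lies (sp : Sp) (K : IntermediateField (RatFunc Qb) Om)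
    [FiniteDimensional (RatFunc Qb) K] : ∃ w : Valuation K ℤᵐ⁰, IsPlace w ∧ Lies sp K w := by
  have hne : sp.O.comap (algebraMap K Om) ≠ ⊤ := by
    intro htop
    apply sp.ne_top
    rw [eq_top_iff]
    intro x _
    refine mem_of_isIntegralElem sp.O (algebraMap (RatFunc Qb) Om) (fun r => ?_)
      (Algebra.IsAlgebraic.isAlgebraic (R := RatFunc Qb) x).isIntegral
    have : algebraMap (RatFunc Qb) K r ∈ sp.O.comap (algebraMap K Om) := by
      rw [htop]; exact ValuationSubring.mem_top _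
    exact this
  obtain ⟨w, hw, hO⟩ := (isCurveField_finK K).exists_place (sp.O.comap (algebraMap K Om))
    (fun c => sp.const_mem c) hne
  refine ⟨w, hw, Valuation.isEquiv_iff_val_le_one.mpr fun {x} => ?_⟩
  rw [← Valuation.mem_valuationSubring_iff, hO]
  exact (sp.O.valuation_le_one_iff _).symm

lemma exists_sp_lies (K : IntermediateField (RatFunc Qb) Om) {w : Valuation K ℤᵐ⁰}
    (hw : IsPlace w) : ∃ sp : Sp, Lies sp K w := by
  obtain ⟨A, hA, hloc⟩ := IsLocalRing.exists_factor_valuationRing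
    ((algebraMap K Om).comp w.valuationSubring.subtype)
  have key : ∀ x : K, w x ≤ 1 ↔ (x : Om) ∈ A := by
    intro x
    refine ⟨fun hx => hA ⟨x, hx⟩, fun hx => ?_⟩
    by_contra hx'
    push Not at hx'
    have h0 : x ≠ 0 := by rintro rfl; simp at hx'
    have h1 : w x⁻¹ < 1 := (Valuation.one_lt_val_iff w h0).mp hx'
    have hu : IsUnit (((algebraMap K Om).comp w.valuationSubring.subtype).codRestrict A.toSubring hA
        ⟨x⁻¹, h1.le⟩) := by
      refine IsUnit.of_mul_eq_one ⟨(x : Om), hx⟩ (Subtype.ext ?_)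
      have : (x : Om) ≠ 0 := by simpa using h0
      simp [this]
    have hu' := (isUnit_map_iff _ _).mp hu
    obtain ⟨y, hy⟩ := hu'.exists_right_inv
    have hy' : x⁻¹ * (y : K) = 1 := congrArg Subtype.val hy
    have hy2 : w (y : K) ≤ 1 := y.2
    have := congrArg w hy'
    rw [map_mul, map_one] at this
    exact absurd this (mul_lt_one_of_nonneg_of_lt_one_left zero_le h1 hy2).ne
  have hne : A ≠ ⊤ := by
    intro htop
    apply hw.ne_top
    rw [eq_top_iff]
    intro x _
    exact (key x).mpr (htop ▸ ValuationSubring.mem_top _)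
  refine ⟨⟨A, fun c => (key (algebraMap Qb K c)).mp (hw.const_le_one c), hne⟩,
    Valuation.isEquiv_iff_val_le_one.mpr fun {x} => ?_⟩
  rw [key]
  exact (A.valuation_le_one_iff _).symm

lemma Sp.exists_tends (sp : Sp) {a : Om} (h : sp.v a ≤ 1) : ∃ c : Qb, Tends sp.v a c := by
  obtain ⟨K, hK, hT⟩ := exists_finK {a}
  obtain ⟨w, hw, hl⟩ := sp.exists_lies K
  obtain ⟨c, hc⟩ := (isCurveField_finK K).exists_residue hw ⟨a, hT a (by simp)⟩
    ((hl.le_one _).mpr h)
  exact ⟨c, (hl.lt_one _).mp hc⟩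

/-- An element of `Om` that is not a constant. -/
def NonConst (f : Om) : Prop := ∀ c : Qb, f ≠ algebraMap Qb Om c

lemma NonConst.exists_sp {f : Om} (hf : NonConst f) (c : Qb) : ∃ sp : Sp, Tends sp.v f c := by
  obtain ⟨K, hK, hT⟩ := exists_finK {f - algebraMap Qb Om c}
  let g : K := ⟨f - algebraMap Qb Om c, hT _ (by simp)⟩
  have hg : Transcendental Qb g := transcendental_of_notMem_range fun d hd => hf (d + c) (by
    have : f - algebraMap Qb Om c = algebraMap Qb Om d := congrArg Subtype.val hd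
    rw [map_add, ← this]; ring)
  obtain ⟨S, hS, hsum⟩ := (isCurveField_finK K).sum_ord_zeros hg
  have := (isCurveField_finK K).finite hg
  have hpos : 0 < Module.finrank Qb⟮g⟯ K := Module.finrank_pos
  have hne : S.Nonempty := by
    rw [Finset.nonempty_iff_ne_empty]
    rintro rfl
    simp only [Finset.sum_empty] at hsum
    omega
  obtain ⟨w, hw⟩ := hne
  obtain ⟨sp, hl⟩ := exists_sp_lies K ((hS w).mp hw).1
  exact ⟨sp, (hl.lt_one g).mp ((hS w).mp hw).2⟩

lemma NonConst.inv {f : Om} (hf : NonConst f) : NonConst f⁻¹ := fun c hc =>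
  hf c⁻¹ (by rw [map_inv₀, ← hc, inv_inv])

lemma NonConst.ne_zero {f : Om} (hf : NonConst f) : f ≠ 0 := fun h => hf 0 (by simp [h])

lemma NonConst.exists_pole {f : Om} (hf : NonConst f) : ∃ sp : Sp, 1 < sp.v f := by
  obtain ⟨sp, h⟩ := hf.inv.exists_sp 0
  exact ⟨sp, (Valuation.one_lt_val_iff _ hf.ne_zero).mpr (Tends.zero_iff.mp h)⟩

lemma NonConst.aeval_ne_zero {f : Om} (hf : NonConst f) {p : Qb[X]} (hp : p ≠ 0) :
    Polynomial.aeval f p ≠ 0 := fun h =>
  transcendental_of_notMem_range hf ⟨p, hp, h⟩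

lemma nonConst_lam : NonConst lam := by
  intro c hc
  have : Transcendental Qb lam :=
    (transcendental_algebraMap_iff (algebraMap (RatFunc Qb) Om).injective).mpr
      RatFunc.transcendental_X
  exact this (hc ▸ isAlgebraic_algebraMap c)

variable {M : Type*} [AddCommGroup M]

/-- A family of classes over a curve: principal divisors map to zero. -/
def IsFam (γ : Sp → M) : Prop :=
  ∃ T : Finset Om, ∀ K : IntermediateField (RatFunc Qb) Om, FiniteDimensional (RatFunc Qb) K →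
    (∀ a ∈ T, a ∈ K) → ∃ γK : Valuation K ℤᵐ⁰ → M,
      (∀ sp w, IsPlace w → Lies sp K w → γ sp = γK w) ∧
      ∀ (f : K) (S : Finset (Valuation K ℤᵐ⁰)), f ≠ 0 → (∀ w ∈ S, IsPlace w) →
        (∀ w, IsPlace w → w ∉ S → ord w f = 0) → ∑ w ∈ S, ord w f • γK w = 0

lemma IsFam.add {γ δ : Sp → M} (h : IsFam γ) (h' : IsFam δ) : IsFam fun sp => γ sp + δ sp := by
  classical
  obtain ⟨T, hT⟩ := h
  obtain ⟨T', hT'⟩ := h'
  refine ⟨T ∪ T', fun K hK hsub => ?_⟩
  obtain ⟨g, h1, h2⟩ := hT K hK fun a ha => hsub a (Finset.mem_union_left _ ha)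
  obtain ⟨g', h1', h2'⟩ := hT' K hK fun a ha => hsub a (Finset.mem_union_right _ ha)
  refine ⟨fun w => g w + g' w, fun sp w hw hl => by simp only [h1 sp w hw hl, h1' sp w hw hl],
    fun f S hf hS hS' => ?_⟩
  simp only [smul_add, Finset.sum_add_distrib, h2 f S hf hS hS', h2' f S hf hS hS', add_zero]

lemma IsFam.neg {γ : Sp → M} (h : IsFam γ) : IsFam fun sp => -γ sp := by
  obtain ⟨T, hT⟩ := h
  refine ⟨T, fun K hK hsub => ?_⟩
  obtain ⟨g, h1, h2⟩ := hT K hK hsub
  refine ⟨fun w => -g w, fun sp w hw hl => by simp only [h1 sp w hw hl], fun f S hf hS hS' => ?_⟩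
  simp only [smul_neg, Finset.sum_neg_distrib, h2 f S hf hS hS', neg_zero]

lemma IsFam.sub {γ δ : Sp → M} (h : IsFam γ) (h' : IsFam δ) : IsFam fun sp => γ sp - δ sp := by
  simpa only [sub_eq_add_neg] using h.add h'.neg

lemma IsFam.zero : IsFam fun _ : Sp => (0 : M) :=
  ⟨∅, fun _ _ _ => ⟨fun _ => 0, fun _ _ _ _ => rfl, fun _ _ _ _ _ => by simp⟩⟩

/-- A family that is constant outside the poles of finitely many functions is constant. -/
theorem IsFam.eq_of_finite {γ : Sp → M} (h : IsFam γ) (G : Finset Om) (β : M)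
    (hβ : ∀ sp : Sp, (∀ g ∈ G, sp.v g ≤ 1) → γ sp = β) (sp0 : Sp) : γ sp0 = β := by
  classical
  obtain ⟨T, hT⟩ := h
  obtain ⟨K, hK, hsub⟩ := exists_finK (T ∪ G)
  obtain ⟨γK, h1, h2⟩ := hT K hK fun a ha => hsub a (Finset.mem_union_left _ ha)
  have hC := isCurveField_finK K
  obtain ⟨w0, hw0, hl0⟩ := sp0.exists_lies K
  have hbad : ∀ g : G, ∃ S : Finset (Valuation K ℤᵐ⁰), (∀ w ∈ S, IsPlace w) ∧
      ∀ w, IsPlace w → w ∉ S → w ⟨g, hsub g (Finset.mem_union_right _ g.2)⟩ ≤ 1 := by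
    intro g
    by_cases hg : (⟨g, hsub g (Finset.mem_union_right _ g.2)⟩ : K) = 0
    · exact ⟨∅, by simp, fun w _ _ => by rw [hg]; simp⟩
    · obtain ⟨S, hS, -⟩ := hC.exists_divisor hg
      refine ⟨S, fun w hw => ((hS w).mp hw).1, fun w hw hwS => ?_⟩
      by_contra hlt
      exact hwS ((hS w).mpr ⟨hw, fun h => hlt h.le⟩)
  choose B hB1 hB2 using hbad
  let S : Finset (Valuation K ℤᵐ⁰) := insert w0 (Finset.univ.biUnion B)
  have hSp : ∀ w ∈ S, IsPlace w := by
    intro w hw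
    rcases Finset.mem_insert.mp hw with rfl | hw
    · exact hw0
    · obtain ⟨g, -, hg⟩ := Finset.mem_biUnion.mp hw
      exact hB1 g w hg
  obtain ⟨f, hf0, hf1⟩ := hC.exists_approx S hSp w0 (Finset.mem_insert_self _ _)
  have hfne : f ≠ 0 := by
    rintro rfl
    simp only [map_zero] at hf0
    exact exp_ne_zero hf0.symm
  obtain ⟨D, hD, hsum⟩ := hC.exists_divisor hfne
  have hord : ord w0 f = 1 := by simp [ord, hf0]
  have hw0D : w0 ∈ D := (hD w0).mpr ⟨hw0, fun h => by
    rw [ord_eq_zero_of_eq_one h] at hord; exact zero_ne_one hord⟩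
  have h3 := h2 f D hfne (fun w hw => ((hD w).mp hw).1) fun w hw hwD =>
    ord_eq_zero_of_eq_one (by by_contra hne; exact hwD ((hD w).mpr ⟨hw, hne⟩))
  have h4 : ∑ w ∈ D, ord w f • (γK w - β) = 0 := by
    simp only [smul_sub, Finset.sum_sub_distrib, h3, ← Finset.sum_smul, hsum, zero_smul, sub_zero]
  rw [Finset.sum_eq_single_of_mem w0 hw0D, hord, one_smul, sub_eq_zero] at h4
  · rw [h1 sp0 w0 hw0 hl0, h4]
  · intro w hw hne
    obtain ⟨hwp, hw1⟩ := (hD w).mp hw
    have hwS : w ∉ S := fun hS => hw1 (hf1 w hS hne)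
    obtain ⟨sp, hl⟩ := exists_sp_lies K hwp
    rw [← h1 sp w hwp hl, hβ sp, sub_self, smul_zero]
    intro g hg
    refine (hl.le_one ⟨g, hsub g (Finset.mem_union_right _ hg)⟩).mp (hB2 ⟨g, hg⟩ w hwp ?_)
    intro hB
    exact hwS (Finset.mem_insert_of_mem (Finset.mem_biUnion.mpr ⟨⟨g, hg⟩, Finset.mem_univ _, hB⟩))

/-- If a family is constant on the zeros and on the poles of a function, the two values agree. -/
theorem IsFam.eq_of_zeros_poles [IsAddTorsionFree M] {γ : Sp → M} (h : IsFam γ) {f : Om}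
    (hf : NonConst f) {α β : M} (hα : ∀ sp : Sp, sp.v f < 1 → γ sp = α)
    (hβ : ∀ sp : Sp, 1 < sp.v f → γ sp = β) : α = β := by
  classical
  obtain ⟨T, hT⟩ := h
  obtain ⟨K, hK, hsub⟩ := exists_finK (insert f T)
  obtain ⟨γK, h1, h2⟩ := hT K hK fun a ha => hsub a (Finset.mem_insert_of_mem ha)
  have hC := isCurveField_finK K
  let g : K := ⟨f, hsub f (Finset.mem_insert_self _ _)⟩
  have hg0 : g ≠ 0 := fun h => hf.ne_zero (congrArg Subtype.val h)
  have hg : Transcendental Qb g :=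
    transcendental_of_notMem_range fun d hd => hf d (congrArg Subtype.val hd)
  obtain ⟨D, hD, hsum⟩ := hC.exists_divisor hg0
  obtain ⟨Z, hZ, hZsum⟩ := hC.sum_ord_zeros hg
  have := hC.finite hg
  have hpos : 0 < Module.finrank Qb⟮g⟯ K := Module.finrank_pos
  have hZD : Z ⊆ D := fun w hw => (hD w).mpr ⟨((hZ w).mp hw).1, ((hZ w).mp hw).2.ne⟩
  have h3 := h2 g D hg0 (fun w hw => ((hD w).mp hw).1) fun w hw hwD =>
    ord_eq_zero_of_eq_one (by by_contra hne; exact hwD ((hD w).mpr ⟨hw, hne⟩))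
  have h4 : ∑ w ∈ D, ord w g • (γK w - β) = 0 := by
    simp only [smul_sub, Finset.sum_sub_distrib, h3, ← Finset.sum_smul, hsum, zero_smul, sub_zero]
  rw [← Finset.sum_subset hZD] at h4
  · rw [Finset.sum_congr rfl (g := fun w => ord w g • (α - β)), ← Finset.sum_smul, hZsum] at h4
    · rw [natCast_zsmul, nsmul_eq_zero_iff_right hpos.ne'] at h4
      exact sub_eq_zero.mp h4
    · intro w hw
      obtain ⟨hwp, hw1⟩ := (hZ w).mp hw
      obtain ⟨sp, hl⟩ := exists_sp_lies K hwp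
      rw [← h1 sp w hwp hl, hα sp ((hl.lt_one g).mp hw1)]
  · intro w hw hwZ
    obtain ⟨hwp, hw1⟩ := (hD w).mp hw
    obtain ⟨sp, hl⟩ := exists_sp_lies K hwp
    have : ¬ w g ≤ 1 := fun hle => hwZ ((hZ w).mpr ⟨hwp, lt_of_le_of_ne hle hw1⟩)
    rw [← h1 sp w hwp hl, hβ sp (not_le.mp fun hle => this ((hl.le_one g).mpr hle)), sub_self,
      smul_zero]

theorem IsFam.eq_of_lam [IsAddTorsionFree M] {γ : Sp → M} (h : IsFam γ) {α β : M}
    (hα : ∀ sp : Sp, Tends sp.v lam 0 → γ sp = α)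
    (hβ : ∀ sp : Sp, Tends sp.v lam⁻¹ 0 → γ sp = β) : α = β :=
  h.eq_of_zeros_poles nonConst_lam (fun sp h => hα sp (Tends.zero_iff.mpr h)) fun sp h =>
    hβ sp (Tends.zero_iff.mpr ((Valuation.one_lt_val_iff _ nonConst_lam.ne_zero).mp h))

lemma eq_zero_of_eq_neg' [IsAddTorsionFree M] {a : M} (h : a = -a) : a = 0 := by
  have : 2 • a = 0 := by rw [two_nsmul]; exact add_eq_zero_iff_eq_neg.mpr h
  exact two_nsmul_eq_zero.mp this

end

end Pool.Agent.P.MP_b8021b_nt
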