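import Pool.Agent.P.MP_b8021b_nt.Alg

/-! A tangent line through a generic point is not a bitangent. -/

namespace Pool.Agent.P.MP_b8021b_nt

lemma sq_cov1 {R : Type*} [CommRing R] (G0 G1 G2 ε ρ : R) {e0 e1 e2 e3 e4 A0 A1 A2 A3 A4 : R}
    (h0 : e0 = G0 ^ 2) (h1 : e1 = 2 * G0 * G1) (h2 : e2 = G1 ^ 2 + 2 * G0 * G2)
    (h3 : e3 = 2 * G1 * G2) (h4 : e4 = G2 ^ 2) (g0 : A0 = e4 * ε ^ 4)
    (g1 : A1 = e3 * ε ^ 3 - 4 * e4 * ε ^ 3 * ρ)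
    (g2 : A2 = e2 * ε ^ 2 - 3 * e3 * ε ^ 2 * ρ + 6 * e4 * ε ^ 2 * ρ ^ 2)
    (g3 : A3 = e1 * ε - 2 * e2 * ε * ρ + 3 * e3 * ε * ρ ^ 2 - 4 * e4 * ε * ρ ^ 3)
    (g4 : A4 = e0 - e1 * ρ + e2 * ρ ^ 2 - e3 * ρ ^ 3 + e4 * ρ ^ 4) :
    A1 ^ 3 - 4 * A0 * A1 * A2 + 8 * A0 ^ 2 * A3 = 0 ∧
      (A3 ^ 2 - 4 * A2 * A4) ^ 2 - 64 * A0 * A4 ^ 3 = 0 := by
  have k0 : A0 = (G2 * ε ^ 2) ^ 2 := by rw [g0, h4]; ring
  have k1 : A1 = 2 * (G2 * ε ^ 2) * (G1 * ε - 2 * G2 * ε * ρ) := by rw [g1, h3, h4]; ring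
  have k2 : A2 = (G1 * ε - 2 * G2 * ε * ρ) ^ 2 + 2 * (G2 * ε ^ 2) * (G0 - G1 * ρ + G2 * ρ ^ 2) := by
    rw [g2, h2, h3, h4]; ring
  have k3 : A3 = 2 * (G1 * ε - 2 * G2 * ε * ρ) * (G0 - G1 * ρ + G2 * ρ ^ 2) := by
    rw [g3, h1, h2, h3, h4]; ring
  have k4 : A4 = (G0 - G1 * ρ + G2 * ρ ^ 2) ^ 2 := by rw [g4, h0, h1, h2, h3, h4]; ring
  rw [k0, k1, k2, k3, k4]
  generalize G2 * ε ^ 2 = H0
  generalize G1 * ε - 2 * G2 * ε * ρ = H1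
  generalize G0 - G1 * ρ + G2 * ρ ^ 2 = H2
  constructor <;> ring

lemma not_square (x a1 a2 a3 a4 B0 B1 B2 B3 B4 s : Qb) (hδ : a1 ^ 2 - 12 * x * B0 ≠ 0)
    (n0 n1 G0 G1 G2 : Om) (hq : NonConst (n0 + n1 * algebraMap Qb Om s))
    (h0 : le0 (algebraMap Qb Om x) (algebraMap Qb Om a1) (algebraMap Qb Om B0) n0 = G0 ^ 2)
    (h1 : le1 (algebraMap Qb Om x) (algebraMap Qb Om a1) (algebraMap Qb Om a2) (algebraMap Qb Om B1)
      n0 n1 = 2 * G0 * G1)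
    (h2 : le2 (algebraMap Qb Om x) (algebraMap Qb Om a2) (algebraMap Qb Om a3) (algebraMap Qb Om B2)
      n0 n1 = G1 ^ 2 + 2 * G0 * G2)
    (h3 : le3 (algebraMap Qb Om a3) (algebraMap Qb Om a4) (algebraMap Qb Om B3) n0 n1 = 2 * G1 * G2)
    (h4 : le4 (algebraMap Qb Om a4) (algebraMap Qb Om B4) n1 = G2 ^ 2) : False := by
  obtain ⟨sp, hsp⟩ := hq.exists_pole
  have cx := Tends.const (v := sp.v) x
  have c1 := Tends.const (v := sp.v) a1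
  have c2 := Tends.const (v := sp.v) a2
  have c3 := Tends.const (v := sp.v) a3
  have c4 := Tends.const (v := sp.v) a4
  have d0 := Tends.const (v := sp.v) B0
  have d1 := Tends.const (v := sp.v) B1
  have d2 := Tends.const (v := sp.v) B2
  have d3 := Tends.const (v := sp.v) B3
  have d4 := Tends.const (v := sp.v) B4
  have hs := (Tends.const (v := sp.v) s).le_one
  generalize algebraMap Qb Om x = X at *
  generalize algebraMap Qb Om a1 = b1 at *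
  generalize algebraMap Qb Om a2 = b2 at *
  generalize algebraMap Qb Om a3 = b3 at *
  generalize algebraMap Qb Om a4 = b4 at *
  generalize algebraMap Qb Om B0 = C0 at *
  generalize algebraMap Qb Om B1 = C1 at *
  generalize algebraMap Qb Om B2 = C2 at *
  generalize algebraMap Qb Om B3 = C3 at *
  generalize algebraMap Qb Om B4 = C4 at *
  have hn1s : sp.v (n1 * algebraMap Qb Om s) ≤ sp.v n1 := by
    rw [map_mul]; exact mul_le_of_le_one_right' hs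
  rcases le_or_gt (sp.v n0) (sp.v n1) with hle | hlt
  · have hbig : 1 < sp.v n1 := hsp.trans_le (sp.v.map_add_le hle hn1s)
    have hne : n1 ≠ 0 := by rintro rfl; simp at hbig
    have hε : Tends sp.v n1⁻¹ 0 := Tends.zero_iff.mpr ((Valuation.one_lt_val_iff _ hne).mp hbig)
    obtain ⟨r, hr⟩ := sp.exists_tends (a := n0 / n1) (by
      rw [map_div₀]; exact div_le_one_of_le₀ hle zero_le)
    obtain ⟨ρ, rfl⟩ : ∃ ρ, n0 = ρ * n1 := ⟨n0 / n1, by field_simp⟩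
    rw [mul_div_cancel_right₀ _ hne] at hr
    obtain ⟨ε, rfl⟩ : ∃ ε, n1 = ε⁻¹ := ⟨n1⁻¹, by simp⟩
    rw [inv_inv] at hε
    have hε0 : ε ≠ 0 := by simpa using hne
    obtain ⟨k1, k2⟩ := sq_cov1 G0 G1 G2 ε ρ h0 h1 h2 h3 h4
      (A0 := ε * (1 + b4 * ε ^ 2 + C4 * ε ^ 3))
      (A1 := -ρ + ε * (b3 * ε - 3 * b4 * ρ * ε + C3 * ε ^ 2 - 4 * C4 * ρ * ε ^ 2))
      (A2 := 3 * X + ε * (b2 - 2 * b3 * ρ + 3 * b4 * ρ ^ 2 + C2 * ε - 3 * C3 * ρ * ε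
        + 6 * C4 * ρ ^ 2 * ε))
      (A3 := b1 - b2 * ρ + b3 * ρ ^ 2 - b4 * ρ ^ 3
        + ε * (C1 - 2 * C2 * ρ + 3 * C3 * ρ ^ 2 - 4 * C4 * ρ ^ 3))
      (A4 := C0 - C1 * ρ + C2 * ρ ^ 2 - C3 * ρ ^ 3 + C4 * ρ ^ 4)
      (by unfold le4; field_simp) (by unfold le3 le4; field_simp; ring)
      (by unfold le2 le3 le4; field_simp; ring) (by unfold le1 le2 le3 le4; field_simp; ring)
      (by unfold le0 le1 le2 le3 le4; field_simp; ring)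
    have t0 : Tends sp.v (ε * (1 + b4 * ε ^ 2 + C4 * ε ^ 3)) (0 * (1 + a4 * 0 ^ 2 + B4 * 0 ^ 3)) := by
      apply_rules (transparency := .reducible) [Tends.add, Tends.mul, Tends.pow, Tends.one]
    have t1 : Tends sp.v (-ρ + ε * (b3 * ε - 3 * b4 * ρ * ε + C3 * ε ^ 2 - 4 * C4 * ρ * ε ^ 2))
        (-r + 0 * (a3 * 0 - 3 * a4 * r * 0 + B3 * 0 ^ 2 - 4 * B4 * r * 0 ^ 2)) := by
      apply_rules (transparency := .reducible) [Tends.add, Tends.sub, Tends.neg, Tends.mul, Tends.pow, Tends.ofNat]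
    have t2 : Tends sp.v (3 * X + ε * (b2 - 2 * b3 * ρ + 3 * b4 * ρ ^ 2 + C2 * ε - 3 * C3 * ρ * ε
        + 6 * C4 * ρ ^ 2 * ε)) (3 * x + 0 * (a2 - 2 * a3 * r + 3 * a4 * r ^ 2 + B2 * 0
        - 3 * B3 * r * 0 + 6 * B4 * r ^ 2 * 0)) := by
      apply_rules (transparency := .reducible) [Tends.add, Tends.sub, Tends.neg, Tends.mul, Tends.pow, Tends.ofNat]
    have t3 : Tends sp.v (b1 - b2 * ρ + b3 * ρ ^ 2 - b4 * ρ ^ 3
        + ε * (C1 - 2 * C2 * ρ + 3 * C3 * ρ ^ 2 - 4 * C4 * ρ ^ 3))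
        (a1 - a2 * r + a3 * r ^ 2 - a4 * r ^ 3
        + 0 * (B1 - 2 * B2 * r + 3 * B3 * r ^ 2 - 4 * B4 * r ^ 3)) := by
      apply_rules (transparency := .reducible) [Tends.add, Tends.sub, Tends.neg, Tends.mul, Tends.pow, Tends.ofNat]
    have t4 : Tends sp.v (C0 - C1 * ρ + C2 * ρ ^ 2 - C3 * ρ ^ 3 + C4 * ρ ^ 4)
        (B0 - B1 * r + B2 * r ^ 2 - B3 * r ^ 3 + B4 * r ^ 4) := by
      apply_rules (transparency := .reducible) [Tends.add, Tends.sub, Tends.neg, Tends.mul, Tends.pow, Tends.ofNat]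
    have e1 := (((t1.pow 3).sub ((((Tends.ofNat 4).mul t0).mul t1).mul t2)).add
      (((Tends.ofNat 8).mul (t0.pow 2)).mul t3)).eq_zero k1
    have e2 := ((((t3.pow 2).sub (((Tends.ofNat 4).mul t2).mul t4)).pow 2).sub
      (((Tends.ofNat 64).mul t0).mul (t4.pow 3))).eq_zero k2
    have hr0 : r = 0 := by
      have : r ^ 3 = 0 := by linear_combination -e1
      exact pow_eq_zero_iff three_ne_zero |>.mp this
    subst hr0
    apply hδ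
    have : (a1 ^ 2 - 12 * x * B0) ^ 2 = 0 := by linear_combination e2
    exact pow_eq_zero_iff two_ne_zero |>.mp this
  · have hbig : 1 < sp.v n0 := hsp.trans_le (sp.v.map_add_le le_rfl (hn1s.trans hlt.le))
    have hne : n0 ≠ 0 := by rintro rfl; simp at hbig
    have hε : Tends sp.v n0⁻¹ 0 := Tends.zero_iff.mpr ((Valuation.one_lt_val_iff _ hne).mp hbig)
    obtain ⟨r, hr⟩ := sp.exists_tends (a := n1 / n0) (by
      rw [map_div₀]; exact div_le_one_of_le₀ hlt.le zero_le)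
    obtain ⟨ρ, rfl⟩ : ∃ ρ, n1 = ρ * n0 := ⟨n1 / n0, by field_simp⟩
    rw [mul_div_cancel_right₀ _ hne] at hr
    obtain ⟨ε, rfl⟩ : ∃ ε, n0 = ε⁻¹ := ⟨n0⁻¹, by simp⟩
    rw [inv_inv] at hε
    have hε0 : ε ≠ 0 := by simpa using hne
    obtain ⟨k1, -⟩ := sq_cov1 G2 G1 G0 ε ρ h4 (h3.trans (by ring)) (h2.trans (by ring))
      (h1.trans (by ring)) h0
      (A0 := ε * (3 * X * ε + b1 * ε ^ 2 + C0 * ε ^ 3))
      (A1 := 1 + ε * (-(6 * X * ρ) - 3 * b1 * ρ * ε + b2 * ε + C1 * ε ^ 2 - 4 * C0 * ρ * ε ^ 2))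
      (A2 := 3 * X * ρ ^ 2 + ε * (b3 - 2 * b2 * ρ + 3 * b1 * ρ ^ 2 + C2 * ε - 3 * C1 * ρ * ε
        + 6 * C0 * ρ ^ 2 * ε))
      (A3 := b4 - b3 * ρ + b2 * ρ ^ 2 - b1 * ρ ^ 3
        + ε * (C3 - 2 * C2 * ρ + 3 * C1 * ρ ^ 2 - 4 * C0 * ρ ^ 3))
      (by unfold le0; field_simp) (by unfold le0 le1; field_simp; ring)
      (by unfold le0 le1 le2; field_simp; ring) (by unfold le0 le1 le2 le3; field_simp; ring) rfl
    have t0 : Tends sp.v (ε * (3 * X * ε + b1 * ε ^ 2 + C0 * ε ^ 3))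
        (0 * (3 * x * 0 + a1 * 0 ^ 2 + B0 * 0 ^ 3)) := by
      apply_rules (transparency := .reducible) [Tends.add, Tends.mul, Tends.pow, Tends.ofNat]
    have t1 : Tends sp.v
        (1 + ε * (-(6 * X * ρ) - 3 * b1 * ρ * ε + b2 * ε + C1 * ε ^ 2 - 4 * C0 * ρ * ε ^ 2))
        (1 + 0 * (-(6 * x * r) - 3 * a1 * r * 0 + a2 * 0 + B1 * 0 ^ 2 - 4 * B0 * r * 0 ^ 2)) := by
      apply_rules (transparency := .reducible) [Tends.add, Tends.sub, Tends.neg, Tends.mul, Tends.pow, Tends.ofNat, Tends.one]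
    have t2 : Tends sp.v (3 * X * ρ ^ 2 + ε * (b3 - 2 * b2 * ρ + 3 * b1 * ρ ^ 2 + C2 * ε
        - 3 * C1 * ρ * ε + 6 * C0 * ρ ^ 2 * ε)) (3 * x * r ^ 2 + 0 * (a3 - 2 * a2 * r
        + 3 * a1 * r ^ 2 + B2 * 0 - 3 * B1 * r * 0 + 6 * B0 * r ^ 2 * 0)) := by
      apply_rules (transparency := .reducible) [Tends.add, Tends.sub, Tends.neg, Tends.mul, Tends.pow, Tends.ofNat]
    have t3 : Tends sp.v (b4 - b3 * ρ + b2 * ρ ^ 2 - b1 * ρ ^ 3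
        + ε * (C3 - 2 * C2 * ρ + 3 * C1 * ρ ^ 2 - 4 * C0 * ρ ^ 3))
        (a4 - a3 * r + a2 * r ^ 2 - a1 * r ^ 3
        + 0 * (B3 - 2 * B2 * r + 3 * B1 * r ^ 2 - 4 * B0 * r ^ 3)) := by
      apply_rules (transparency := .reducible) [Tends.add, Tends.sub, Tends.neg, Tends.mul, Tends.pow, Tends.ofNat]
    have e1 := (((t1.pow 3).sub ((((Tends.ofNat 4).mul t0).mul t1).mul t2)).add
      (((Tends.ofNat 8).mul (t0.pow 2)).mul t3)).eq_zero k1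
    simp at e1

/-- Through a generic point of a smooth fibre there is a rational curve `υ² = τ²ℓ²γ`. -/
lemma exists_conic (x a1 a2 a3 a4 B0 B1 B2 B3 B4 s : Qb) (hδ : a1 ^ 2 - 12 * x * B0 ≠ 0)
    (h : 4 * wa x a1 a2 a3 a4 s ^ 3 + 27 * wb x a1 a2 a3 a4 B0 B1 B2 B3 B4 s ^ 2 ≠ 0)
    (q : Om) (hq : NonConst q) : ∃ n0 n1 α β γ0 γ1 γ2 : Om, n0 + n1 * algebraMap Qb Om s = q ∧
      le0 (algebraMap Qb Om x) (algebraMap Qb Om a1) (algebraMap Qb Om B0) n0 = β ^ 2 * γ0 ∧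
      le1 (algebraMap Qb Om x) (algebraMap Qb Om a1) (algebraMap Qb Om a2) (algebraMap Qb Om B1)
        n0 n1 = 2 * α * β * γ0 + β ^ 2 * γ1 ∧
      le2 (algebraMap Qb Om x) (algebraMap Qb Om a2) (algebraMap Qb Om a3) (algebraMap Qb Om B2)
        n0 n1 = α ^ 2 * γ0 + 2 * α * β * γ1 + β ^ 2 * γ2 ∧
      le3 (algebraMap Qb Om a3) (algebraMap Qb Om a4) (algebraMap Qb Om B3) n0 n1
        = α ^ 2 * γ1 + 2 * α * β * γ2 ∧
      le4 (algebraMap Qb Om a4) (algebraMap Qb Om B4) n1 = α ^ 2 * γ2 ∧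
      γ1 ^ 2 - 4 * γ0 * γ2 ≠ 0 := by
  obtain ⟨μ, hμ⟩ := exists_tangent_line (algebraMap Qb Om x) (algebraMap Qb Om a1)
    (algebraMap Qb Om a2) (algebraMap Qb Om a3) (algebraMap Qb Om a4) (algebraMap Qb Om B0)
    (algebraMap Qb Om B1) (algebraMap Qb Om B2) (algebraMap Qb Om B3) (algebraMap Qb Om B4)
    (algebraMap Qb Om s) q (by
      intro h0
      apply h
      apply (algebraMap Qb Om).injective
      rw [map_zero, ← h0]
      simp only [wa, wb, map_add, map_sub, map_mul, map_pow, map_neg, map_ofNat])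
  obtain ⟨α, β, γ0, γ1, γ2, h0, h1, h2, h3, h4⟩ := exists_double_factor _ _ _ _ _ hμ
  refine ⟨_, μ, α, β, γ0, γ1, γ2, by ring, h0, h1, h2, h3, h4, fun hd => ?_⟩
  obtain ⟨u, w, rfl, rfl, rfl⟩ := exists_sq_of_disc hd
  refine not_square x a1 a2 a3 a4 B0 B1 B2 B3 B4 s hδ _ μ (β * u) (α * u + β * w) (α * w)
    (by simpa using hq) (h0.trans (by ring)) (h1.trans (by ring)) (h2.trans (by ring))
    (h3.trans (by ring)) (h4.trans (by ring))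

end Pool.Agent.P.MP_b8021b_nt
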